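import Pool.Agent.Helper99.MP.DefsL
import Pool.Agent.Helper99.HG.Sum

/-!
# The counting theorem, relative form, base `b`, any density `κ > 0`
-/

set_option autoImplicit false

namespace Pool.Agent.Helper99.ML

open Filter Topology
open Pool.Agent.Helper99.HG (CD pf Nm Bad TA pr Js tt mm UQ UU VV ext DD sc sc_lt sc_le sc_pos mem_pf tuple recip zz log_ge_one zz_mono zz_top
  zz_zero zz_two log_zz_le le_log_zz ll_le le_ll ll_diff ll_diff' irr_card)
open Pool.Agent.MP (SysR TAR)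

variable {k : ℕ} {G : Type} {b : ℝ}

/-- elementary facts on the distribution of the primes -/
structure SysW (P : Type) (nm : P → ℕ) : Prop where
  two : ∀ p, 2 ≤ nm p
  fin : ∀ x : ℕ, {p | nm p ≤ x}.Finite
  cheb : ∃ C : ℝ, ∀ x : ℕ, ∀ S : Finset P, (∀ p ∈ S, nm p ≤ x) → ∑ p ∈ S, Real.log (nm p) ≤ C * x

theorem mem_pr {D : CD k G} (h : SysW D.P D.nm) {x : ℕ} {p : D.P} : p ∈ pr D x ↔ D.nm p ≤ x := by
  unfold pr
  rw [dif_pos (h.fin x)]
  simp

theorem nm_le_Nm {D : CD k G} (h : SysW D.P D.nm) {c : Finset D.P} {p : D.P} (hp : p ∈ c) : D.nm p ≤ Nm D c := by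
  unfold Nm
  refine Nat.le_of_dvd (Finset.prod_pos fun q _ => ?_) (Finset.dvd_prod_of_mem _ hp)
  have := h.two q
  omega

theorem Nm_pos {D : CD k G} (h : SysW D.P D.nm) (c : Finset D.P) : 0 < Nm D c :=
  Finset.prod_pos fun q _ => by
    have := h.two q
    omega

open Classical in
theorem cover [CommGroup G] {D : CD k G} (hS : SysW D.P D.nm) {z : ℕ → ℕ} {N A X : ℕ} {c : Finset D.P} (hN : 0 < N)
    {PB : Finset (Fin k) → Prop} (hcX : Nm D c ≤ X) (hbad : Bad D c)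
    (hfull : ∀ κ < N, ∀ J, ¬ PB J → ∃ p ∈ pf D c, sc z N (D.nm p) = κ ∧ ∀ o ∈ D.V p, D.cmp o ∉ J)
    (hsm : ∀ κ, 1 ≤ κ → κ + 1 ≤ N - 1 → (∏ p ∈ (pf D c).filter (fun p => D.nm p ≤ z κ), D.nm p) ^ A ≤ z (κ + 1)) (o₀ : D.O) :
    ∃ K : Fin k → ℕ, (∀ j, K j ≤ N) ∧ (∀ κ < N, PB (Js K κ)) ∧
      ∃ d ∈ DD D z N A X, ∃ f ∈ Finset.pi (pf D d) (fun p => VV D z N K p),
        ∃ q ∈ Fintype.piFinset (fun j => UU D z N X K d (ext o₀ _ f) j), Nm D d * ∏ j, Nm D (q j) ≤ X ∧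
          d ∪ Finset.univ.biUnion q = c := by
  obtain ⟨τ, hτ⟩ := hbad
  set P := pf D c with hP
  let K : Fin k → ℕ := fun j => (P.filter fun p => D.cmp (τ p) = j).sup fun p => sc z N (D.nm p) + 1
  have hKle : ∀ p ∈ P, sc z N (D.nm p) < K (D.cmp (τ p)) := by
    intro p hp
    exact Finset.le_sup (f := fun p => sc z N (D.nm p) + 1) (Finset.mem_filter.mpr ⟨hp, rfl⟩)
  have hKN : ∀ j, K j ≤ N := by
    intro j
    exact Finset.sup_le fun p _ => sc_lt z hN (D.nm p)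
  have hq : ∀ j, ∃ q : Finset D.P, if K j = 0 then q = ∅ else ∃ Q, q = {Q} ∧ Q ∈ P ∧ D.cmp (τ Q) = j ∧ sc z N (D.nm Q) + 1 = K j := by
    intro j
    by_cases h : K j = 0
    · exact ⟨∅, by rw [if_pos h]⟩
    · have hne : (P.filter fun p => D.cmp (τ p) = j).Nonempty := by
        rw [Finset.nonempty_iff_ne_empty]
        intro he
        exact h (by simp only [K, he, Finset.sup_empty]; rfl)
      obtain ⟨q, hq1, hq2⟩ := Finset.exists_mem_eq_sup _ hne fun p => sc z N (D.nm p) + 1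
      refine ⟨{q}, ?_⟩
      rw [if_neg h]
      exact ⟨q, rfl, (Finset.mem_filter.mp hq1).1, (Finset.mem_filter.mp hq1).2, hq2.symm⟩
  choose q hq using hq
  have hq0 : ∀ j, K j = 0 → q j = ∅ := fun j h => by
    have := hq j
    rwa [if_pos h] at this
  have hq1 : ∀ j, K j ≠ 0 → ∃ Q, q j = {Q} ∧ Q ∈ P ∧ D.cmp (τ Q) = j ∧ sc z N (D.nm Q) + 1 = K j := fun j h => by
    have := hq j
    rwa [if_neg h] at this
  have hqm : ∀ j p, p ∈ q j → K j ≠ 0 ∧ p ∈ P ∧ D.cmp (τ p) = j ∧ sc z N (D.nm p) + 1 = K j ∧ q j = {p} := by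
    intro j p hp
    have h : K j ≠ 0 := by
      intro h
      rw [hq0 j h] at hp
      simp at hp
    obtain ⟨Q, h1, h2, h3, h4⟩ := hq1 j h
    rw [h1, Finset.mem_singleton] at hp
    subst hp
    exact ⟨h, h2, h3, h4, h1⟩
  set T := Finset.univ.biUnion q with hT
  have hTP : T ⊆ P := by
    intro p hp
    obtain ⟨j, _, hj⟩ := Finset.mem_biUnion.mp hp
    exact (hqm j p hj).2.1
  have hTc : T ⊆ c := fun p hp => (mem_pf.mp (hTP hp)).1
  have hprodq : ∏ j, Nm D (q j) = Nm D T := by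
    unfold Nm
    rw [hT, Finset.prod_biUnion]
    intro i _ j _ hij
    rw [Function.onFun, Finset.disjoint_left]
    intro p h1 h2
    exact hij ((hqm i p h1).2.2.1.symm.trans (hqm j p h2).2.2.1)
  set d := c \ T with hd
  have hdc : Nm D d * ∏ j, Nm D (q j) = Nm D c := by
    rw [hprodq, hd]
    unfold Nm
    exact Finset.prod_sdiff hTc
  have hpfd : pf D d = P \ T := by
    ext p
    rw [Finset.mem_sdiff, mem_pf, hd, Finset.mem_sdiff, hP, mem_pf]
    tauto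
  have hdP : ∀ p ∈ pf D d, p ∈ P := by
    intro p hp
    rw [hpfd] at hp
    exact (Finset.mem_sdiff.mp hp).1
  set f : ∀ p ∈ pf D d, D.O := fun p _ => τ p with hf
  have hext : ∀ p ∈ pf D d, ext o₀ _ f p = τ p := by
    intro p hp
    unfold ext
    rw [dif_pos hp]
  -- the conditions
  have htt : ∀ p ∈ pf D d, ∀ j, ∀ Q, q j = {Q} → ∀ i ∈ D.I p (τ p) j, D.χ p i Q (τ Q) = tt D d (ext o₀ _ f) j p i := by
    intro p hp j Q hj i hi
    have hpP := hdP p hp
    have h1 := (hτ p hpP).2 j i hi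
    have hpT : p ∉ T := by
      rw [hpfd] at hp
      exact (Finset.mem_sdiff.mp hp).2
    have hQ : Q ∈ q j := by
      rw [hj]
      exact Finset.mem_singleton_self Q
    have hQj := hqm j Q hQ
    have hqT : Q ∈ T := Finset.mem_biUnion.mpr ⟨j, Finset.mem_univ _, hQ⟩
    have hqp : Q ≠ p := fun h => hpT (h ▸ hqT)
    have e : P.filter (fun q' => q' ≠ p ∧ D.cmp (τ q') = j) =
        insert Q ((pf D d).filter (fun q' => q' ≠ p ∧ D.cmp (ext o₀ _ f q') = j)) := by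
      ext r
      rw [Finset.mem_filter, Finset.mem_insert, Finset.mem_filter]
      constructor
      · rintro ⟨h2, h3, h4⟩
        by_cases hr : r ∈ T
        · left
          obtain ⟨j', _, hj'⟩ := Finset.mem_biUnion.mp hr
          have h5 := hqm j' r hj'
          have h6 : j' = j := h5.2.2.1.symm.trans h4
          rw [h6, hj, Finset.mem_singleton] at hj'
          exact hj'
        · right
          have hr' : r ∈ pf D d := by
            rw [hpfd]
            exact Finset.mem_sdiff.mpr ⟨h2, hr⟩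
          refine ⟨hr', h3, ?_⟩
          rw [hext r hr']
          exact h4
      · rintro (rfl | ⟨h2, h3, h4⟩)
        · exact ⟨hQj.2.1, hqp, hQj.2.2.1⟩
        · rw [hext r h2] at h4
          exact ⟨hdP r h2, h3, h4⟩
    have hnot : Q ∉ (pf D d).filter (fun q' => q' ≠ p ∧ D.cmp (ext o₀ _ f q') = j) := by
      intro h
      have h2 := (Finset.mem_filter.mp h).1
      rw [hpfd] at h2
      exact (Finset.mem_sdiff.mp h2).2 hqT
    rw [e, Finset.prod_insert hnot] at h1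
    unfold tt
    rw [hext p hp, eq_mul_inv_iff_mul_eq, ← h1]
    congr 1
    refine Finset.prod_congr rfl fun r hr => ?_
    rw [hext r (Finset.mem_filter.mp hr).1]
  refine ⟨K, hKN, ?_, d, ?_, f, ?_, q, ?_, ?_, ?_⟩
  · intro κ hκ
    by_contra h
    obtain ⟨p, hp, hps, hpo⟩ := hfull κ hκ _ h
    refine hpo (τ p) (hτ p hp).1 ?_
    refine Finset.mem_filter.mpr ⟨Finset.mem_univ _, ?_⟩
    rw [← hps]
    exact hKle p hp
  · refine Finset.mem_filter.mpr ⟨?_, ?_⟩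
    · rw [Finset.mem_powerset]
      intro p hp
      rw [mem_pr hS]
      exact (nm_le_Nm hS (Finset.mem_sdiff.mp hp).1).trans hcX
    · intro κ h1 h2
      refine (Nat.pow_le_pow_left ?_ _).trans (hsm κ h1 h2)
      refine Nat.le_of_dvd (Finset.prod_pos fun p _ => ?_) ?_
      · have := hS.two p
        omega
      refine Finset.prod_dvd_prod_of_subset _ _ _ (Finset.filter_subset_filter _ ?_)
      exact fun p hp => hdP p hp
  · rw [Finset.mem_pi]
    intro p hp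
    refine Finset.mem_filter.mpr ⟨(hτ p (hdP p hp)).1, Finset.mem_filter.mpr ⟨Finset.mem_univ _, ?_⟩⟩
    exact hKle p (hdP p hp)
  · rw [Fintype.mem_piFinset]
    intro j
    unfold UU
    by_cases h : K j = 0
    · rw [if_pos h, hq0 j h]
      exact Finset.mem_singleton_self _
    · rw [if_neg h]
      obtain ⟨Q, g0, g1, g2, g3⟩ := hq1 j h
      have hqT : Q ∈ T := Finset.mem_biUnion.mpr ⟨j, Finset.mem_univ _, by rw [g0]; exact Finset.mem_singleton_self Q⟩
      rw [g0]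
      refine Finset.mem_image.mpr ⟨Q, Finset.mem_filter.mpr ⟨?_, (mem_pf.mp g1).2, ?_, g3, τ Q, (hτ _ g1).1, g2, ?_⟩, rfl⟩
      · rw [mem_pr hS]
        exact (nm_le_Nm hS (mem_pf.mp g1).1).trans hcX
      · intro h2
        have h3 := (Finset.mem_filter.mp h2).1
        rw [hpfd] at h3
        exact (Finset.mem_sdiff.mp h3).2 hqT
      · intro p hp i hi
        have hp1 := (Finset.mem_filter.mp hp).1
        rw [hext p hp1] at hi
        exact htt p hp1 j Q g0 i hi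
  · rw [hdc]
    exact hcX
  · rw [hd]
    exact Finset.sdiff_union_of_subset hTc

open Classical in
/-- the special primes which together with `d` form an admissible set -/
noncomputable def UQk [CommGroup G] (D : CD k G) (Ok : Finset D.P → Prop) (z : ℕ → ℕ) (N X : ℕ) (K : Fin k → ℕ) (d : Finset D.P)
    (τ : D.P → D.O) (j : Fin k) : Finset D.P :=
  (UQ D z N X K d τ j).filter fun Q => ∃ m' : Finset D.P, Ok m' ∧ Q ∈ m' ∧ mm D z N K d j ⊆ m'

open Classical in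
/-- the special primes, with the empty set if there is none -/
noncomputable def UUk [CommGroup G] (D : CD k G) (Ok : Finset D.P → Prop) (z : ℕ → ℕ) (N X : ℕ) (K : Fin k → ℕ) (d : Finset D.P)
    (τ : D.P → D.O) (j : Fin k) : Finset (Finset D.P) :=
  if K j = 0 then {∅} else (UQk D Ok z N X K d τ j).image fun Q => {Q}

open Classical in
/-- the sets which occur -/
noncomputable def DDk (D : CD k G) (Ok : Finset D.P → Prop) (z : ℕ → ℕ) (N A X : ℕ) : Finset (Finset D.P) :=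
  (DD D z N A X).filter Ok

open Classical in
theorem coverk [CommGroup G] {D : CD k G} (hS : SysW D.P D.nm) {Ok : Finset D.P → Prop} (hOk : ∀ m c, m ⊆ c → Ok c → Ok m)
    {z : ℕ → ℕ} {N A X : ℕ} {c : Finset D.P} (hN : 0 < N)
    {PB : Finset (Fin k) → Prop} (hcX : Nm D c ≤ X) (hc : Ok c) (hbad : Bad D c)
    (hfull : ∀ κ < N, ∀ J, ¬ PB J → ∃ p ∈ pf D c, sc z N (D.nm p) = κ ∧ ∀ o ∈ D.V p, D.cmp o ∉ J)
    (hsm : ∀ κ, 1 ≤ κ → κ + 1 ≤ N - 1 → (∏ p ∈ (pf D c).filter (fun p => D.nm p ≤ z κ), D.nm p) ^ A ≤ z (κ + 1)) (o₀ : D.O) :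
    ∃ K : Fin k → ℕ, (∀ j, K j ≤ N) ∧ (∀ κ < N, PB (Js K κ)) ∧
      ∃ d ∈ DDk D Ok z N A X, ∃ f ∈ Finset.pi (pf D d) (fun p => VV D z N K p),
        ∃ q ∈ Fintype.piFinset (fun j => UUk D Ok z N X K d (ext o₀ _ f) j), Nm D d * ∏ j, Nm D (q j) ≤ X ∧
          d ∪ Finset.univ.biUnion q = c := by
  obtain ⟨K, hK, hKB, d, hd, f, hf, q, hq, hqX, he⟩ := cover hS hN hcX hbad hfull hsm o₀
  have hdc : d ⊆ c := by
    rw [← he]
    exact Finset.subset_union_left
  have hqc : ∀ j, q j ⊆ c := by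
    intro j
    rw [← he]
    exact (Finset.subset_biUnion_of_mem q (Finset.mem_univ j)).trans Finset.subset_union_right
  refine ⟨K, hK, hKB, d, Finset.mem_filter.mpr ⟨hd, hOk d c hdc hc⟩, f, hf, q, ?_, hqX, he⟩
  rw [Fintype.mem_piFinset] at hq ⊢
  intro j
  have hj := hq j
  have hjc := hqc j
  unfold UU at hj
  unfold UUk
  by_cases h0 : K j = 0
  · rw [if_pos h0] at hj ⊢
    exact hj
  · rw [if_neg h0] at hj ⊢
    obtain ⟨Q, hQ, hQq⟩ := Finset.mem_image.mp hj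
    refine Finset.mem_image.mpr ⟨Q, Finset.mem_filter.mpr ⟨hQ, c, hc, ?_, ?_⟩, hQq⟩
    · rw [← hQq] at hjc
      exact hjc (Finset.mem_singleton_self Q)
    · intro p hp
      unfold mm at hp
      exact hdc (mem_pf.mp (Finset.mem_filter.mp hp).1).1

/-- the weight of the conditions for the component `j` -/
noncomputable def wj (D : CD k G) (b : ℝ) (z : ℕ → ℕ) (N : ℕ) (K : Fin k → ℕ) (d : Finset D.P) (τ : D.P → D.O) (j : Fin k) : ℝ :=
  ∏ p ∈ mm D z N K d j, b ^ (D.I p (τ p) j).card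

/-- the weight of a prime -/
noncomputable def Wt (D : CD k G) (b : ℝ) (z : ℕ → ℕ) (N : ℕ) (K : Fin k → ℕ) (p : D.P) : ℝ :=
  ∑ o ∈ VV D z N K p, b ^ (∑ j ∈ Js K (sc z N (D.nm p) + 2), (D.I p o j).card)

theorem wj_pos (hb : 0 < b) (D : CD k G) (z : ℕ → ℕ) (N : ℕ) (K : Fin k → ℕ) (d : Finset D.P) (τ : D.P → D.O) (j : Fin k) :
    0 < wj D b z N K d τ j := Finset.prod_pos fun p _ => by positivity

theorem wj_prod (D : CD k G) (z : ℕ → ℕ) (N : ℕ) (K : Fin k → ℕ) (d : Finset D.P) (τ : D.P → D.O) :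
    ∏ j, wj D b z N K d τ j = ∏ p ∈ pf D d, b ^ (∑ j ∈ Js K (sc z N (D.nm p) + 2), (D.I p (τ p) j).card) := by
  unfold wj mm
  have h1 : ∀ j, ∏ p ∈ (pf D d).filter (fun p => sc z N (D.nm p) + 3 ≤ K j), b ^ (D.I p (τ p) j).card =
      ∏ p ∈ pf D d, if sc z N (D.nm p) + 3 ≤ K j then b ^ (D.I p (τ p) j).card else 1 := fun j => Finset.prod_filter _ _
  simp only [h1]
  rw [Finset.prod_comm]
  refine Finset.prod_congr rfl fun p _ => ?_
  rw [← Finset.prod_pow_eq_pow_sum, Js, Finset.prod_filter]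
  refine Finset.prod_congr rfl fun j _ => ?_
  by_cases h : sc z N (D.nm p) + 3 ≤ K j
  · rw [if_pos h, if_pos (by omega)]
  · rw [if_neg h, if_neg (by omega)]

open Classical in
theorem sum_pi (D : CD k G) (z : ℕ → ℕ) (N : ℕ) (K : Fin k → ℕ) (d : Finset D.P) (o₀ : D.O) :
    ∑ f ∈ Finset.pi (pf D d) (fun p => VV D z N K p), ∏ j, wj D b z N K d (ext o₀ _ f) j = ∏ p ∈ pf D d, Wt D b z N K p := by
  unfold Wt
  rw [Finset.prod_sum]
  refine Finset.sum_congr rfl fun f _ => ?_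
  rw [wj_prod, ← Finset.prod_attach]
  refine Finset.prod_congr rfl fun x _ => ?_
  unfold ext
  rw [dif_pos x.2]

open Classical in
/-- the local factor -/
noncomputable def ap (D : CD k G) (b : ℝ) (z : ℕ → ℕ) (N : ℕ) (K : Fin k → ℕ) (p : D.P) : ℝ :=
  (if p ∈ D.Ex then 1 else Wt D b z N K p) / D.nm p

theorem Wt_nonneg (hb : 0 < b) (D : CD k G) (z : ℕ → ℕ) (N : ℕ) (K : Fin k → ℕ) (p : D.P) : 0 ≤ Wt D b z N K p :=
  Finset.sum_nonneg fun o _ => by positivity

theorem ap_nonneg (hb : 0 < b) (D : CD k G) (z : ℕ → ℕ) (N : ℕ) (K : Fin k → ℕ) (p : D.P) : 0 ≤ ap D b z N K p := by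
  unfold ap
  have := Wt_nonneg hb D z N K p
  split_ifs <;> positivity

open Classical in
theorem euler (hb : 0 < b) (D : CD k G) (Ok : Finset D.P → Prop) (z : ℕ → ℕ) (N A X : ℕ) (K : Fin k → ℕ) :
    ∑ d ∈ DDk D Ok z N A X, (1 : ℝ) / Nm D d * ∏ p ∈ pf D d, Wt D b z N K p ≤ Real.exp (∑ p ∈ pr D X, ap D b z N K p) := by
  have h1 : ∀ d : Finset D.P, (1 : ℝ) / Nm D d * ∏ p ∈ pf D d, Wt D b z N K p = ∏ p ∈ d, ap D b z N K p := by
    intro d
    unfold Nm pf ap
    rw [Finset.prod_filter, Nat.cast_prod, Finset.prod_div_distrib, one_div_mul_eq_div]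
    congr 1
    refine Finset.prod_congr rfl fun p _ => ?_
    by_cases h : p ∈ D.Ex
    · simp [h]
    · simp [h]
  simp only [h1]
  calc ∑ d ∈ DDk D Ok z N A X, ∏ p ∈ d, ap D b z N K p ≤ ∑ d ∈ (pr D X).powerset, ∏ p ∈ d, ap D b z N K p :=
        Finset.sum_le_sum_of_subset_of_nonneg ((Finset.filter_subset _ _).trans (Finset.filter_subset _ _)) fun s _ _ => Finset.prod_nonneg fun p _ => ap_nonneg hb D z N K p
    _ = ∏ p ∈ pr D X, (1 + ap D b z N K p) := by rw [Finset.prod_one_add]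
    _ ≤ ∏ p ∈ pr D X, Real.exp (ap D b z N K p) := by
        refine Finset.prod_le_prod (fun p _ => add_nonneg zero_le_one (ap_nonneg hb D z N K p)) fun p _ => ?_
        rw [add_comm]
        exact Real.add_one_le_exp _
    _ = _ := by rw [Real.exp_sum]

/-- the inequality of `BT` with given constants -/
def BTc (D : CD k G) (b : ℝ) (Ok : Finset D.P → Prop) (ε C : ℝ) (A : ℕ) : Prop :=
  ∀ (j : Fin k) (m : Finset D.P), (∀ p ∈ m, p ∉ D.Ex) → Ok m →
    ∀ τ : D.P → D.O, (∀ p ∈ m, τ p ∈ D.V p) → ∀ t : D.P → D.ι → G, ∀ h : ℕ, 2 ≤ h → Nm D m ^ A ≤ h →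
    ∀ S : Finset D.P, (∀ Q ∈ S, Q ∉ D.Ex ∧ Q ∉ m ∧ (∃ m' : Finset D.P, Ok m' ∧ Q ∈ m' ∧ m ⊆ m') ∧ D.nm Q ≤ h ∧
      ∃ o ∈ D.V Q, D.cmp o = j ∧ ∀ p ∈ m, ∀ i ∈ D.I p (τ p) j, D.χ p i Q o = t p i) →
    (S.card : ℝ) ≤ C * (∏ p ∈ m, b ^ (D.I p (τ p) j).card) * (h / Real.log h ^ (1 - ε))

section one

variable [CommGroup G] {D : CD k G} {Ok : Finset D.P → Prop} {ε C : ℝ} {A : ℕ} {z : ℕ → ℕ} {N X : ℕ} {K : Fin k → ℕ} {d : Finset D.P} {τ : D.P → D.O}

open Classical in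
theorem UQ_lo {j : Fin k} {Q : D.P} (hQ : Q ∈ UQk D Ok z N X K d τ j) (hj : 2 ≤ K j) : z (K j - 1) < D.nm Q := by
  have hQ' := (Finset.mem_filter.mp hQ).1
  unfold UQ at hQ'
  obtain ⟨_, _, _, h, _⟩ := Finset.mem_filter.mp hQ'
  have h1 : sc z N (D.nm Q) = K j - 1 := by omega
  rw [← h1]
  exact sc_pos (by omega)

open Classical in
omit [CommGroup G] in
theorem Nm_mm_le (hS : SysW D.P D.nm) (hd : d ∈ DDk D Ok z N A X) {j : Fin k} (hK : K j ≤ N) (hj : 3 ≤ K j) :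
    Nm D (mm D z N K d j) ^ A ≤ z (K j - 1) := by
  have hd' := (Finset.mem_filter.mp hd).1
  unfold DD at hd'
  have h := (Finset.mem_filter.mp hd').2 (K j - 2) (by omega) (by omega)
  have e : K j - 2 + 1 = K j - 1 := by omega
  rw [e] at h
  refine (Nat.pow_le_pow_left ?_ _).trans h
  unfold Nm
  refine Nat.le_of_dvd (Finset.prod_pos fun p _ => ?_) (Finset.prod_dvd_prod_of_subset _ _ _ ?_)
  · have := hS.two p
    omega
  · intro p hp
    unfold mm at hp
    obtain ⟨h1, h2⟩ := Finset.mem_filter.mp hp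
    refine Finset.mem_filter.mpr ⟨h1, ?_⟩
    exact sc_le (z := z) (N := N) (k := K j - 2) (by omega) (by omega)

omit [CommGroup G] in
theorem mm_empty {j : Fin k} (hj : K j ≤ 2) : mm D z N K d j = ∅ := by
  unfold mm
  rw [Finset.filter_eq_empty_iff]
  intro p _
  omega

theorem cardUQ (hb : 0 < b) (hS : SysW D.P D.nm) (hC : 0 < C) (hOk : ∀ m c, m ⊆ c → Ok c → Ok m) (hBT : BTc D b Ok ε C A) (hd : d ∈ DDk D Ok z N A X)
    (hτ : ∀ p ∈ pf D d, τ p ∈ D.V p) {j : Fin k} (hK : K j ≤ N) (h : ℕ) :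
    (((UQk D Ok z N X K d τ j).filter (fun Q => D.nm Q ≤ h)).card : ℝ) ≤ C * wj D b z N K d τ j * (h / Real.log h ^ (1 - ε)) := by
  classical
  have hw := wj_pos hb D z N K d τ j
  have hlog : 0 ≤ Real.log h := Real.log_natCast_nonneg h
  rcases Finset.eq_empty_or_nonempty ((UQk D Ok z N X K d τ j).filter (fun Q => D.nm Q ≤ h)) with he | ⟨Q, hQ⟩
  · rw [he]
    simp only [Finset.card_empty, Nat.cast_zero]
    positivity
  obtain ⟨hQ1, hQ2⟩ := Finset.mem_filter.mp hQ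
  have h2 : 2 ≤ h := (hS.two Q).trans hQ2
  refine hBT j (mm D z N K d j) ?_ ?_ τ ?_ (fun p i => tt D d τ j p i) h h2 ?_ _ ?_
  · intro p hp
    unfold mm at hp
    exact (mem_pf.mp (Finset.mem_filter.mp hp).1).2
  · refine hOk _ d ?_ (Finset.mem_filter.mp hd).2
    intro p hp
    unfold mm at hp
    exact (mem_pf.mp (Finset.mem_filter.mp hp).1).1
  · intro p hp
    unfold mm at hp
    exact hτ p (Finset.mem_filter.mp hp).1
  · rcases Nat.lt_or_ge (K j) 3 with h3 | h3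
    · rw [mm_empty (by omega)]
      simp only [Nm, Finset.prod_empty, one_pow]
      omega
    · refine (Nm_mm_le hS hd hK h3).trans ?_
      exact (UQ_lo hQ1 (by omega)).le.trans hQ2
  · intro Q' hQ'
    obtain ⟨g1, g2⟩ := Finset.mem_filter.mp hQ'
    obtain ⟨g0, g6⟩ := Finset.mem_filter.mp g1
    unfold UQ at g0
    obtain ⟨_, g3, g4, _, g5⟩ := Finset.mem_filter.mp g0
    exact ⟨g3, g4, g6, g2, g5⟩

open Classical in
/-- the number of tuples of special primes -/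
theorem one (hb : 0 < b) (hS : SysW D.P D.nm) (hC : 0 < C) (hε : 0 < ε) (hε1 : ε ≤ 1) (hOk : ∀ m c, m ⊆ c → Ok c → Ok m) (hBT : BTc D b Ok ε C A) (hd : d ∈ DDk D Ok z N A X)
    (hτ : ∀ p ∈ pf D d, τ p ∈ D.V p) (hK : ∀ j, K j ≤ N) {j₀ : Fin k} (hj₀ : K j₀ = N) (hN : 2 ≤ N) (hz : 2 ≤ z (N - 1))
    (hX : 3 ≤ X) :
    (((Fintype.piFinset (fun j => UUk D Ok z N X K d τ j)).filter (fun q => Nm D d * ∏ j, Nm D (q j) ≤ X)).card : ℝ) ≤
      C * ((1 + 16 / ε * C) * Real.log X ^ ε) ^ k / Real.log (z (N - 1)) ^ (1 - ε) * X * (1 / Nm D d * ∏ j, wj D b z N K d τ j) := by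
  set E : ℝ := (1 + 16 / ε * C) * Real.log X ^ ε with hE
  have hlX : 1 ≤ Real.log X := by
    have e : Real.exp 1 ≤ X := by
      have := Real.exp_one_lt_d9
      have h3' : (3 : ℝ) ≤ X := by exact_mod_cast hX
      linarith
    calc (1 : ℝ) = Real.log (Real.exp 1) := (Real.log_exp 1).symm
      _ ≤ Real.log X := Real.log_le_log (Real.exp_pos 1) e
  have hlε : 1 ≤ Real.log X ^ ε := Real.one_le_rpow hlX hε.le
  have hC' : 0 < 16 / ε * C := by positivity
  have hE1 : 1 ≤ E := by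
    rw [hE]
    nlinarith
  have hlz : 0 < Real.log (z (N - 1)) := Real.log_pos (by exact_mod_cast (by omega : 1 < z (N - 1)))
  have hlzp : 0 < Real.log (z (N - 1)) ^ (1 - ε) := by positivity
  have hw := fun j => wj_pos hb D z N K d τ j
  have hNm : ∀ Q : D.P, Nm D {Q} = D.nm Q := fun Q => by simp [Nm]
  have hj0 : K j₀ ≠ 0 := by omega
  -- the top prime
  have htop : ∀ h : ℕ, (((UUk D Ok z N X K d τ j₀).filter (fun x => Nm D x ≤ h)).card : ℝ) ≤
      C * wj D b z N K d τ j₀ / Real.log (z (N - 1)) ^ (1 - ε) * h := by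
    intro h
    have h1 : ((UUk D Ok z N X K d τ j₀).filter (fun x => Nm D x ≤ h)).card ≤ ((UQk D Ok z N X K d τ j₀).filter (fun Q => D.nm Q ≤ h)).card := by
      unfold UUk
      rw [if_neg hj0, Finset.filter_image]
      simp only [hNm]
      exact Finset.card_image_le
    have h2 := cardUQ hb hS hC hOk hBT hd hτ (hK j₀) h
    have h3 : (((UUk D Ok z N X K d τ j₀).filter (fun x => Nm D x ≤ h)).card : ℝ) ≤ (((UQk D Ok z N X K d τ j₀).filter (fun Q => D.nm Q ≤ h)).card : ℝ) := by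
      exact_mod_cast h1
    rcases Finset.eq_empty_or_nonempty ((UQk D Ok z N X K d τ j₀).filter (fun Q => D.nm Q ≤ h)) with he | ⟨Q, hQ⟩
    · rw [he] at h3
      simp only [Finset.card_empty, Nat.cast_zero] at h3
      have := hw j₀
      exact h3.trans (by positivity)
    · obtain ⟨g1, g2⟩ := Finset.mem_filter.mp hQ
      have g3 := UQ_lo g1 (by omega)
      rw [hj₀] at g3
      have g4 : Real.log (z (N - 1)) ^ (1 - ε) ≤ Real.log h ^ (1 - ε) := by
        refine Real.rpow_le_rpow hlz.le ?_ (by linarith)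
        exact Real.log_le_log (by exact_mod_cast (by omega : 0 < z (N - 1))) (by exact_mod_cast (by omega : z (N - 1) ≤ h))
      refine (h3.trans h2).trans ?_
      have g5 : (h : ℝ) / Real.log h ^ (1 - ε) ≤ h / Real.log (z (N - 1)) ^ (1 - ε) :=
        div_le_div_of_nonneg_left (Nat.cast_nonneg h) hlzp g4
      calc C * wj D b z N K d τ j₀ * (h / Real.log h ^ (1 - ε)) ≤ C * wj D b z N K d τ j₀ * (h / Real.log (z (N - 1)) ^ (1 - ε)) :=
            mul_le_mul_of_nonneg_left g5 (by have := hw j₀; positivity)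
        _ = _ := by ring
  -- the other primes
  have hoth : ∀ j, ∑ x ∈ UUk D Ok z N X K d τ j, (1 : ℝ) / Nm D x ≤ E * wj D b z N K d τ j := by
    intro j
    by_cases h0 : K j = 0
    · unfold UUk
      rw [if_pos h0, Finset.sum_singleton]
      have e1 : wj D b z N K d τ j = 1 := by
        unfold wj
        rw [mm_empty (by omega)]
        rfl
      have e2 : Nm D ∅ = 1 := rfl
      rw [e1, e2]
      simpa using hE1
    · unfold UUk
      rw [if_neg h0, Finset.sum_image (fun a _ b _ h => Finset.singleton_injective h)]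
      simp only [hNm]
      have h1 := recip (UQk D Ok z N X K d τ j) D.nm (a := C * wj D b z N K d τ j) (ε := ε) (by have := hw j; positivity) hε hε1 hX (by
        intro Q hQ
        have hQ' := (Finset.mem_filter.mp hQ).1
        unfold UQ at hQ'
        exact ⟨hS.two Q, (mem_pr hS).mp (Finset.mem_filter.mp hQ').1⟩) (fun h _ => cardUQ hb hS hC hOk hBT hd hτ (hK j) h)
      refine h1.trans ?_
      rw [hE]
      have h2 : 0 ≤ Real.log X ^ ε * wj D b z N K d τ j := by have := hw j; positivity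
      calc 16 / ε * (C * wj D b z N K d τ j) * Real.log X ^ ε = 16 / ε * C * (Real.log X ^ ε * wj D b z N K d τ j) := by ring
        _ ≤ (1 + 16 / ε * C) * (Real.log X ^ ε * wj D b z N K d τ j) := mul_le_mul_of_nonneg_right (by linarith) h2
        _ = _ := by ring
  have hUpos : ∀ j, ∀ x ∈ UUk D Ok z N X K d τ j, 0 < Nm D x := fun j x _ => Nm_pos hS x
  have h1 := tuple (fun x : Finset D.P => Nm D x) (fun j => UUk D Ok z N X K d τ j) hUpos j₀
    (B := C * wj D b z N K d τ j₀ / Real.log (z (N - 1)) ^ (1 - ε)) (by have := hw j₀; positivity) htop (d := Nm D d) (X := X) (Nm_pos hS d)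
  refine h1.trans ?_
  have hX0 : (0 : ℝ) < X := by exact_mod_cast (by omega : 0 < X)
  have hd0 : (0 : ℝ) < Nm D d := by exact_mod_cast Nm_pos hS d
  have h2 : ∏ j ∈ Finset.univ.erase j₀, ∑ x ∈ UUk D Ok z N X K d τ j, (1 : ℝ) / Nm D x ≤ ∏ j ∈ Finset.univ.erase j₀, (E * wj D b z N K d τ j) :=
    Finset.prod_le_prod (fun j _ => Finset.sum_nonneg fun x _ => by positivity) fun j _ => hoth j
  have h3 : 0 ≤ ∏ j ∈ Finset.univ.erase j₀, (E * wj D b z N K d τ j) :=
    Finset.prod_nonneg fun j _ => by have := hw j; positivity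
  have hw0 := hw j₀
  calc C * wj D b z N K d τ j₀ / Real.log (z (N - 1)) ^ (1 - ε) * (X / Nm D d) * ∏ j ∈ Finset.univ.erase j₀, ∑ x ∈ UUk D Ok z N X K d τ j, (1 : ℝ) / Nm D x
      ≤ C * wj D b z N K d τ j₀ / Real.log (z (N - 1)) ^ (1 - ε) * (X / Nm D d) * ∏ j ∈ Finset.univ.erase j₀, (E * wj D b z N K d τ j) :=
        mul_le_mul_of_nonneg_left h2 (by positivity)
    _ = C / Real.log (z (N - 1)) ^ (1 - ε) * (X / Nm D d) * ((wj D b z N K d τ j₀) * ∏ j ∈ Finset.univ.erase j₀, (E * wj D b z N K d τ j)) := by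
        ring
    _ ≤ C / Real.log (z (N - 1)) ^ (1 - ε) * (X / Nm D d) * ((E * wj D b z N K d τ j₀) * ∏ j ∈ Finset.univ.erase j₀, (E * wj D b z N K d τ j)) := by
        refine mul_le_mul_of_nonneg_left (mul_le_mul_of_nonneg_right ?_ h3) (by positivity)
        nlinarith
    _ = C / Real.log (z (N - 1)) ^ (1 - ε) * (X / Nm D d) * ∏ j, (E * wj D b z N K d τ j) := by
        rw [Finset.mul_prod_erase Finset.univ (fun j => E * wj D b z N K d τ j) (Finset.mem_univ j₀)]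
    _ = _ := by
        rw [Finset.prod_mul_distrib, Finset.prod_const, Finset.card_univ, Fintype.card_fin]
        ring

end one

open Classical in
/-- the main count -/
theorem main_count [CommGroup G] (hb : 0 < b) {D : CD k G} (hS : SysW D.P D.nm) {Ok : Finset D.P → Prop} (hOk : ∀ m c, m ⊆ c → Ok c → Ok m) {ε C : ℝ} {A : ℕ} (hC : 0 < C) (hε : 0 < ε) (hε1 : ε ≤ 1)
    (hBT : BTc D b Ok ε C A) {z : ℕ → ℕ} {N X : ℕ} (hN : 2 ≤ N) (hz : 2 ≤ z (N - 1)) (hX : 3 ≤ X) {PB : Finset (Fin k) → Prop}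
    (hPB : ∀ J, PB J → J.Nonempty) (o₀ : D.O) (S : Finset (Finset D.P)) (hSc : ∀ c ∈ S, Nm D c ≤ X ∧ Ok c ∧ Bad D c ∧
      (∀ κ < N, ∀ J, ¬ PB J → ∃ p ∈ pf D c, sc z N (D.nm p) = κ ∧ ∀ o ∈ D.V p, D.cmp o ∉ J) ∧
      (∀ κ, 1 ≤ κ → κ + 1 ≤ N - 1 → (∏ p ∈ (pf D c).filter (fun p => D.nm p ≤ z κ), D.nm p) ^ A ≤ z (κ + 1)))
    {B : ℝ} (hB : ∀ K : Fin k → ℕ, (∀ j, K j ≤ N) → (∀ κ < N, PB (Js K κ)) → ∑ p ∈ pr D X, ap D b z N K p ≤ B) :
    (S.card : ℝ) ≤ (N + 1) ^ k * (C * ((1 + 16 / ε * C) * Real.log X ^ ε) ^ k / Real.log (z (N - 1)) ^ (1 - ε) * X * Real.exp B) := by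
  set Ks := (Fintype.piFinset fun _ : Fin k => Finset.range (N + 1)).filter fun K => ∀ κ < N, PB (Js K κ) with hKs
  have hKle : ∀ K ∈ Ks, ∀ j, K j ≤ N := by
    intro K hK j
    have := Finset.mem_range.mp (Fintype.mem_piFinset.mp (Finset.mem_filter.mp hK).1 j)
    omega
  have hsub : S ⊆ Ks.biUnion fun K => (DDk D Ok z N A X).biUnion fun d => (Finset.pi (pf D d) (fun p => VV D z N K p)).biUnion fun f =>
      ((Fintype.piFinset (fun j => UUk D Ok z N X K d (ext o₀ _ f) j)).filter (fun q => Nm D d * ∏ j, Nm D (q j) ≤ X)).image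
        fun q => d ∪ Finset.univ.biUnion q := by
    intro c hc
    obtain ⟨h1, h0, h2, h3, h4⟩ := hSc c hc
    obtain ⟨K, hK, hKB, d, hd, f, hf, q, hq, hqX, he⟩ := coverk hS hOk (by omega) h1 h0 h2 h3 h4 o₀
    simp only [Finset.mem_biUnion, Finset.mem_image]
    refine ⟨K, Finset.mem_filter.mpr ⟨Fintype.mem_piFinset.mpr fun j => Finset.mem_range.mpr (Nat.lt_succ_of_le (hK j)), hKB⟩,
      d, hd, f, hf, q, Finset.mem_filter.mpr ⟨hq, hqX⟩, he⟩
  have hcard : (S.card : ℝ) ≤ ∑ K ∈ Ks, ∑ d ∈ DDk D Ok z N A X, ∑ f ∈ Finset.pi (pf D d) (fun p => VV D z N K p),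
      (((Fintype.piFinset (fun j => UUk D Ok z N X K d (ext o₀ _ f) j)).filter (fun q => Nm D d * ∏ j, Nm D (q j) ≤ X)).card : ℝ) := by
    have h1 : S.card ≤ ∑ K ∈ Ks, ∑ d ∈ DDk D Ok z N A X, ∑ f ∈ Finset.pi (pf D d) (fun p => VV D z N K p),
        ((Fintype.piFinset (fun j => UUk D Ok z N X K d (ext o₀ _ f) j)).filter (fun q => Nm D d * ∏ j, Nm D (q j) ≤ X)).card := by
      refine (Finset.card_le_card hsub).trans (Finset.card_biUnion_le.trans ?_)
      refine Finset.sum_le_sum fun K _ => Finset.card_biUnion_le.trans ?_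
      refine Finset.sum_le_sum fun d _ => Finset.card_biUnion_le.trans ?_
      exact Finset.sum_le_sum fun f _ => Finset.card_image_le
    exact_mod_cast h1
  refine hcard.trans ?_
  set Y : ℝ := C * ((1 + 16 / ε * C) * Real.log X ^ ε) ^ k / Real.log (z (N - 1)) ^ (1 - ε) * X with hY
  have hlX : 0 ≤ Real.log X := Real.log_natCast_nonneg X
  have hlz : 0 ≤ Real.log (z (N - 1)) := Real.log_natCast_nonneg _
  have hY0 : 0 ≤ Y := by
    rw [hY]
    positivity
  have hK1 : ∀ K ∈ Ks, ∑ d ∈ DDk D Ok z N A X, ∑ f ∈ Finset.pi (pf D d) (fun p => VV D z N K p),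
      (((Fintype.piFinset (fun j => UUk D Ok z N X K d (ext o₀ _ f) j)).filter (fun q => Nm D d * ∏ j, Nm D (q j) ≤ X)).card : ℝ) ≤
      Y * Real.exp B := by
    intro K hK
    obtain ⟨hK1, hK2⟩ := Finset.mem_filter.mp hK
    obtain ⟨j₀, hj₀⟩ := hPB _ (hK2 (N - 1) (by omega))
    have hj1 : K j₀ = N := by
      have h1 := (Finset.mem_filter.mp hj₀).2
      have h2 := hKle K hK j₀
      omega
    have h1 : ∀ d ∈ DDk D Ok z N A X, ∑ f ∈ Finset.pi (pf D d) (fun p => VV D z N K p),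
        (((Fintype.piFinset (fun j => UUk D Ok z N X K d (ext o₀ _ f) j)).filter (fun q => Nm D d * ∏ j, Nm D (q j) ≤ X)).card : ℝ) ≤
        Y * (1 / Nm D d * ∏ p ∈ pf D d, Wt D b z N K p) := by
      intro d hd
      have h2 : ∀ f ∈ Finset.pi (pf D d) (fun p => VV D z N K p),
          (((Fintype.piFinset (fun j => UUk D Ok z N X K d (ext o₀ _ f) j)).filter (fun q => Nm D d * ∏ j, Nm D (q j) ≤ X)).card : ℝ) ≤
          Y * (1 / Nm D d * ∏ j, wj D b z N K d (ext o₀ _ f) j) := by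
        intro f hf
        refine one hb hS hC hε hε1 hOk hBT hd ?_ (hKle K hK) hj1 hN hz hX
        intro p hp
        unfold ext
        rw [dif_pos hp]
        exact (Finset.mem_filter.mp (Finset.mem_pi.mp hf p hp)).1
      refine (Finset.sum_le_sum h2).trans (le_of_eq ?_)
      rw [← Finset.mul_sum, ← Finset.mul_sum, sum_pi]
    refine (Finset.sum_le_sum h1).trans ?_
    rw [← Finset.mul_sum]
    refine mul_le_mul_of_nonneg_left ((euler hb D Ok z N A X K).trans ?_) hY0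
    exact Real.exp_le_exp.mpr (hB K (hKle K hK) hK2)
  refine (Finset.sum_le_sum hK1).trans ?_
  rw [Finset.sum_const, nsmul_eq_mul]
  have h5 : Ks.card ≤ (N + 1) ^ k := by
    refine (Finset.card_filter_le _ _).trans ?_
    rw [Fintype.card_piFinset]
    simp
  have h6 : (Ks.card : ℝ) ≤ (N + 1) ^ k := by exact_mod_cast h5
  exact mul_le_mul_of_nonneg_right h6 (by positivity)

/-- the dyadic consequence of the bound of Chebyshev -/
theorem log_div {D : CD k G} (hS : SysW D.P D.nm) : ∃ C : ℝ, 0 < C ∧ ∀ z : ℕ, 2 ≤ z →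
    ∑ p ∈ pr D z, Real.log (D.nm p) / D.nm p ≤ C * Real.log z := by
  classical
  obtain ⟨C₁, hC₁⟩ := hS.cheb
  have hC₁0 : 0 ≤ C₁ := by
    have := hC₁ 1 ∅ (by simp)
    simpa using this
  refine ⟨8 * C₁ + 1, by linarith, fun z hz => ?_⟩
  set L := Nat.log 2 z with hL
  have hl0 : ∀ p, 0 ≤ Real.log (D.nm p) := fun p => Real.log_nonneg (by
    have := hS.two p
    exact_mod_cast (by omega : 1 ≤ D.nm p))
  have hmaps : ∀ p ∈ pr D z, Nat.log 2 (D.nm p) ∈ Finset.range (L + 1) := by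
    intro p hp
    rw [Finset.mem_range, Nat.lt_succ_iff]
    exact Nat.log_mono_right ((mem_pr hS).mp hp)
  rw [← Finset.sum_fiberwise_of_maps_to hmaps]
  have h1 : ∀ i ∈ Finset.range (L + 1), ∑ p ∈ (pr D z).filter (fun p => Nat.log 2 (D.nm p) = i), Real.log (D.nm p) / D.nm p ≤ 2 * C₁ := by
    intro i _
    have h2 : ∑ p ∈ (pr D z).filter (fun p => Nat.log 2 (D.nm p) = i), Real.log (D.nm p) / D.nm p ≤
        ∑ p ∈ (pr D z).filter (fun p => Nat.log 2 (D.nm p) = i), Real.log (D.nm p) / 2 ^ i := by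
      refine Finset.sum_le_sum fun p hp => ?_
      have g := (Finset.mem_filter.mp hp).2
      have g1 : 2 ^ i ≤ D.nm p := by
        rw [← g]
        exact Nat.pow_log_le_self 2 (by have := hS.two p; omega)
      have g2 : (2 : ℝ) ^ i ≤ D.nm p := by exact_mod_cast g1
      exact div_le_div_of_nonneg_left (hl0 p) (by positivity) g2
    refine h2.trans ?_
    rw [← Finset.sum_div, div_le_iff₀ (by positivity)]
    have h3 := hC₁ (2 ^ (i + 1)) ((pr D z).filter (fun p => Nat.log 2 (D.nm p) = i)) (by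
      intro p hp
      have g := (Finset.mem_filter.mp hp).2
      rw [← g]
      exact (Nat.lt_pow_succ_log_self (by norm_num) _).le)
    refine h3.trans (le_of_eq ?_)
    push_cast
    ring
  refine (Finset.sum_le_sum h1).trans ?_
  rw [Finset.sum_const, Finset.card_range, nsmul_eq_mul]
  have hz' : (0 : ℝ) < z := by exact_mod_cast (by omega : 0 < z)
  have h2 : (L : ℝ) * Real.log 2 ≤ Real.log z := by
    have h3 : (2 : ℝ) ^ L ≤ z := by exact_mod_cast Nat.pow_log_le_self 2 (by omega : z ≠ 0)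
    have h4 := Real.log_le_log (by positivity) h3
    rwa [Real.log_pow] at h4
  have h3 : Real.log 2 ≤ Real.log z := Real.log_le_log (by norm_num) (by exact_mod_cast hz)
  have h4 := Real.log_two_gt_d9
  have h5 : ((L + 1 : ℕ) : ℝ) ≤ 4 * Real.log z := by
    push_cast
    have : (L : ℝ) ≥ 0 := Nat.cast_nonneg L
    nlinarith
  calc ((L + 1 : ℕ) : ℝ) * (2 * C₁) ≤ 4 * Real.log z * (2 * C₁) := mul_le_mul_of_nonneg_right h5 (by linarith)
    _ ≤ (8 * C₁ + 1) * Real.log z := by nlinarith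

theorem Wt_le (hb : 0 < b) (hb1 : b ≤ 1) {D : CD k G} {K₀ : ℕ} (hV : ∀ p, (D.V p).card ≤ K₀) (z : ℕ → ℕ) (N : ℕ) (K : Fin k → ℕ) (p : D.P) : Wt D b z N K p ≤ K₀ := by
  unfold Wt
  calc ∑ o ∈ VV D z N K p, b ^ (∑ j ∈ Js K (sc z N (D.nm p) + 2), (D.I p o j).card) ≤ ∑ o ∈ VV D z N K p, (1 : ℝ) :=
        Finset.sum_le_sum fun o _ => pow_le_one₀ hb.le hb1
    _ = (VV D z N K p).card := by simp
    _ ≤ K₀ := by exact_mod_cast (Finset.card_filter_le _ _).trans (hV p)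

/-- the bound for the sum of the local factors -/
theorem ap_sum (hb : 0 < b) (hb1 : b ≤ 1) {D : CD k G} (hS : SysW D.P D.nm) {K₀ : ℕ} (hV : ∀ p, (D.V p).card ≤ K₀) {PB : Finset (Fin k) → Prop} {lam κM CB CM : ℝ}
    (hl0 : 0 ≤ lam) (hκM : 0 ≤ κM) (hCB : 0 ≤ CB) (hCM : 0 ≤ CM)
    (hTB : ∀ J, PB J → ∀ y x : ℕ, 2 ≤ y → y ≤ x → ∀ S : Finset D.P, (∀ p, p ∈ S ↔ p ∉ D.Ex ∧ y < D.nm p ∧ D.nm p ≤ x) →
      ∑ p ∈ S, WJb D b J p / D.nm p ≤ lam * (Real.log (Real.log x) - Real.log (Real.log y)) + CB)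
    (hMe : ∀ y x : ℕ, 2 ≤ y → y ≤ x → ∀ S : Finset D.P, (∀ p ∈ S, y < D.nm p ∧ D.nm p ≤ x) →
      ∑ p ∈ S, (1 : ℝ) / D.nm p ≤ κM * (Real.log (Real.log x) - Real.log (Real.log y)) + CM)
    {N X : ℕ} (hN : 0 < N) (hX : 3 ≤ X) (K : Fin k → ℕ) (hK : ∀ κ < N, PB (Js K κ)) :
    ∑ p ∈ pr D X, ap D b (zz N X) N K p ≤ D.Ex.card + K₀ * (pr D 2).card + N * ((lam * Real.log 4 + CB) + K₀ * (κM * Real.log 4 + CM)) +
      (lam + 2 * k * (K₀ * κM) / N) * Real.log (Real.log X) := by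
  classical
  set z := zz N X with hz
  set ℓ := Real.log (Real.log X) with hℓ
  have hℓ0 : 0 ≤ ℓ := Real.log_nonneg (log_ge_one hX)
  have hl4 : 0 ≤ Real.log 4 := Real.log_nonneg (by norm_num)
  have hN' : (0 : ℝ) < N := by exact_mod_cast hN
  let R : ℕ → Finset D.P := fun κ => (pr D X).filter fun p => p ∉ D.Ex ∧ sc z N (D.nm p) = κ ∧ z κ < D.nm p
  have hnm : ∀ p, (1 : ℝ) ≤ D.nm p := fun p => by
    have := hS.two p
    exact_mod_cast (by omega : 1 ≤ D.nm p)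
  have hpt : ∀ p ∈ pr D X, ap D b z N K p ≤ (if p ∈ D.Ex then (1 : ℝ) else 0) + (if D.nm p ≤ 2 then (K₀ : ℝ) else 0) +
      ∑ κ ∈ Finset.range N, if p ∈ R κ then Wt D b z N K p / D.nm p else 0 := by
    intro p hp
    have hW0 := Wt_nonneg hb D z N K p
    have hWl := Wt_le hb hb1 hV z N K p
    have hn := hnm p
    have hs : 0 ≤ ∑ κ ∈ Finset.range N, if p ∈ R κ then Wt D b z N K p / D.nm p else 0 :=
      Finset.sum_nonneg fun κ _ => by split_ifs <;> positivity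
    have hK0 : (0 : ℝ) ≤ if D.nm p ≤ 2 then (K₀ : ℝ) else 0 := by split_ifs <;> positivity
    unfold ap
    by_cases hE : p ∈ D.Ex
    · rw [if_pos hE, if_pos hE]
      have : (1 : ℝ) / D.nm p ≤ 1 := by rw [div_le_one (by linarith)]; exact hn
      linarith
    · rw [if_neg hE, if_neg hE]
      by_cases h2 : D.nm p ≤ 2
      · rw [if_pos h2]
        have : Wt D b z N K p / D.nm p ≤ K₀ := by
          rw [div_le_iff₀ (by linarith)]
          nlinarith
        linarith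
      · rw [if_neg h2]
        have hlt := sc_lt z hN (D.nm p)
        have hR : p ∈ R (sc z N (D.nm p)) := by
          refine Finset.mem_filter.mpr ⟨hp, hE, rfl, ?_⟩
          by_cases h0 : sc z N (D.nm p) = 0
          · rw [h0, hz, zz_zero]
            omega
          · exact sc_pos h0
        have h3 : Wt D b z N K p / D.nm p ≤ ∑ κ ∈ Finset.range N, if p ∈ R κ then Wt D b z N K p / D.nm p else 0 := by
          have h4 := Finset.single_le_sum (f := fun κ => if p ∈ R κ then Wt D b z N K p / (D.nm p : ℝ) else 0)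
            (fun κ _ => by
              show 0 ≤ if p ∈ R κ then Wt D b z N K p / (D.nm p : ℝ) else 0
              split_ifs <;> positivity) (Finset.mem_range.mpr hlt)
          simp only [if_pos hR] at h4
          exact h4
        linarith
  refine (Finset.sum_le_sum hpt).trans ?_
  rw [Finset.sum_add_distrib, Finset.sum_add_distrib, Finset.sum_comm]
  have a1 : ∑ p ∈ pr D X, (if p ∈ D.Ex then (1 : ℝ) else 0) ≤ D.Ex.card := by
    rw [← Finset.sum_filter, Finset.sum_const, nsmul_eq_mul, mul_one]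
    have : (pr D X).filter (fun p => p ∈ D.Ex) ⊆ D.Ex := fun p hp => (Finset.mem_filter.mp hp).2
    exact_mod_cast Finset.card_le_card this
  have a2 : ∑ p ∈ pr D X, (if D.nm p ≤ 2 then (K₀ : ℝ) else 0) ≤ K₀ * (pr D 2).card := by
    rw [← Finset.sum_filter, Finset.sum_const, nsmul_eq_mul, mul_comm]
    have : (pr D X).filter (fun p => D.nm p ≤ 2) ⊆ pr D 2 := fun p hp => (mem_pr hS).mpr (Finset.mem_filter.mp hp).2
    exact mul_le_mul_of_nonneg_left (by exact_mod_cast Finset.card_le_card this) (Nat.cast_nonneg _)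
  have a3 : ∀ κ ∈ Finset.range N, ∑ p ∈ pr D X, (if p ∈ R κ then Wt D b z N K p / D.nm p else 0) ≤
      lam * (ℓ / N) + (if Js K κ ≠ Js K (κ + 2) then K₀ * (κM * (ℓ / N)) else 0) + ((lam * Real.log 4 + CB) + K₀ * (κM * Real.log 4 + CM)) := by
    intro κ hκ
    have hκN := Finset.mem_range.mp hκ
    rw [← Finset.sum_filter]
    have e1 : (pr D X).filter (fun p => p ∈ R κ) = R κ := by
      ext p
      rw [Finset.mem_filter]
      constructor
      · exact fun h => h.2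
      · exact fun h => ⟨(Finset.mem_filter.mp h).1, h⟩
    rw [e1]
    set T := (pr D (z (κ + 1))).filter (fun p => p ∉ D.Ex ∧ z κ < D.nm p) with hT
    have hRT : R κ ⊆ T := by
      intro p hp
      obtain ⟨h1, h2, h3, h4⟩ := Finset.mem_filter.mp hp
      refine Finset.mem_filter.mpr ⟨(mem_pr hS).mpr ?_, h2, h4⟩
      rcases Nat.lt_or_ge (κ + 1) N with h5 | h5
      · exact sc_le (z := z) (N := N) (k := κ + 1) (by omega) (by omega)
      · have h6 : κ + 1 = N := by omega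
        rw [h6, hz, zz_top hN hX]
        exact (mem_pr hS).mp h1
    have hTm : ∀ p, p ∈ T ↔ p ∉ D.Ex ∧ z κ < D.nm p ∧ D.nm p ≤ z (κ + 1) := by
      intro p
      rw [hT, Finset.mem_filter, mem_pr hS]
      tauto
    have hd := ll_diff hN hX hκN
    rw [← hz, ← hℓ] at hd
    have hzκ : 2 ≤ z κ := zz_two hX
    have hzm : z κ ≤ z (κ + 1) := zz_mono hX (Nat.le_succ κ)
    have hd0 : 0 ≤ ℓ / N := by positivity
    have hK0 : (0 : ℝ) ≤ K₀ := Nat.cast_nonneg _
    by_cases hreg : Js K κ ≠ Js K (κ + 2)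
    · rw [if_pos hreg]
      have h1 : ∑ p ∈ R κ, Wt D b z N K p / D.nm p ≤ ∑ p ∈ R κ, K₀ * ((1 : ℝ) / D.nm p) := by
        refine Finset.sum_le_sum fun p _ => ?_
        rw [mul_one_div]
        exact div_le_div_of_nonneg_right (Wt_le hb hb1 hV z N K p) (by linarith [hnm p])
      rw [← Finset.mul_sum] at h1
      have h2 := hMe (z κ) (z (κ + 1)) hzκ hzm (R κ) (fun p hp => ((hTm p).mp (hRT hp)).2)
      have h2' : κM * (Real.log (Real.log (z (κ + 1))) - Real.log (Real.log (z κ))) ≤ κM * (ℓ / N + Real.log 4) :=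
        mul_le_mul_of_nonneg_left hd hκM
      have h3 : K₀ * ∑ p ∈ R κ, (1 : ℝ) / D.nm p ≤ K₀ * (κM * (ℓ / N + Real.log 4) + CM) := mul_le_mul_of_nonneg_left (by linarith) hK0
      have h4 : 0 ≤ lam * (ℓ / N) := mul_nonneg hl0 hd0
      have h5 : 0 ≤ lam * Real.log 4 + CB := by positivity
      calc ∑ p ∈ R κ, Wt D b z N K p / D.nm p ≤ K₀ * (κM * (ℓ / N + Real.log 4) + CM) := h1.trans h3
        _ = K₀ * (κM * (ℓ / N)) + K₀ * (κM * Real.log 4 + CM) := by ring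
        _ ≤ _ := by linarith
    · rw [if_neg hreg]
      push Not at hreg
      have h1 : ∑ p ∈ R κ, Wt D b z N K p / D.nm p = ∑ p ∈ R κ, WJb D b (Js K κ) p / D.nm p := by
        refine Finset.sum_congr rfl fun p hp => ?_
        congr 1
        have h2 := (Finset.mem_filter.mp hp).2.2.1
        unfold Wt WJb VV
        rw [h2, ← hreg]
      have hWJ0 : ∀ p, 0 ≤ WJb D b (Js K κ) p := fun p => Finset.sum_nonneg fun o _ => by positivity
      have h2 : ∑ p ∈ R κ, WJb D b (Js K κ) p / D.nm p ≤ ∑ p ∈ T, WJb D b (Js K κ) p / D.nm p :=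
        Finset.sum_le_sum_of_subset_of_nonneg hRT fun p _ _ => div_nonneg (hWJ0 p) (by linarith [hnm p])
      have h3 := hTB _ (hK κ hκN) (z κ) (z (κ + 1)) hzκ hzm T hTm
      have h4 : lam * (Real.log (Real.log (z (κ + 1))) - Real.log (Real.log (z κ))) ≤ lam * (ℓ / N + Real.log 4) :=
        mul_le_mul_of_nonneg_left hd hl0
      have h6 : 0 ≤ K₀ * (κM * Real.log 4 + CM) := by positivity
      rw [h1]
      linarith
  refine (add_le_add (add_le_add a1 a2) (Finset.sum_le_sum a3)).trans ?_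
  rw [Finset.sum_add_distrib, Finset.sum_add_distrib, Finset.sum_const, Finset.sum_const, Finset.card_range, nsmul_eq_mul, nsmul_eq_mul,
    ← Finset.sum_filter, Finset.sum_const, nsmul_eq_mul]
  have hirr : (((Finset.range N).filter fun κ => Js K κ ≠ Js K (κ + 2)).card : ℝ) ≤ 2 * k := by exact_mod_cast irr_card K N
  have h7 : (((Finset.range N).filter fun κ => Js K κ ≠ Js K (κ + 2)).card : ℝ) * (K₀ * (κM * (ℓ / N))) ≤ 2 * k * (K₀ * (κM * (ℓ / N))) :=
    mul_le_mul_of_nonneg_right hirr (by positivity)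
  have h8 : (N : ℝ) * (lam * (ℓ / N)) = lam * ℓ := by field_simp
  have h9 : (lam + 2 * k * (K₀ * κM) / N) * ℓ = lam * ℓ + 2 * k * (K₀ * (κM * (ℓ / N))) := by ring
  rw [h8, h9]
  linarith

/-- the upper bound of Mertens with density `κ` -/
def MertK (D : CD k G) (κ : ℝ) : Prop :=
  ∃ C : ℝ, ∀ y x : ℕ, 2 ≤ y → y ≤ x → ∀ S : Finset D.P, (∀ p ∈ S, y < D.nm p ∧ D.nm p ≤ x) →
    ∑ p ∈ S, (1 : ℝ) / D.nm p ≤ κ * (Real.log (Real.log x) - Real.log (Real.log y)) + C

/-- the weights are less than `κ` in the mean -/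
def TBK (D : CD k G) (b κ : ℝ) (J : Finset (Fin k)) : Prop :=
  J.Nonempty ∧ ∃ δ C : ℝ, 0 < δ ∧ ∀ y x : ℕ, 2 ≤ y → y ≤ x → ∀ S : Finset D.P,
    (∀ p, p ∈ S ↔ p ∉ D.Ex ∧ y < D.nm p ∧ D.nm p ≤ x) →
    ∑ p ∈ S, WJb D b J p / D.nm p ≤ (κ - δ) * (Real.log (Real.log x) - Real.log (Real.log y)) + C

/-- the elementary inequality for the sets without elements of `T` -/
theorem hallK99 {D : CD k G} {κ : ℝ} (hS : SysW D.P D.nm) (hM : MertK D κ) : ∃ C : ℝ, 0 < C ∧ ∀ X : ℕ, 2 ≤ X →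
    ∀ T : Finset D.P, (∀ p ∈ T, D.nm p ≤ X) →
    ∀ S : Finset (Finset D.P), (∀ c ∈ S, Nm D c ≤ X ∧ Disjoint c T) →
    (S.card : ℝ) ≤ C * X * Real.log X ^ (κ - 1) * Real.exp (-∑ p ∈ T, (1 : ℝ) / D.nm p) := by
  classical
  obtain ⟨C₁, hC₁⟩ := hS.cheb
  obtain ⟨C₂, hC₂⟩ := hM
  have hC₁0 : 0 ≤ C₁ := by
    have := hC₁ 1 ∅ (by simp)
    simpa using this
  -- the sum of the reciprocals
  obtain ⟨C₃, hC₃⟩ : ∃ C₃ : ℝ, ∀ X : ℕ, 2 ≤ X → ∑ p ∈ pr D X, (1 : ℝ) / D.nm p ≤ κ * Real.log (Real.log X) + C₃ := by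
    refine ⟨(pr D 2).card + (-(κ * Real.log (Real.log (2 : ℕ))) + C₂), fun X hX => ?_⟩
    have h1 := hC₂ 2 X le_rfl hX ((pr D X).filter fun p => 2 < D.nm p) (by
      intro p hp
      exact ⟨(Finset.mem_filter.mp hp).2, (mem_pr hS).mp (Finset.mem_filter.mp hp).1⟩)
    have h2 : ∑ p ∈ (pr D X).filter (fun p => ¬ 2 < D.nm p), (1 : ℝ) / D.nm p ≤ (pr D 2).card := by
      have h3 : ∑ p ∈ (pr D X).filter (fun p => ¬ 2 < D.nm p), (1 : ℝ) / D.nm p ≤ ∑ p ∈ (pr D X).filter (fun p => ¬ 2 < D.nm p), (1 : ℝ) := by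
        refine Finset.sum_le_sum fun p _ => ?_
        have : (2 : ℝ) ≤ D.nm p := by exact_mod_cast hS.two p
        rw [div_le_one (by linarith)]
        linarith
      rw [Finset.sum_const, nsmul_eq_mul, mul_one] at h3
      refine h3.trans ?_
      have h4 : (pr D X).filter (fun p => ¬ 2 < D.nm p) ⊆ pr D 2 := by
        intro p hp
        rw [mem_pr hS]
        have := (Finset.mem_filter.mp hp).2
        omega
      exact_mod_cast Finset.card_le_card h4
    rw [← Finset.sum_filter_add_sum_filter_not (pr D X) (fun p => 2 < D.nm p)]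
    linarith
  refine ⟨(C₁ + 1) * Real.exp C₃, by positivity, ?_⟩
  intro X hX T hT S hSX
  have hXp : (0 : ℝ) < X := by exact_mod_cast (by omega : 0 < X)
  have hlX : 0 < Real.log X := Real.log_pos (by exact_mod_cast (by omega : 1 < X))
  -- all admissible sets
  set A := (pr D X).powerset.filter (fun c => Nm D c ≤ X ∧ Disjoint c T) with hA
  have hSA : S ⊆ A := by
    intro c hc
    obtain ⟨h1, h2⟩ := hSX c hc
    refine Finset.mem_filter.mpr ⟨Finset.mem_powerset.mpr fun p hp => ?_, h1, h2⟩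
    rw [mem_pr hS]
    exact (nm_le_Nm hS hp).trans h1
  have hcard : (S.card : ℝ) ≤ A.card := by exact_mod_cast Finset.card_le_card hSA
  refine hcard.trans ?_
  have hpos : ∀ c : Finset D.P, (0 : ℝ) < Nm D c := fun c => by exact_mod_cast Nm_pos hS c
  -- the sum of the logarithms of the norms
  have hlog : ∀ c : Finset D.P, Real.log (Nm D c) = ∑ p ∈ c, Real.log (D.nm p) := by
    intro c
    unfold Nm
    rw [Nat.cast_prod, Real.log_prod]
    intro p _
    have := hS.two p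
    exact_mod_cast (by omega : D.nm p ≠ 0)
  have hl0 : ∀ p, 0 ≤ Real.log (D.nm p) := fun p => Real.log_nonneg (by
    have := hS.two p
    exact_mod_cast (by omega : 1 ≤ D.nm p))
  have h1 : ∑ c ∈ A, Real.log (Nm D c) ≤ ∑ m ∈ A, ∑ p ∈ pr D (X / Nm D m), Real.log (D.nm p) := by
    simp only [hlog]
    rw [Finset.sum_sigma', Finset.sum_sigma']
    have hinj : Set.InjOn (fun x : (_ : Finset D.P) × D.P => (⟨x.1.erase x.2, x.2⟩ : (_ : Finset D.P) × D.P))
        (A.sigma fun c => c : Finset ((_ : Finset D.P) × D.P)) := by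
      rintro ⟨c, p⟩ h ⟨c', p'⟩ h' e
      have e1 : c.erase p = c'.erase p' := congrArg Sigma.fst e
      have e2 : p = p' := by
        have := congrArg Sigma.snd e
        simpa using this
      subst e2
      have g1 := (Finset.mem_sigma.mp (Finset.mem_coe.mp h)).2
      have g2 := (Finset.mem_sigma.mp (Finset.mem_coe.mp h')).2
      simp only at g1 g2
      have : c = c' := by rw [← Finset.insert_erase g1, ← Finset.insert_erase g2, e1]
      rw [this]
    calc ∑ x ∈ A.sigma fun c => c, Real.log (D.nm x.2) =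
        ∑ y ∈ (A.sigma fun c => c).image (fun x : (_ : Finset D.P) × D.P => (⟨x.1.erase x.2, x.2⟩ : (_ : Finset D.P) × D.P)),
          Real.log (D.nm y.2) := by
          rw [Finset.sum_image hinj]
      _ ≤ _ := by
        refine Finset.sum_le_sum_of_subset_of_nonneg ?_ fun y _ _ => hl0 _
        intro y hy
        obtain ⟨⟨c, p⟩, hx, rfl⟩ := Finset.mem_image.mp hy
        obtain ⟨g1, g2⟩ := Finset.mem_sigma.mp hx
        simp only at g1 g2
        obtain ⟨g3, g4, g5⟩ := Finset.mem_filter.mp g1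
        have e : D.nm p * Nm D (c.erase p) = Nm D c := Finset.mul_prod_erase c D.nm g2
        refine Finset.mem_sigma.mpr ⟨Finset.mem_filter.mpr ⟨?_, ?_, ?_⟩, ?_⟩
        · exact Finset.mem_powerset.mpr ((Finset.erase_subset _ _).trans (Finset.mem_powerset.mp g3))
        · refine le_trans (Nat.le_of_dvd (Nm_pos hS c) ⟨D.nm p, ?_⟩) g4
          simp only
          rw [← e]
          ring
        · exact Finset.disjoint_of_subset_left (Finset.erase_subset _ _) g5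
        · simp only
          rw [mem_pr hS, Nat.le_div_iff_mul_le (Nm_pos hS _), e]
          exact g4
  have h2 : ∑ c ∈ A, Real.log (Nm D c) ≤ C₁ * X * ∑ m ∈ A, (1 : ℝ) / Nm D m := by
    refine h1.trans ?_
    rw [Finset.mul_sum]
    refine Finset.sum_le_sum fun m _ => ?_
    refine (hC₁ (X / Nm D m) (pr D (X / Nm D m)) fun p hp => (mem_pr hS).mp hp).trans ?_
    have g : ((X / Nm D m : ℕ) : ℝ) ≤ X / Nm D m := Nat.cast_div_le
    calc C₁ * ((X / Nm D m : ℕ) : ℝ) ≤ C₁ * (X / Nm D m) := mul_le_mul_of_nonneg_left g hC₁0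
      _ = _ := by ring
  have h3 : ∑ c ∈ A, (Real.log X - Real.log (Nm D c)) ≤ X * ∑ m ∈ A, (1 : ℝ) / Nm D m := by
    rw [Finset.mul_sum]
    refine Finset.sum_le_sum fun c _ => ?_
    rw [← Real.log_div hXp.ne' (hpos c).ne', mul_one_div]
    have := Real.log_le_sub_one_of_pos (div_pos hXp (hpos c))
    linarith
  have h4 : (A.card : ℝ) * Real.log X ≤ (C₁ + 1) * X * ∑ m ∈ A, (1 : ℝ) / Nm D m := by
    rw [Finset.sum_sub_distrib, Finset.sum_const, nsmul_eq_mul] at h3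
    linarith
  -- the Euler product
  have h5 : ∑ m ∈ A, (1 : ℝ) / Nm D m ≤ Real.exp (∑ p ∈ pr D X \ T, (1 : ℝ) / D.nm p) := by
    have e1 : ∀ m : Finset D.P, (1 : ℝ) / Nm D m = ∏ p ∈ m, (1 : ℝ) / D.nm p := by
      intro m
      unfold Nm
      rw [Finset.prod_div_distrib, Finset.prod_const_one, Nat.cast_prod]
    simp only [e1]
    calc ∑ m ∈ A, ∏ p ∈ m, (1 : ℝ) / D.nm p ≤ ∑ m ∈ (pr D X \ T).powerset, ∏ p ∈ m, (1 : ℝ) / D.nm p := by
          refine Finset.sum_le_sum_of_subset_of_nonneg ?_ fun s _ _ => Finset.prod_nonneg fun p _ => by positivity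
          intro m hm
          obtain ⟨g1, g2, g3⟩ := Finset.mem_filter.mp hm
          rw [Finset.mem_powerset] at g1 ⊢
          intro p hp
          exact Finset.mem_sdiff.mpr ⟨g1 hp, fun h => Finset.disjoint_left.mp g3 hp h⟩
      _ = ∏ p ∈ pr D X \ T, (1 + (1 : ℝ) / D.nm p) := by rw [Finset.prod_one_add]
      _ ≤ ∏ p ∈ pr D X \ T, Real.exp ((1 : ℝ) / D.nm p) := by
          refine Finset.prod_le_prod (fun p _ => by positivity) fun p _ => ?_
          rw [add_comm]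
          exact Real.add_one_le_exp _
      _ = _ := by rw [Real.exp_sum]
  have h6 : ∑ p ∈ pr D X \ T, (1 : ℝ) / D.nm p ≤ κ * Real.log (Real.log X) + C₃ - ∑ p ∈ T, (1 : ℝ) / D.nm p := by
    have hTX : T ⊆ pr D X := fun p hp => (mem_pr hS).mpr (hT p hp)
    have g1 := Finset.sum_sdiff hTX (f := fun p => (1 : ℝ) / D.nm p)
    have g2 := hC₃ X hX
    linarith
  have h7 : Real.exp (∑ p ∈ pr D X \ T, (1 : ℝ) / D.nm p) ≤ Real.log X ^ κ * (Real.exp C₃ * Real.exp (-∑ p ∈ T, (1 : ℝ) / D.nm p)) := by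
    calc Real.exp (∑ p ∈ pr D X \ T, (1 : ℝ) / D.nm p) ≤ Real.exp (Real.log (Real.log X) * κ + (C₃ + -∑ p ∈ T, (1 : ℝ) / D.nm p)) :=
          Real.exp_le_exp.mpr (by linarith)
      _ = _ := by rw [Real.exp_add, Real.exp_add, Real.rpow_def_of_pos hlX]
  have h9 : Real.log X ^ κ = Real.log X ^ (κ - 1) * Real.log X := by
    rw [Real.rpow_sub_one hlX.ne']
    field_simp
  have h8 : (A.card : ℝ) * Real.log X ≤ ((C₁ + 1) * Real.exp C₃ * X * Real.log X ^ (κ - 1) * Real.exp (-∑ p ∈ T, (1 : ℝ) / D.nm p)) * Real.log X := by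
    calc (A.card : ℝ) * Real.log X ≤ (C₁ + 1) * X * (Real.log X ^ κ * (Real.exp C₃ * Real.exp (-∑ p ∈ T, (1 : ℝ) / D.nm p))) :=
          h4.trans (mul_le_mul_of_nonneg_left (h5.trans h7) (by positivity))
      _ = _ := by
        rw [h9]
        ring
  exact le_of_mul_le_mul_right h8 hlX

/-- the number of sets with bounded norm -/
theorem countK_le99 {D : CD k G} {κ : ℝ} (hS : SysW D.P D.nm) (hM : MertK D κ) : ∃ C : ℝ, 0 < C ∧ ∀ X : ℕ, 2 ≤ X →
    ∀ S : Finset (Finset D.P), (∀ c ∈ S, Nm D c ≤ X) → (S.card : ℝ) ≤ C * X * Real.log X ^ (κ - 1) := by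
  obtain ⟨C, hC, h⟩ := hallK99 hS hM
  refine ⟨C, hC, fun X hX S hSX => ?_⟩
  have h3 := h X hX ∅ (by simp) S (fun c hc => ⟨hSX c hc, Finset.disjoint_empty_right c⟩)
  simpa only [Finset.sum_empty, neg_zero, Real.exp_zero, mul_one] using h3

/-- few sets have a large smooth part -/
theorem smoothK99 {D : CD k G} {κ : ℝ} (hκ0 : 0 < κ) (hS : SysW D.P D.nm) (hM : MertK D κ) :
    ∃ C : ℝ, 0 < C ∧ ∀ z X : ℕ, 2 ≤ z → z ^ 4 ≤ X → ∀ T : ℝ, 0 < T →
    ∀ S : Finset (Finset D.P), (∀ c ∈ S, Nm D c ≤ X ∧ T ≤ ∑ p ∈ c.filter (fun p => D.nm p ≤ z), Real.log (D.nm p)) →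
    (S.card : ℝ) ≤ C * X * Real.log X ^ (κ - 1) * (Real.log z / T) := by
  classical
  obtain ⟨C₁, hC₁, hcount⟩ := countK_le99 hS hM
  obtain ⟨C₂, hC₂, hld⟩ := log_div hS
  refine ⟨C₁ * 2 * C₂, by positivity, fun z X hz hzX T hT S hSX => ?_⟩
  have hX16 : 16 ≤ X := le_trans (by
    calc 16 = 2 ^ 4 := by norm_num
      _ ≤ z ^ 4 := Nat.pow_le_pow_left hz 4) hzX
  have hlX : 0 < Real.log X := Real.log_pos (by exact_mod_cast (by omega : 1 < X))
  have hl0 : ∀ p, 0 ≤ Real.log (D.nm p) := fun p => Real.log_nonneg (by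
    have := hS.two p
    exact_mod_cast (by omega : 1 ≤ D.nm p))
  have h1 : (S.card : ℝ) * T ≤ ∑ c ∈ S, ∑ p ∈ c.filter (fun p => D.nm p ≤ z), Real.log (D.nm p) := by
    rw [← nsmul_eq_mul, ← Finset.sum_const]
    exact Finset.sum_le_sum fun c hc => (hSX c hc).2
  have h2 : ∑ c ∈ S, ∑ p ∈ c.filter (fun p => D.nm p ≤ z), Real.log (D.nm p) =
      ∑ p ∈ pr D z, ∑ c ∈ S.filter (fun c => p ∈ c), Real.log (D.nm p) := by
    refine Finset.sum_comm' ?_
    intro c p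
    rw [Finset.mem_filter, Finset.mem_filter, mem_pr hS]
    tauto
  have h3 : ∀ p ∈ pr D z, ∑ c ∈ S.filter (fun c => p ∈ c), Real.log (D.nm p) ≤
      C₁ * 2 * X * Real.log X ^ (κ - 1) * (Real.log (D.nm p) / D.nm p) := by
    intro p hp
    rw [Finset.sum_const, nsmul_eq_mul]
    have hp2 := hS.two p
    have hpz := (mem_pr hS).mp hp
    have hp4 : D.nm p ^ 4 ≤ X := (Nat.pow_le_pow_left hpz 4).trans hzX
    obtain ⟨Y, hY⟩ : ∃ Y : ℕ, Y = X / D.nm p := ⟨_, rfl⟩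
    have hY1 : 1 ≤ Y := by
      rw [hY]
      rw [Nat.le_div_iff_mul_le (by omega), one_mul]
      calc D.nm p = D.nm p ^ 1 := (pow_one _).symm
        _ ≤ D.nm p ^ 4 := Nat.pow_le_pow_right (by omega) (by norm_num)
        _ ≤ X := hp4
    have hXY : X < (Y + 1) * D.nm p := by
      rw [hY]
      have := Nat.lt_div_mul_add (a := X) (b := D.nm p) (by omega)
      rw [add_mul, one_mul]
      exact this
    have hXY2 : X ≤ Y * D.nm p ^ 2 := by
      have g : (Y + 1) * D.nm p ≤ Y * D.nm p ^ 2 := by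
        have g1 : Y + 1 ≤ Y * D.nm p := by nlinarith
        calc (Y + 1) * D.nm p ≤ (Y * D.nm p) * D.nm p := Nat.mul_le_mul_right _ g1
          _ = _ := by ring
      omega
    have hXY3 : X ≤ Y ^ 2 := by
      have g : X * X ≤ Y ^ 2 * X := by
        calc X * X ≤ (Y * D.nm p ^ 2) * (Y * D.nm p ^ 2) := Nat.mul_le_mul hXY2 hXY2
          _ = Y ^ 2 * D.nm p ^ 4 := by ring
          _ ≤ Y ^ 2 * X := Nat.mul_le_mul_left _ hp4
      exact Nat.le_of_mul_le_mul_right g (by omega)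
    have hY2 : 2 ≤ Y := by
      by_contra hlt
      have : Y = 1 := by omega
      rw [this] at hXY3
      omega
    have hlY : Real.log X / 2 ≤ Real.log Y := by
      have g : (X : ℝ) ≤ (Y : ℝ) ^ 2 := by exact_mod_cast hXY3
      have g1 := Real.log_le_log (by exact_mod_cast (by omega : 0 < X)) g
      rw [Real.log_pow] at g1
      push_cast at g1
      linarith
    have hrY : Real.log Y ^ (κ - 1) ≤ 2 * Real.log X ^ (κ - 1) := by
      rcases le_total κ 1 with hκ1 | hκ1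
      · have g := Real.rpow_le_rpow_of_nonpos (x := Real.log X / 2) (y := Real.log Y) (z := κ - 1) (by positivity) hlY (by linarith)
        refine g.trans ?_
        rw [Real.div_rpow hlX.le (by norm_num), div_eq_mul_inv, mul_comm, ← Real.rpow_neg (by norm_num)]
        refine mul_le_mul_of_nonneg_right ?_ (by positivity)
        calc (2 : ℝ) ^ (-(κ - 1)) ≤ (2 : ℝ) ^ (1 : ℝ) := Real.rpow_le_rpow_of_exponent_le (by norm_num) (by linarith)
          _ = 2 := Real.rpow_one 2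
      · have hYX : Real.log Y ≤ Real.log X := by
          refine Real.log_le_log (by exact_mod_cast (by omega : 0 < Y)) ?_
          have : Y ≤ X := by
            rw [hY]
            exact Nat.div_le_self _ _
          exact_mod_cast this
        have g := Real.rpow_le_rpow (by linarith) hYX (show 0 ≤ κ - 1 by linarith)
        have g2 : 0 ≤ Real.log X ^ (κ - 1) := by positivity
        linarith
    have h4 : ((S.filter (fun c => p ∈ c)).card : ℝ) ≤ C₁ * (Y : ℝ) * Real.log Y ^ (κ - 1) := by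
      have h5 : (S.filter (fun c => p ∈ c)).card = ((S.filter (fun c => p ∈ c)).image fun c => c.erase p).card := by
        rw [Finset.card_image_of_injOn]
        intro c hc c' hc' e
        have g1 := (Finset.mem_filter.mp (Finset.mem_coe.mp hc)).2
        have g2 := (Finset.mem_filter.mp (Finset.mem_coe.mp hc')).2
        have e' : c.erase p = c'.erase p := e
        rw [← Finset.insert_erase g1, ← Finset.insert_erase g2, e']
      rw [h5]
      refine hcount _ hY2 _ ?_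
      intro c' hc'
      obtain ⟨c, hc, rfl⟩ := Finset.mem_image.mp hc'
      obtain ⟨g1, g2⟩ := Finset.mem_filter.mp hc
      rw [hY, Nat.le_div_iff_mul_le (by omega)]
      have e : Nm D (c.erase p) * D.nm p = Nm D c := Finset.prod_erase_mul c D.nm g2
      rw [e]
      exact (hSX c g1).1
    have h5 : (Y : ℝ) ≤ X / D.nm p := by
      rw [hY]
      exact Nat.cast_div_le
    have hn0 : (0 : ℝ) < D.nm p := by exact_mod_cast (by omega : 0 < D.nm p)
    calc ((S.filter (fun c => p ∈ c)).card : ℝ) * Real.log (D.nm p) ≤ (C₁ * (X / D.nm p) * (2 * Real.log X ^ (κ - 1))) * Real.log (D.nm p) := by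
          refine mul_le_mul_of_nonneg_right (h4.trans ?_) (hl0 p)
          exact mul_le_mul (mul_le_mul_of_nonneg_left h5 hC₁.le) hrY (by positivity) (by positivity)
      _ = _ := by ring
  have h4 : (S.card : ℝ) * T ≤ C₁ * 2 * X * Real.log X ^ (κ - 1) * (C₂ * Real.log z) := by
    rw [h2] at h1
    refine h1.trans ((Finset.sum_le_sum h3).trans ?_)
    rw [← Finset.mul_sum]
    exact mul_le_mul_of_nonneg_left (hld z hz) (by positivity)
  calc (S.card : ℝ) = (S.card : ℝ) * T / T := by field_simp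
    _ ≤ C₁ * 2 * X * Real.log X ^ (κ - 1) * (C₂ * Real.log z) / T := div_le_div_of_nonneg_right h4 hT.le
    _ = _ := by ring

private theorem ll_mono {y x : ℕ} (hy : 2 ≤ y) (h : y ≤ x) : Real.log (Real.log y) ≤ Real.log (Real.log x) :=
  Real.log_le_log (Real.log_pos (by exact_mod_cast (by omega : 1 < y)))
    (Real.log_le_log (by exact_mod_cast (by omega : 0 < y)) (by exact_mod_cast h))

/-- uniform constants for the components of the second kind -/
private theorem unif_B (D : CD k G) {κ : ℝ} (hκ0 : 0 < κ) : ∃ δ C : ℝ, 0 < δ ∧ δ ≤ κ ∧ δ ≤ 1 ∧ 0 ≤ C ∧ ∀ J, TBK D b κ J → ∀ y x : ℕ, 2 ≤ y → y ≤ x →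
    ∀ S : Finset D.P, (∀ p, p ∈ S ↔ p ∉ D.Ex ∧ y < D.nm p ∧ D.nm p ≤ x) →
      ∑ p ∈ S, WJb D b J p / D.nm p ≤ (κ - δ) * (Real.log (Real.log x) - Real.log (Real.log y)) + C := by
  classical
  have h : ∀ J : Finset (Fin k), ∃ δ C : ℝ, 0 < δ ∧ δ ≤ 1 ∧ 0 ≤ C ∧ (TBK D b κ J → ∀ y x : ℕ, 2 ≤ y → y ≤ x →
      ∀ S : Finset D.P, (∀ p, p ∈ S ↔ p ∉ D.Ex ∧ y < D.nm p ∧ D.nm p ≤ x) →
      ∑ p ∈ S, WJb D b J p / D.nm p ≤ (κ - δ) * (Real.log (Real.log x) - Real.log (Real.log y)) + C) := by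
    intro J
    by_cases hJ : TBK D b κ J
    · obtain ⟨_, δ, C, h1, h2⟩ := id hJ
      refine ⟨min δ 1, |C|, lt_min h1 one_pos, min_le_right _ _, abs_nonneg C, fun _ y x hy hx S hS => ?_⟩
      have h3 := h2 y x hy hx S hS
      have h4 := ll_mono hy hx
      have h5 : (κ - δ) * (Real.log (Real.log x) - Real.log (Real.log y)) ≤ (κ - min δ 1) * (Real.log (Real.log x) - Real.log (Real.log y)) :=
        mul_le_mul_of_nonneg_right (by linarith [min_le_left δ 1]) (by linarith)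
      linarith [le_abs_self C]
    · exact ⟨1, 0, one_pos, le_rfl, le_rfl, fun h => absurd h hJ⟩
  choose δ C h1 h2 h3 h4 using h
  have hP : 0 < ∏ J, δ J := Finset.prod_pos fun J _ => h1 J
  refine ⟨min (∏ J, δ J) κ, ∑ J, C J, lt_min hP hκ0, min_le_right _ _,
    (min_le_left _ _).trans (Finset.prod_le_one (fun J _ => (h1 J).le) fun J _ => h2 J), Finset.sum_nonneg fun J _ => h3 J, fun J hJ y x hy hx S hS => ?_⟩
  have h5 := h4 J hJ y x hy hx S hS
  have h6 : min (∏ J, δ J) κ ≤ δ J := by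
    refine (min_le_left _ _).trans ?_
    rw [← Finset.mul_prod_erase Finset.univ δ (Finset.mem_univ J)]
    have : ∏ J ∈ Finset.univ.erase J, δ J ≤ 1 := Finset.prod_le_one (fun J _ => (h1 J).le) fun J _ => h2 J
    nlinarith [h1 J]
  have h7 : C J ≤ ∑ J, C J := Finset.single_le_sum (fun J _ => h3 J) (Finset.mem_univ J)
  have h8 := ll_mono hy hx
  have h9 : (κ - δ J) * (Real.log (Real.log x) - Real.log (Real.log y)) ≤ (κ - min (∏ J, δ J) κ) * (Real.log (Real.log x) - Real.log (Real.log y)) :=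
    mul_le_mul_of_nonneg_right (by linarith) (by linarith)
  linarith

/-- uniform constants for the components of the first kind -/
private theorem unif_A (D : CD k G) : ∃ δ C : ℝ, 0 < δ ∧ 0 ≤ C ∧ ∀ J, TA D J → ∀ y x : ℕ, 2 ≤ y → y ≤ x →
    ∀ S : Finset D.P, (∀ p, p ∈ S ↔ p ∉ D.Ex ∧ y < D.nm p ∧ D.nm p ≤ x ∧ ∀ o ∈ D.V p, D.cmp o ∉ J) →
      δ * (Real.log (Real.log x) - Real.log (Real.log y)) - C ≤ ∑ p ∈ S, (1 : ℝ) / D.nm p := by
  classical
  have h : ∀ J : Finset (Fin k), ∃ δ C : ℝ, 0 < δ ∧ δ ≤ 1 ∧ 0 ≤ C ∧ (TA D J → ∀ y x : ℕ, 2 ≤ y → y ≤ x →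
      ∀ S : Finset D.P, (∀ p, p ∈ S ↔ p ∉ D.Ex ∧ y < D.nm p ∧ D.nm p ≤ x ∧ ∀ o ∈ D.V p, D.cmp o ∉ J) →
      δ * (Real.log (Real.log x) - Real.log (Real.log y)) - C ≤ ∑ p ∈ S, (1 : ℝ) / D.nm p) := by
    intro J
    by_cases hJ : TA D J
    · obtain ⟨δ, C, h1, h2⟩ := id hJ
      refine ⟨min δ 1, |C|, lt_min h1 one_pos, min_le_right _ _, abs_nonneg C, fun _ y x hy hx S hS => ?_⟩
      have h3 := h2 y x hy hx S hS
      have h4 := ll_mono hy hx
      have h5 : min δ 1 * (Real.log (Real.log x) - Real.log (Real.log y)) ≤ δ * (Real.log (Real.log x) - Real.log (Real.log y)) :=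
        mul_le_mul_of_nonneg_right (min_le_left δ 1) (by linarith)
      linarith [le_abs_self C]
    · exact ⟨1, 0, one_pos, le_rfl, le_rfl, fun h => absurd h hJ⟩
  choose δ C h1 h2 h3 h4 using h
  refine ⟨∏ J, δ J, ∑ J, C J, Finset.prod_pos fun J _ => h1 J,
    Finset.sum_nonneg fun J _ => h3 J, fun J hJ y x hy hx S hS => ?_⟩
  have h5 := h4 J hJ y x hy hx S hS
  have h6 : ∏ J, δ J ≤ δ J := by
    rw [← Finset.mul_prod_erase Finset.univ δ (Finset.mem_univ J)]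
    have : ∏ J ∈ Finset.univ.erase J, δ J ≤ 1 := Finset.prod_le_one (fun J _ => (h1 J).le) fun J _ => h2 J
    nlinarith [h1 J]
  have h7 : C J ≤ ∑ J, C J := Finset.single_le_sum (fun J _ => h3 J) (Finset.mem_univ J)
  have h8 := ll_mono hy hx
  have h9 : (∏ J, δ J) * (Real.log (Real.log x) - Real.log (Real.log y)) ≤ δ J * (Real.log (Real.log x) - Real.log (Real.log y)) :=
    mul_le_mul_of_nonneg_right h6 (by linarith)
  linarith

private theorem exp_ll {X : ℕ} (hX : 3 ≤ X) (a : ℝ) : Real.exp (a * Real.log (Real.log X)) = Real.log X ^ a := by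
  rw [Real.rpow_def_of_pos (by linarith [log_ge_one hX]), mul_comm]

theorem zz_pow4_99 {N X s : ℕ} (hX : 3 ≤ X) (hs : s + 1 ≤ N) (h4 : (4 : ℝ) ^ N ≤ Real.log X) : zz N X s ^ 4 ≤ X := by
  have hlX := log_ge_one hX
  have hN' : (0 : ℝ) < N := by exact_mod_cast (by omega : 0 < N)
  have h1 := log_zz_le (N := N) (κ := s) hX (by omega)
  have h2 : Real.log X ^ ((s : ℝ) / N) ≤ Real.log X / 4 := by
    have g1 : (4 : ℝ) ≤ Real.log X ^ (1 / (N : ℝ)) := by
      calc (4 : ℝ) = ((4 : ℝ) ^ N) ^ (1 / (N : ℝ)) := by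
            rw [← Real.rpow_natCast, ← Real.rpow_mul (by norm_num), mul_one_div, div_self hN'.ne', Real.rpow_one]
        _ ≤ _ := Real.rpow_le_rpow (by positivity) h4 (by positivity)
    have g2 : Real.log X ^ ((s : ℝ) / N) * Real.log X ^ (1 / (N : ℝ)) ≤ Real.log X := by
      rw [← Real.rpow_add (by linarith)]
      calc Real.log X ^ ((s : ℝ) / N + 1 / (N : ℝ)) ≤ Real.log X ^ (1 : ℝ) := by
            refine Real.rpow_le_rpow_of_exponent_le hlX ?_
            rw [← add_div, div_le_one hN']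
            exact_mod_cast hs
        _ = _ := Real.rpow_one _
    have g3 : 0 < Real.log X ^ ((s : ℝ) / N) := by positivity
    rw [le_div_iff₀ (by norm_num)]
    nlinarith
  have h3 : ((zz N X s : ℕ) : ℝ) ^ 4 ≤ X := by
    have hz2 := zz_two (N := N) (κ := s) hX
    have hz0 : (0 : ℝ) < zz N X s := by exact_mod_cast (by omega : 0 < zz N X s)
    have hX0 : (0 : ℝ) < X := by exact_mod_cast (by omega : 0 < X)
    rw [← Real.log_le_log_iff (by positivity) hX0, Real.log_pow]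
    push_cast
    linarith
  exact_mod_cast h3

open Classical in
/-- few sets with a large smooth part -/
private theorem exc_E {D : CD k G} {κ : ℝ} (hκ0 : 0 < κ) (hS : SysW D.P D.nm) (hM : MertK D κ) :
    ∃ C : ℝ, 0 < C ∧ ∀ (N A X s : ℕ), 3 ≤ X → (4 : ℝ) ^ N ≤ Real.log X → s + 1 ≤ N → 0 < A →
    ∀ S : Finset (Finset D.P), (∀ c ∈ S, Nm D c ≤ X ∧
      ¬ (∏ p ∈ (pf D c).filter (fun p => D.nm p ≤ zz N X s), D.nm p) ^ A ≤ zz N X (s + 1)) →
    (S.card : ℝ) ≤ 4 * A * C * X * Real.log X ^ (κ - 1 - 1 / (N : ℝ)) := by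
  obtain ⟨C, hC, h⟩ := smoothK99 hκ0 hS hM
  refine ⟨C, hC, fun N A X s hX h4N hκ hA S hSc => ?_⟩
  have hA' : (0 : ℝ) < A := by exact_mod_cast hA
  have hlX := log_ge_one hX
  have hN' : (0 : ℝ) < N := by exact_mod_cast (by omega : 0 < N)
  have hz2 := zz_two (N := N) (κ := s) hX
  have hz3 := zz_two (N := N) (κ := s + 1) hX
  have hlz : 0 < Real.log (zz N X (s + 1)) := Real.log_pos (by exact_mod_cast (by omega : 1 < zz N X (s + 1)))
  have h1 := h (zz N X s) X hz2 (zz_pow4_99 hX hκ h4N) (Real.log (zz N X (s + 1)) / A) (by positivity) S (by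
    intro c hc
    obtain ⟨g1, g2⟩ := hSc c hc
    refine ⟨g1, ?_⟩
    push Not at g2
    have g3 : (zz N X (s + 1) : ℝ) ≤ ((∏ p ∈ (pf D c).filter (fun p => D.nm p ≤ zz N X s), D.nm p : ℕ) : ℝ) ^ A := by exact_mod_cast g2.le
    have g4 := Real.log_le_log (by exact_mod_cast (by omega : 0 < zz N X (s + 1))) g3
    rw [Real.log_pow, Nat.cast_prod, Real.log_prod] at g4
    · rw [div_le_iff₀ hA', mul_comm]
      refine g4.trans (mul_le_mul_of_nonneg_left ?_ hA'.le)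
      refine Finset.sum_le_sum_of_subset_of_nonneg ?_ fun p _ _ => Real.log_nonneg ?_
      · intro p hp
        obtain ⟨k1, k2⟩ := Finset.mem_filter.mp hp
        exact Finset.mem_filter.mpr ⟨(mem_pf.mp k1).1, k2⟩
      · have := hS.two p
        exact_mod_cast (by omega : 1 ≤ D.nm p)
    · intro p _
      have := hS.two p
      exact_mod_cast (by omega : D.nm p ≠ 0))
  refine h1.trans ?_
  have h2 := log_zz_le (N := N) (κ := s) hX (by omega)
  have h3 := le_log_zz (N := N) (κ := s + 1) hX hκ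
  have hp1 : 0 < Real.log X ^ ((s : ℝ) / N) := by positivity
  have hp2 : 0 < Real.log X ^ (((s + 1 : ℕ) : ℝ) / N) := by positivity
  have h4 : Real.log (zz N X s) / (Real.log (zz N X (s + 1)) / A) ≤ 4 * A * Real.log X ^ (-(1 / (N : ℝ))) := by
    have e : Real.log X ^ (-(1 / (N : ℝ))) = Real.log X ^ ((s : ℝ) / N) / Real.log X ^ (((s + 1 : ℕ) : ℝ) / N) := by
      rw [← Real.rpow_sub (by linarith)]
      congr 1
      push_cast
      field_simp
      ring
    rw [e, div_div_eq_mul_div, div_le_iff₀ hlz]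
    have h5 : 4 * (A : ℝ) * (Real.log X ^ ((s : ℝ) / N) / Real.log X ^ (((s + 1 : ℕ) : ℝ) / N)) * (1 / 4 * Real.log X ^ (((s + 1 : ℕ) : ℝ) / N)) ≤
        4 * (A : ℝ) * (Real.log X ^ ((s : ℝ) / N) / Real.log X ^ (((s + 1 : ℕ) : ℝ) / N)) * Real.log (zz N X (s + 1)) :=
      mul_le_mul_of_nonneg_left h3 (by positivity)
    refine le_trans ?_ h5
    calc Real.log (zz N X s) * A ≤ Real.log X ^ ((s : ℝ) / N) * A := mul_le_mul_of_nonneg_right h2 hA'.le
      _ = _ := by field_simp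
  calc C * X * Real.log X ^ (κ - 1) * (Real.log (zz N X s) / (Real.log (zz N X (s + 1)) / A)) ≤
        C * X * Real.log X ^ (κ - 1) * (4 * A * Real.log X ^ (-(1 / (N : ℝ)))) :=
        mul_le_mul_of_nonneg_left h4 (by positivity)
    _ = 4 * A * C * X * (Real.log X ^ (κ - 1) * Real.log X ^ (-(1 / (N : ℝ)))) := by ring
    _ = _ := by rw [← Real.rpow_add (by linarith), ← sub_eq_add_neg]

open Classical in
/-- few sets without primes which have no option in `J` -/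
private theorem exc_F {D : CD k G} {κ : ℝ} (hS : SysW D.P D.nm) (hM : MertK D κ) {δ CA : ℝ} (hδ : 0 < δ)
    (hTA : ∀ J, TA D J → ∀ y x : ℕ, 2 ≤ y → y ≤ x →
    ∀ S : Finset D.P, (∀ p, p ∈ S ↔ p ∉ D.Ex ∧ y < D.nm p ∧ D.nm p ≤ x ∧ ∀ o ∈ D.V p, D.cmp o ∉ J) →
      δ * (Real.log (Real.log x) - Real.log (Real.log y)) - CA ≤ ∑ p ∈ S, (1 : ℝ) / D.nm p) :
    ∃ C : ℝ, 0 < C ∧ ∀ (N X s : ℕ) (J : Finset (Fin k)), 3 ≤ X → s < N → TA D J →
    ∀ S : Finset (Finset D.P), (∀ c ∈ S, Nm D c ≤ X ∧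
      ¬ ∃ p ∈ pf D c, sc (zz N X) N (D.nm p) = s ∧ ∀ o ∈ D.V p, D.cmp o ∉ J) →
    (S.card : ℝ) ≤ C * X * Real.log X ^ (κ - 1 - δ / (N : ℝ)) := by
  obtain ⟨C, hC, h⟩ := hallK99 hS hM
  refine ⟨C * Real.exp (CA + δ * Real.log 4), by positivity, fun N X s J hX hκ hJ S hSc => ?_⟩
  have hlX := log_ge_one hX
  set T := (pr D X).filter (fun p => p ∉ D.Ex ∧ sc (zz N X) N (D.nm p) = s ∧ ∀ o ∈ D.V p, D.cmp o ∉ J) with hT
  set T' := (pr D (zz N X (s + 1))).filter (fun p => p ∉ D.Ex ∧ zz N X s < D.nm p ∧ ∀ o ∈ D.V p, D.cmp o ∉ J) with hT'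
  have hN : 0 < N := by omega
  have h1 := h X (by omega) T (fun p hp => (mem_pr hS).mp (Finset.mem_filter.mp hp).1) S (by
    intro c hc
    obtain ⟨g1, g2⟩ := hSc c hc
    refine ⟨g1, ?_⟩
    rw [Finset.disjoint_left]
    intro p hp hpT
    obtain ⟨_, k1, k2, k3⟩ := Finset.mem_filter.mp hpT
    exact g2 ⟨p, mem_pf.mpr ⟨hp, k1⟩, k2, k3⟩)
  have hsub : T' ⊆ T := by
    intro p hp
    obtain ⟨k0, k1, k2, k3⟩ := Finset.mem_filter.mp hp
    have k4 := (mem_pr hS).mp k0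
    refine Finset.mem_filter.mpr ⟨(mem_pr hS).mpr ?_, k1, ?_, k3⟩
    · rw [← zz_top hN hX]
      exact k4.trans (zz_mono hX (by omega))
    · have k5 : s ≤ sc (zz N X) N (D.nm p) := Nat.le_findGreatest (by omega) k2
      by_contra hne
      have k6 : s + 1 ≤ sc (zz N X) N (D.nm p) := by omega
      have k7 := sc_pos (z := zz N X) (N := N) (p := D.nm p) (by omega)
      have k8 := zz_mono (N := N) hX k6
      omega
  have h2 := hTA J hJ (zz N X s) (zz N X (s + 1)) (zz_two hX) (zz_mono hX (Nat.le_succ s)) T' (by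
    intro p
    rw [hT', Finset.mem_filter, mem_pr hS]
    tauto)
  have h3 : ∑ p ∈ T', (1 : ℝ) / D.nm p ≤ ∑ p ∈ T, (1 : ℝ) / D.nm p :=
    Finset.sum_le_sum_of_subset_of_nonneg hsub fun p _ _ => by positivity
  have h4 := ll_diff' hN hX hκ
  have h5 : δ * (Real.log (Real.log X) / N - Real.log 4) ≤
      δ * (Real.log (Real.log (zz N X (s + 1))) - Real.log (Real.log (zz N X s))) := mul_le_mul_of_nonneg_left h4 hδ.le
  have h6 : Real.exp (-∑ p ∈ T, (1 : ℝ) / D.nm p) ≤ Real.exp (CA + δ * Real.log 4) * Real.log X ^ (-(δ / (N : ℝ))) := by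
    rw [← exp_ll hX, ← Real.exp_add]
    refine Real.exp_le_exp.mpr ?_
    have e : -(δ / (N : ℝ)) * Real.log (Real.log X) = -(δ * (Real.log (Real.log X) / N)) := by ring
    rw [e]
    linarith
  calc (S.card : ℝ) ≤ C * X * Real.log X ^ (κ - 1) * Real.exp (-∑ p ∈ T, (1 : ℝ) / D.nm p) := h1
    _ ≤ C * X * Real.log X ^ (κ - 1) * (Real.exp (CA + δ * Real.log 4) * Real.log X ^ (-(δ / (N : ℝ)))) := mul_le_mul_of_nonneg_left h6 (by positivity)
    _ = C * Real.exp (CA + δ * Real.log 4) * X * (Real.log X ^ (κ - 1) * Real.log X ^ (-(δ / (N : ℝ)))) := by ring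
    _ = _ := by rw [← Real.rpow_add (by linarith), ← sub_eq_add_neg]

private theorem rpow_le99 {X : ℕ} (hX : 3 ≤ X) {a b : ℝ} (h : a ≤ b) : Real.log X ^ a ≤ Real.log X ^ b :=
  Real.rpow_le_rpow_of_exponent_le (log_ge_one hX) h

open Classical in
/-- the counting theorem for the primes of density `κ` -/
theorem countK99 [CommGroup G] (D : CD k G) {κ : ℝ} (hκ0 : 0 < κ) (hb : 0 < b) (hb1 : b ≤ 1) (hS : SysW D.P D.nm) (hM : MertK D κ)
    (hV : ∃ K : ℕ, ∀ p, (D.V p).card ≤ K) {Ok : Finset D.P → Prop} (hOk : ∀ m c, m ⊆ c → Ok c → Ok m) (hBT : BTb D b Ok) (hTAB : ∀ J : Finset (Fin k), TA D J ∨ TBK D b κ J) (o₀ : D.O) :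
    ∃ η C : ℝ, 0 < η ∧ 0 < C ∧ ∀ X : ℕ, 3 ≤ X → ∀ S : Finset (Finset D.P),
      (∀ c ∈ S, Nm D c ≤ X ∧ Ok c ∧ Bad D c) → (S.card : ℝ) ≤ C * X * Real.log X ^ (κ - 1 - η) := by
  obtain ⟨K₀, hV⟩ := hV
  obtain ⟨δB, CB, hδB, hδB1, hδB2, hCB, hTB⟩ := unif_B D hκ0
  obtain ⟨δA, CA, hδA, hCA, hTA⟩ := unif_A D
  obtain ⟨CM', hMe'⟩ := id hM
  obtain ⟨CM, hCM, hMe⟩ : ∃ CM : ℝ, 0 ≤ CM ∧ ∀ y x : ℕ, 2 ≤ y → y ≤ x → ∀ S : Finset D.P, (∀ p ∈ S, y < D.nm p ∧ D.nm p ≤ x) →
      ∑ p ∈ S, (1 : ℝ) / D.nm p ≤ κ * (Real.log (Real.log x) - Real.log (Real.log y)) + CM :=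
    ⟨|CM'|, abs_nonneg _, fun y x hy hx S h => (hMe' y x hy hx S h).trans (by linarith [le_abs_self CM'])⟩
  -- parameters
  obtain ⟨e, he⟩ : ∃ e : ℝ, e = δB / (4 * (k + 1)) := ⟨_, rfl⟩
  have hk1 : (0 : ℝ) < (k : ℝ) + 1 := by positivity
  have he0 : 0 < e := by
    rw [he]
    positivity
  have hek : (k + 1) * e = δB / 4 := by
    rw [he]
    field_simp
  have he1 : e ≤ 1 := by
    have h1 : 1 * e ≤ (k + 1) * e := mul_le_mul_of_nonneg_right (by linarith [(Nat.cast_nonneg k : (0 : ℝ) ≤ k)]) he0.le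
    linarith
  obtain ⟨C, A', hC, hBT'⟩ := hBT e he0
  obtain ⟨A, hA⟩ : ∃ A : ℕ, A = A' + 1 := ⟨_, rfl⟩
  have hBTc : BTc D b Ok e C A := by
    intro j m hm hOm τ hτ t h h2 hmA T hT
    refine hBT' j m hm hOm τ hτ t h h2 (le_trans ?_ hmA) T hT
    exact Nat.pow_le_pow_right (Nm_pos hS m) (by omega)
  obtain ⟨N, hN'⟩ := exists_nat_gt (4 * (1 + 2 * k * (K₀ * κ)) / δB)
  have hN1 : 4 * (1 + 2 * (k : ℝ) * (K₀ * κ)) < δB * N := by
    rw [div_lt_iff₀ hδB] at hN'
    linarith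
  have hNpos : (0 : ℝ) < N := lt_of_le_of_lt (by positivity) hN'
  have hN2 : 2 ≤ N := by
    by_contra hlt
    have h1 : (N : ℝ) ≤ 1 := by exact_mod_cast (by omega : N ≤ 1)
    have h2 : 0 ≤ 2 * (k : ℝ) * (K₀ * κ) := by positivity
    nlinarith
  have hNfrac : (1 + 2 * (k : ℝ) * (K₀ * κ)) / N ≤ δB / 4 := by
    rw [div_le_iff₀ hNpos]
    linarith
  obtain ⟨C₀, hC₀, hcnt⟩ := countK_le99 hS hM
  obtain ⟨C₁, hC₁, hE⟩ := exc_E hκ0 hS hM
  obtain ⟨C₂, hC₂, hF⟩ := exc_F hS hM hδA hTA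
  obtain ⟨B₀, hB₀⟩ : ∃ B₀ : ℝ, B₀ = D.Ex.card + K₀ * (pr D 2).card + N * (((κ - δB) * Real.log 4 + CB) + K₀ * (κ * Real.log 4 + CM)) := ⟨_, rfl⟩
  obtain ⟨C₃, hC₃⟩ : ∃ C₃ : ℝ, C₃ = (N + 1) ^ k * (C * (1 + 16 / e * C) ^ k * 4 * Real.exp B₀) := ⟨_, rfl⟩
  have hC₃0 : 0 ≤ C₃ := by
    rw [hC₃]
    positivity
  obtain ⟨η, hη⟩ : ∃ η : ℝ, η = min (1 / (N : ℝ)) (min (δA / N) (δB / 2)) := ⟨_, rfl⟩
  have hη0 : 0 < η := by
    rw [hη]
    exact lt_min (by positivity) (lt_min (by positivity) (by positivity))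
  have hη1 : η ≤ 1 := by
    rw [hη]
    refine (min_le_left _ _).trans ?_
    rw [div_le_one hNpos]
    exact_mod_cast (by omega : 1 ≤ N)
  refine ⟨η, C₀ * 4 ^ N + ((N : ℝ) * (4 * A * C₁) + (N : ℝ) * (Fintype.card (Finset (Fin k)) * C₂) + C₃ + 1), hη0, by positivity, fun X hX S hSc => ?_⟩
  have hX0 : (0 : ℝ) < X := by exact_mod_cast (by omega : 0 < X)
  have hlX := log_ge_one hX
  have hLp : 0 < Real.log X := by linarith
  have r0 : 0 < Real.log X ^ (κ - 1 - η) := Real.rpow_pos_of_pos hLp _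
  have hR0 : 0 ≤ (N : ℝ) * (4 * A * C₁) + (N : ℝ) * (Fintype.card (Finset (Fin k)) * C₂) + C₃ + 1 := by positivity
  rcases lt_or_ge (Real.log X) ((4 : ℝ) ^ N) with hsmall | hlarge
  · -- small `X`
    have h1 := hcnt X (by omega) S fun c hc => (hSc c hc).1
    have h2 : Real.log X ^ (κ - 1) ≤ 4 ^ N * Real.log X ^ (κ - 1 - η) := by
      have e1 : Real.log X ^ (κ - 1) = Real.log X ^ η * Real.log X ^ (κ - 1 - η) := by
        rw [← Real.rpow_add hLp]
        congr 1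
        ring
      rw [e1]
      refine mul_le_mul_of_nonneg_right ?_ r0.le
      calc Real.log X ^ η ≤ Real.log X ^ (1 : ℝ) := rpow_le99 hX hη1
        _ = Real.log X := Real.rpow_one _
        _ ≤ _ := hsmall.le
    calc (S.card : ℝ) ≤ C₀ * X * Real.log X ^ (κ - 1) := h1
      _ ≤ C₀ * X * (4 ^ N * Real.log X ^ (κ - 1 - η)) := mul_le_mul_of_nonneg_left h2 (by positivity)
      _ = C₀ * 4 ^ N * X * Real.log X ^ (κ - 1 - η) := by ring
      _ ≤ _ := by
        refine mul_le_mul_of_nonneg_right (mul_le_mul_of_nonneg_right ?_ hX0.le) r0.le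
        linarith
  set z := zz N X with hz
  -- the exceptional sets
  let SE : ℕ → Finset (Finset D.P) := fun s => S.filter fun c =>
    ¬ (∏ p ∈ (pf D c).filter (fun p => D.nm p ≤ z s), D.nm p) ^ A ≤ z (s + 1)
  let SF : ℕ → Finset (Fin k) → Finset (Finset D.P) := fun s J => S.filter fun c =>
    ¬ TBK D b κ J ∧ ¬ ∃ p ∈ pf D c, sc z N (D.nm p) = s ∧ ∀ o ∈ D.V p, D.cmp o ∉ J
  set S' := S.filter fun c =>
      (∀ s < N, ∀ J, ¬ TBK D b κ J → ∃ p ∈ pf D c, sc z N (D.nm p) = s ∧ ∀ o ∈ D.V p, D.cmp o ∉ J) ∧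
      (∀ s, 1 ≤ s → s + 1 ≤ N - 1 → (∏ p ∈ (pf D c).filter (fun p => D.nm p ≤ z s), D.nm p) ^ A ≤ z (s + 1)) with hS'
  have hcov : S ⊆ ((Finset.range (N - 1)).biUnion SE ∪ (Finset.range N).biUnion fun s => Finset.univ.biUnion fun J => SF s J) ∪ S' := by
    intro c hc
    by_cases g1 : ∀ s < N, ∀ J, ¬ TBK D b κ J → ∃ p ∈ pf D c, sc z N (D.nm p) = s ∧ ∀ o ∈ D.V p, D.cmp o ∉ J
    · by_cases g2 : ∀ s, 1 ≤ s → s + 1 ≤ N - 1 → (∏ p ∈ (pf D c).filter (fun p => D.nm p ≤ z s), D.nm p) ^ A ≤ z (s + 1)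
      · exact Finset.mem_union_right _ (Finset.mem_filter.mpr ⟨hc, g1, g2⟩)
      · simp only [not_forall] at g2
        obtain ⟨s, h1, h2, h3⟩ := g2
        refine Finset.mem_union_left _ (Finset.mem_union_left _ (Finset.mem_biUnion.mpr ⟨s, Finset.mem_range.mpr (by omega), ?_⟩))
        exact Finset.mem_filter.mpr ⟨hc, h3⟩
    · simp only [not_forall] at g1
      obtain ⟨s, h1, J, h2, h3⟩ := g1
      refine Finset.mem_union_left _ (Finset.mem_union_right _ (Finset.mem_biUnion.mpr ⟨s, Finset.mem_range.mpr h1,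
        Finset.mem_biUnion.mpr ⟨J, Finset.mem_univ _, ?_⟩⟩))
      exact Finset.mem_filter.mpr ⟨hc, h2, h3⟩
  have hcard : (S.card : ℝ) ≤ (∑ s ∈ Finset.range (N - 1), ((SE s).card : ℝ)) +
      (∑ s ∈ Finset.range N, ∑ J : Finset (Fin k), ((SF s J).card : ℝ)) + S'.card := by
    have g1 := Finset.card_le_card hcov
    have g2 := (Finset.card_union_le ((Finset.range (N - 1)).biUnion SE ∪ (Finset.range N).biUnion fun s => Finset.univ.biUnion fun J => SF s J) S')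
    have g3 := (Finset.card_union_le ((Finset.range (N - 1)).biUnion SE) ((Finset.range N).biUnion fun s => Finset.univ.biUnion fun J => SF s J))
    have g4 := Finset.card_biUnion_le (s := Finset.range (N - 1)) (t := SE)
    have g5 : ((Finset.range N).biUnion fun s => Finset.univ.biUnion fun J => SF s J).card ≤ ∑ s ∈ Finset.range N, ∑ J : Finset (Fin k), (SF s J).card :=
      Finset.card_biUnion_le.trans (Finset.sum_le_sum fun s _ => Finset.card_biUnion_le)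
    have g6 : S.card ≤ (∑ s ∈ Finset.range (N - 1), (SE s).card) + (∑ s ∈ Finset.range N, ∑ J : Finset (Fin k), (SF s J).card) + S'.card := by omega
    exact_mod_cast g6
  have b1 : ∑ s ∈ Finset.range (N - 1), ((SE s).card : ℝ) ≤ X * ((N : ℝ) * (4 * A * C₁) * Real.log X ^ (κ - 1 - 1 / (N : ℝ))) := by
    have g : ∀ s ∈ Finset.range (N - 1), ((SE s).card : ℝ) ≤ 4 * A * C₁ * X * Real.log X ^ (κ - 1 - 1 / (N : ℝ)) := by
      intro s hs
      have hs' := Finset.mem_range.mp hs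
      refine hE N A X s hX hlarge (by omega) (by omega) (SE s) fun c hc => ?_
      obtain ⟨g1, g2⟩ := Finset.mem_filter.mp hc
      exact ⟨(hSc c g1).1, g2⟩
    refine (Finset.sum_le_sum g).trans ?_
    rw [Finset.sum_const, Finset.card_range, nsmul_eq_mul]
    have h1 : ((N - 1 : ℕ) : ℝ) ≤ N := by exact_mod_cast Nat.sub_le N 1
    calc ((N - 1 : ℕ) : ℝ) * (4 * A * C₁ * X * Real.log X ^ (κ - 1 - 1 / (N : ℝ))) ≤ N * (4 * A * C₁ * X * Real.log X ^ (κ - 1 - 1 / (N : ℝ))) :=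
          mul_le_mul_of_nonneg_right h1 (by positivity)
      _ = _ := by ring
  have b2 : ∑ s ∈ Finset.range N, ∑ J : Finset (Fin k), ((SF s J).card : ℝ) ≤
      X * ((N : ℝ) * (Fintype.card (Finset (Fin k)) * C₂) * Real.log X ^ (κ - 1 - δA / (N : ℝ))) := by
    have g : ∀ s ∈ Finset.range N, ∀ J ∈ (Finset.univ : Finset (Finset (Fin k))), ((SF s J).card : ℝ) ≤ C₂ * X * Real.log X ^ (κ - 1 - δA / (N : ℝ)) := by
      intro s hs J _
      by_cases hJ : TBK D b κ J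
      · have : SF s J = ∅ := by
          rw [Finset.eq_empty_iff_forall_notMem]
          intro c hc
          exact (Finset.mem_filter.mp hc).2.1 hJ
        rw [this]
        simp only [Finset.card_empty, Nat.cast_zero]
        positivity
      · have hJA : TA D J := (hTAB J).resolve_right hJ
        refine hF N X s J hX (Finset.mem_range.mp hs) hJA (SF s J) fun c hc => ?_
        obtain ⟨g1, g2⟩ := Finset.mem_filter.mp hc
        exact ⟨(hSc c g1).1, g2.2⟩
    refine (Finset.sum_le_sum fun s hs => Finset.sum_le_sum (g s hs)).trans (le_of_eq ?_)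
    rw [Finset.sum_const, Finset.sum_const, Finset.card_range, Finset.card_univ, nsmul_eq_mul, nsmul_eq_mul]
    ring
  have b3 : (S'.card : ℝ) ≤ X * (C₃ * Real.log X ^ (κ - 1 - δB / 2)) := by
    have g1 := main_count hb hS hOk hC he0 he1 hBTc (z := z) hN2 (zz_two hX) hX (PB := TBK D b κ) (fun J hJ => hJ.1) o₀ S' (by
      intro c hc
      obtain ⟨k1, k2, k3⟩ := Finset.mem_filter.mp hc
      exact ⟨(hSc c k1).1, (hSc c k1).2.1, (hSc c k1).2.2, k2, k3⟩)
      (B := B₀ + ((κ - δB) + 2 * k * (K₀ * κ) / N) * Real.log (Real.log X)) (by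
        intro K _ hK
        have := ap_sum hb hb1 hS hV (lam := κ - δB) (κM := κ) (by linarith) hκ0.le hCB hCM hTB hMe (by omega : 0 < N) hX K hK
        rw [hB₀]
        exact this)
    refine g1.trans ?_
    rw [Real.exp_add, exp_ll hX, mul_pow, ← Real.rpow_natCast (Real.log X ^ e) k, ← Real.rpow_mul (by linarith)]
    have g2 : 1 / 4 * Real.log X ^ ((((N - 1 : ℕ) : ℝ) / N) * (1 - e)) ≤ Real.log (z (N - 1)) ^ (1 - e) := by
      have k1 := le_log_zz (N := N) (κ := N - 1) hX (Nat.sub_le N 1)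
      have k2 : (1 / 4 * Real.log X ^ (((N - 1 : ℕ) : ℝ) / N)) ^ (1 - e) ≤ Real.log (z (N - 1)) ^ (1 - e) :=
        Real.rpow_le_rpow (by positivity) k1 (by linarith)
      rw [Real.mul_rpow (by norm_num) (by positivity), ← Real.rpow_mul hLp.le] at k2
      refine le_trans (mul_le_mul_of_nonneg_right ?_ (by positivity)) k2
      calc (1 / 4 : ℝ) = (1 / 4 : ℝ) ^ (1 : ℝ) := (Real.rpow_one _).symm
        _ ≤ (1 / 4 : ℝ) ^ (1 - e) := Real.rpow_le_rpow_of_exponent_ge (by norm_num) (by norm_num) (by linarith)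
    have g3 : 0 < Real.log X ^ ((((N - 1 : ℕ) : ℝ) / N) * (1 - e)) := by positivity
    have g4 : C * ((1 + 16 / e * C) ^ k * Real.log X ^ (e * k)) / Real.log (z (N - 1)) ^ (1 - e) ≤
        C * ((1 + 16 / e * C) ^ k * Real.log X ^ (e * k)) / (1 / 4 * Real.log X ^ ((((N - 1 : ℕ) : ℝ) / N) * (1 - e))) :=
      div_le_div_of_nonneg_left (by positivity) (by positivity) g2
    have g5 : Real.log X ^ (e * k) / Real.log X ^ ((((N - 1 : ℕ) : ℝ) / N) * (1 - e)) * Real.log X ^ ((κ - δB) + 2 * k * (K₀ * κ) / N) ≤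
        Real.log X ^ (κ - 1 - δB / 2) := by
      rw [← Real.rpow_sub hLp, ← Real.rpow_add hLp]
      refine Real.rpow_le_rpow_of_exponent_le hlX ?_
      have k1 : ((N - 1 : ℕ) : ℝ) / N = 1 - 1 / N := by
        rw [Nat.cast_sub (by omega)]
        field_simp
        push_cast
        ring
      rw [k1]
      have k2 : (1 + 2 * (k : ℝ) * (K₀ * κ)) / N = 1 / N + 2 * k * (K₀ * κ) / N := by ring
      have k3 : 0 ≤ 1 / (N : ℝ) * e := by positivity
      have k4 : (1 - 1 / (N : ℝ)) * (1 - e) = 1 - 1 / N - e + 1 / N * e := by ring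
      rw [k4]
      have k5 : e * k + e = δB / 4 := by
        rw [← hek]
        ring
      linarith
    rw [hC₃]
    calc (N + 1 : ℝ) ^ k * (C * ((1 + 16 / e * C) ^ k * Real.log X ^ (e * k)) / Real.log (z (N - 1)) ^ (1 - e) * X *
          (Real.exp B₀ * Real.log X ^ ((κ - δB) + 2 * k * (K₀ * κ) / N)))
        ≤ (N + 1 : ℝ) ^ k * (C * ((1 + 16 / e * C) ^ k * Real.log X ^ (e * k)) / (1 / 4 * Real.log X ^ ((((N - 1 : ℕ) : ℝ) / N) * (1 - e))) * X *
          (Real.exp B₀ * Real.log X ^ ((κ - δB) + 2 * k * (K₀ * κ) / N))) := by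
          refine mul_le_mul_of_nonneg_left ?_ (by positivity)
          refine mul_le_mul_of_nonneg_right ?_ (by positivity)
          exact mul_le_mul_of_nonneg_right g4 hX0.le
      _ = (N + 1 : ℝ) ^ k * (C * (1 + 16 / e * C) ^ k * 4 * Real.exp B₀) * X *
          (Real.log X ^ (e * k) / Real.log X ^ ((((N - 1 : ℕ) : ℝ) / N) * (1 - e)) * Real.log X ^ ((κ - δB) + 2 * k * (K₀ * κ) / N)) := by
          field_simp
      _ ≤ (N + 1 : ℝ) ^ k * (C * (1 + 16 / e * C) ^ k * 4 * Real.exp B₀) * X * Real.log X ^ (κ - 1 - δB / 2) :=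
          mul_le_mul_of_nonneg_left g5 (by positivity)
      _ = _ := by ring
  have r1 : Real.log X ^ (κ - 1 - 1 / (N : ℝ)) ≤ Real.log X ^ (κ - 1 - η) := rpow_le99 hX (by
    have : η ≤ 1 / (N : ℝ) := by rw [hη]; exact min_le_left _ _
    linarith)
  have r2 : Real.log X ^ (κ - 1 - δA / (N : ℝ)) ≤ Real.log X ^ (κ - 1 - η) := rpow_le99 hX (by
    have : η ≤ δA / (N : ℝ) := by rw [hη]; exact (min_le_right _ _).trans (min_le_left _ _)
    linarith)
  have r3 : Real.log X ^ (κ - 1 - δB / 2) ≤ Real.log X ^ (κ - 1 - η) := rpow_le99 hX (by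
    have : η ≤ δB / 2 := by rw [hη]; exact (min_le_right _ _).trans (min_le_right _ _)
    linarith)
  have s1 : (N : ℝ) * (4 * A * C₁) * Real.log X ^ (κ - 1 - 1 / (N : ℝ)) ≤ (N : ℝ) * (4 * A * C₁) * Real.log X ^ (κ - 1 - η) :=
    mul_le_mul_of_nonneg_left r1 (by positivity)
  have s2 : (N : ℝ) * (Fintype.card (Finset (Fin k)) * C₂) * Real.log X ^ (κ - 1 - δA / (N : ℝ)) ≤
      (N : ℝ) * (Fintype.card (Finset (Fin k)) * C₂) * Real.log X ^ (κ - 1 - η) := mul_le_mul_of_nonneg_left r2 (by positivity)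
  have s3 : C₃ * Real.log X ^ (κ - 1 - δB / 2) ≤ C₃ * Real.log X ^ (κ - 1 - η) := mul_le_mul_of_nonneg_left r3 hC₃0
  have s5 : 0 ≤ C₀ * 4 ^ N * Real.log X ^ (κ - 1 - η) := by positivity
  have s4 : (N : ℝ) * (4 * A * C₁) * Real.log X ^ (κ - 1 - 1 / (N : ℝ)) +
      (N : ℝ) * (Fintype.card (Finset (Fin k)) * C₂) * Real.log X ^ (κ - 1 - δA / (N : ℝ)) + C₃ * Real.log X ^ (κ - 1 - δB / 2) ≤
      (C₀ * 4 ^ N + ((N : ℝ) * (4 * A * C₁) + (N : ℝ) * (Fintype.card (Finset (Fin k)) * C₂) + C₃ + 1)) * Real.log X ^ (κ - 1 - η) := by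
    have e : (C₀ * 4 ^ N + ((N : ℝ) * (4 * A * C₁) + (N : ℝ) * (Fintype.card (Finset (Fin k)) * C₂) + C₃ + 1)) * Real.log X ^ (κ - 1 - η) =
      C₀ * 4 ^ N * Real.log X ^ (κ - 1 - η) + ((N : ℝ) * (4 * A * C₁) * Real.log X ^ (κ - 1 - η) +
        (N : ℝ) * (Fintype.card (Finset (Fin k)) * C₂) * Real.log X ^ (κ - 1 - η) +
        C₃ * Real.log X ^ (κ - 1 - η) + Real.log X ^ (κ - 1 - η)) := by ring
    rw [e]
    linarith
  calc (S.card : ℝ) ≤ X * ((N : ℝ) * (4 * A * C₁) * Real.log X ^ (κ - 1 - 1 / (N : ℝ))) +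
        X * ((N : ℝ) * (Fintype.card (Finset (Fin k)) * C₂) * Real.log X ^ (κ - 1 - δA / (N : ℝ))) + X * (C₃ * Real.log X ^ (κ - 1 - δB / 2)) := by linarith
    _ = X * ((N : ℝ) * (4 * A * C₁) * Real.log X ^ (κ - 1 - 1 / (N : ℝ)) +
        (N : ℝ) * (Fintype.card (Finset (Fin k)) * C₂) * Real.log X ^ (κ - 1 - δA / (N : ℝ)) + C₃ * Real.log X ^ (κ - 1 - δB / 2)) := by ring
    _ ≤ X * ((C₀ * 4 ^ N + ((N : ℝ) * (4 * A * C₁) + (N : ℝ) * (Fintype.card (Finset (Fin k)) * C₂) + C₃ + 1)) * Real.log X ^ (κ - 1 - η)) :=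
        mul_le_mul_of_nonneg_left s4 hX0.le
    _ = _ := by ring

/-! ## The restriction to a set of primes -/

open Classical in
/-- the restriction of the data to the primes of `R` and the excluded primes -/
noncomputable def res (D : CD k G) (R : Set D.P) : CD k G where
  P := {p : D.P // p ∈ R ∨ p ∈ D.Ex}
  nm := fun p => D.nm p.1
  Ex := D.Ex.subtype (fun p => p ∈ R ∨ p ∈ D.Ex)
  O := D.O
  ι := D.ι
  V := fun p => D.V p.1
  cmp := D.cmp
  I := fun p o j => D.I p.1 o j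
  χ := fun p i q o => D.χ p.1 i q.1 o
  g := fun p o i => D.g p.1 o i

section res

variable {D : CD k G} {R : Set D.P}

theorem mem_Ex_res {p : (res D R).P} : p ∈ (res D R).Ex ↔ p.1 ∈ D.Ex := by
  classical
  exact Finset.mem_subtype

/-- the image in the old set of primes -/
noncomputable def up (S : Finset (res D R).P) : Finset D.P :=
  S.map (Function.Embedding.subtype fun p => p ∈ R ∨ p ∈ D.Ex)

theorem mem_up {S : Finset (res D R).P} {p : D.P} : p ∈ up S ↔ ∃ h : p ∈ R ∨ p ∈ D.Ex, (⟨p, h⟩ : (res D R).P) ∈ S := by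
  unfold up
  rw [Finset.mem_map]
  constructor
  · rintro ⟨⟨q, hq⟩, h1, h2⟩
    change q = p at h2
    subst h2
    exact ⟨hq, h1⟩
  · rintro ⟨h, hS⟩
    exact ⟨⟨p, h⟩, hS, rfl⟩

theorem val_mem_up {S : Finset (res D R).P} {p : (res D R).P} : p.1 ∈ up S ↔ p ∈ S := by
  rw [mem_up]
  constructor
  · rintro ⟨h, hS⟩
    exact hS
  · exact fun h => ⟨p.2, h⟩

theorem sum_up {S : Finset (res D R).P} (f : D.P → ℝ) : ∑ p ∈ up S, f p = ∑ p ∈ S, f p.1 := by
  unfold up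
  rw [Finset.sum_map]
  rfl

theorem card_up {S : Finset (res D R).P} : (up S).card = S.card :=
  Finset.card_map _

theorem up_mono {S T : Finset (res D R).P} (h : S ⊆ T) : up S ⊆ up T := by
  intro p hp
  obtain ⟨h1, h2⟩ := mem_up.mp hp
  exact mem_up.mpr ⟨h1, h h2⟩

theorem Nm_up {S : Finset (res D R).P} : Nm D (up S) = Nm (res D R) S := by
  unfold up Nm
  rw [Finset.prod_map]
  rfl

theorem sys_res {κ : ℝ} (h : SysR D.P D.nm R κ) : SysW (res D R).P (res D R).nm ∧ MertK (res D R) κ := by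
  classical
  obtain ⟨C, hC⟩ := h.mert
  have hM : ∀ y x : ℕ, 2 ≤ y → y ≤ x → ∀ S : Finset (res D R).P, (∀ p ∈ S, y < (res D R).nm p ∧ (res D R).nm p ≤ x) →
      ∑ p ∈ S, (1 : ℝ) / (res D R).nm p ≤ κ * (Real.log (Real.log x) - Real.log (Real.log y)) + (C + D.Ex.card) := by
    intro y x hy hx S hS
    have h1 : ∑ p ∈ S, (1 : ℝ) / (res D R).nm p = ∑ p ∈ up S, (1 : ℝ) / D.nm p := (sum_up fun p => (1 : ℝ) / D.nm p).symm
    rw [h1, ← Finset.sum_filter_add_sum_filter_not (up S) (fun p => p ∈ R)]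
    have h2 := hC y x hy hx ((up S).filter fun p => p ∈ R) (by
      intro p hp
      obtain ⟨g1, g2⟩ := Finset.mem_filter.mp hp
      obtain ⟨g3, g4⟩ := mem_up.mp g1
      exact ⟨g2, hS _ g4⟩)
    have h3 : ∑ p ∈ (up S).filter (fun p => ¬ p ∈ R), (1 : ℝ) / D.nm p ≤ D.Ex.card := by
      have h4 : ∑ p ∈ (up S).filter (fun p => ¬ p ∈ R), (1 : ℝ) / D.nm p ≤ ∑ p ∈ (up S).filter (fun p => ¬ p ∈ R), (1 : ℝ) := by
        refine Finset.sum_le_sum fun p _ => ?_
        have : (2 : ℝ) ≤ D.nm p := by exact_mod_cast h.two p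
        rw [div_le_one (by linarith)]
        linarith
      rw [Finset.sum_const, nsmul_eq_mul, mul_one] at h4
      refine h4.trans ?_
      have h5 : (up S).filter (fun p => ¬ p ∈ R) ⊆ D.Ex := by
        intro p hp
        obtain ⟨g1, g2⟩ := Finset.mem_filter.mp hp
        obtain ⟨g3, _⟩ := mem_up.mp g1
        exact g3.resolve_left g2
      exact_mod_cast Finset.card_le_card h5
    linarith
  refine ⟨⟨fun p => h.two p.1, fun x => ?_, ?_⟩, C + D.Ex.card, hM⟩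
  · exact (h.fin x).preimage (f := fun p : (res D R).P => p.1) (fun a _ b _ e => Subtype.ext e)
  · obtain ⟨C', hC'⟩ := h.cheb
    refine ⟨C', fun x S hS => ?_⟩
    have h1 : ∑ p ∈ S, Real.log ((res D R).nm p) = ∑ p ∈ up S, Real.log (D.nm p) := (sum_up fun p => Real.log (D.nm p)).symm
    rw [h1]
    refine hC' x (up S) fun p hp => ?_
    obtain ⟨g1, g2⟩ := mem_up.mp hp
    exact hS _ g2

theorem TA_res {J : Finset (Fin k)} (h : TAR D R J) : TA (res D R) J := by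
  classical
  obtain ⟨δ, C, hδ, h⟩ := h
  refine ⟨δ, C, hδ, fun y x hy hx S hS => ?_⟩
  have h1 := h y x hy hx (up S) (by
    intro p
    rw [mem_up]
    constructor
    · rintro ⟨g1, g2⟩
      obtain ⟨k1, k2, k3, k4⟩ := (hS _).mp g2
      have k5 : p ∉ D.Ex := fun g => k1 (mem_Ex_res.mpr g)
      exact ⟨g1.resolve_right k5, k5, k2, k3, k4⟩
    · rintro ⟨g1, g2, g3, g4, g5⟩
      exact ⟨Or.inl g1, (hS _).mpr ⟨fun g => g2 (mem_Ex_res.mp g), g3, g4, g5⟩⟩)
  rw [sum_up fun p => (1 : ℝ) / D.nm p] at h1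
  exact h1

theorem TB_res {κ : ℝ} {J : Finset (Fin k)} (h : TBRb D b R κ J) : TBK (res D R) b κ J := by
  classical
  obtain ⟨hJ, δ, C, hδ, h⟩ := h
  refine ⟨hJ, δ, C, hδ, fun y x hy hx S hS => ?_⟩
  have h1 := h y x hy hx (up S) (by
    intro p
    rw [mem_up]
    constructor
    · rintro ⟨g1, g2⟩
      obtain ⟨k1, k2, k3⟩ := (hS _).mp g2
      have k5 : p ∉ D.Ex := fun g => k1 (mem_Ex_res.mpr g)
      exact ⟨g1.resolve_right k5, k5, k2, k3⟩
    · rintro ⟨g1, g2, g3, g4⟩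
      exact ⟨Or.inl g1, (hS _).mpr ⟨fun g => g2 (mem_Ex_res.mp g), g3, g4⟩⟩)
  rw [sum_up fun p => WJb D b J p / D.nm p] at h1
  exact h1

theorem BT_res (o₀ : D.O) [CommGroup G] {Ok : Finset D.P → Prop} (h : BTb D b Ok) : BTb (res D R) b (fun m => Ok (up m)) := by
  classical
  intro ε hε
  obtain ⟨C, A, hC, h⟩ := h ε hε
  refine ⟨C, A, hC, fun j m hm hOm τ hτ t x hx hmx S hS => ?_⟩
  have h1 := h j (up m) (by
    intro p hp g
    obtain ⟨g1, g2⟩ := mem_up.mp hp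
    exact hm _ g2 (mem_Ex_res.mpr g)) hOm
    (fun p => if h : p ∈ R ∨ p ∈ D.Ex then τ ⟨p, h⟩ else o₀) (by
      intro p hp
      obtain ⟨g1, g2⟩ := mem_up.mp hp
      rw [dif_pos g1]
      exact hτ _ g2)
    (fun p i => if h : p ∈ R ∨ p ∈ D.Ex then t ⟨p, h⟩ i else 1) x hx (by
      rw [Nm_up]
      exact hmx) (up S) (by
      intro Q hQ
      obtain ⟨g1, g2⟩ := mem_up.mp hQ
      obtain ⟨k1, k2, ⟨m', hm1, hm2, hm3⟩, k3, o, k4, k5, k6⟩ := hS _ g2
      refine ⟨fun g => k1 (mem_Ex_res.mpr g), fun g => ?_, ⟨up m', hm1, mem_up.mpr ⟨g1, hm2⟩, up_mono hm3⟩, k3, o, k4, k5, ?_⟩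
      · exact k2 (by
          obtain ⟨_, g4⟩ := mem_up.mp g
          exact g4)
      · intro p hp i hi
        obtain ⟨g3, g4⟩ := mem_up.mp hp
        rw [dif_pos g3] at hi
        have g5 := k6 _ g4 i hi
        rw [dif_pos g3]
        exact g5)
  rw [card_up] at h1
  refine h1.trans (le_of_eq ?_)
  congr 2
  unfold up
  rw [Finset.prod_map]
  refine Finset.prod_congr rfl fun p _ => ?_
  have e : (if h : p.1 ∈ R ∨ p.1 ∈ D.Ex then τ ⟨p.1, h⟩ else o₀) = τ p := dif_pos p.2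
  exact congrArg (fun o => b ^ (D.I p.1 o j).card) e

theorem pf_up {S : Finset (res D R).P} : pf D (up S) = up (pf (res D R) S) := by
  ext p
  rw [mem_pf, mem_up, mem_up]
  constructor
  · rintro ⟨⟨h, g⟩, g2⟩
    exact ⟨h, mem_pf.mpr ⟨g, fun g3 => g2 (mem_Ex_res.mp g3)⟩⟩
  · rintro ⟨h, g⟩
    obtain ⟨g1, g2⟩ := mem_pf.mp g
    exact ⟨⟨h, g1⟩, fun g3 => g2 (mem_Ex_res.mpr g3)⟩

theorem Bad_res [CommGroup G] {S : Finset (res D R).P} (h : Bad D (up S)) : Bad (res D R) S := by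
  classical
  obtain ⟨τ, h⟩ := h
  refine ⟨fun p => τ p.1, fun p hp => ?_⟩
  have hp' : p.1 ∈ pf D (up S) := by
    rw [pf_up]
    exact val_mem_up.mpr hp
  obtain ⟨h1, h2⟩ := h p.1 hp'
  refine ⟨h1, fun j i hi => ?_⟩
  refine Eq.trans ?_ (h2 j i hi)
  refine Finset.prod_bij (fun q _ => q.1) ?_ ?_ ?_ ?_
  · intro q hq
    obtain ⟨g1, g2, g3⟩ := Finset.mem_filter.mp hq
    refine Finset.mem_filter.mpr ⟨?_, fun e => g2 (Subtype.ext e), g3⟩
    rw [pf_up]
    exact val_mem_up.mpr g1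
  · intro a _ b _ e
    exact Subtype.ext e
  · intro q hq
    obtain ⟨g1, g2, g3⟩ := Finset.mem_filter.mp hq
    rw [pf_up] at g1
    obtain ⟨g4, g5⟩ := mem_up.mp g1
    exact ⟨⟨q, g4⟩, Finset.mem_filter.mpr ⟨g5, fun e => g2 (congrArg Subtype.val e), g3⟩, rfl⟩
  · intro q _
    rfl

end res

open Classical in
/-- the counting theorem -/
theorem countL : StmtCountL := by
  intro k G _ D b hb hb1 Ok hOk R κ hκ0 hS hV hBT hTAB
  -- the trivial case
  by_cases hO : Nonempty D.O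
  swap
  · refine ⟨1, 4, one_pos, by norm_num, fun X hX S hSc => ?_⟩
    have hsub : S ⊆ {∅} := by
      intro c hc
      obtain ⟨τ, _⟩ := (hSc c hc).2.2.2
      rw [Finset.mem_singleton, Finset.eq_empty_iff_forall_notMem]
      intro p _
      exact hO ⟨τ p⟩
    have h1 : S.card ≤ 1 := by
      have := Finset.card_le_card hsub
      simpa using this
    have h2 : (S.card : ℝ) ≤ 1 := by exact_mod_cast h1
    have h3 := log_ge_one hX
    have hX0 : (0 : ℝ) < X := by exact_mod_cast (by omega : 0 < X)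
    have h4 : Real.log X ^ 2 ≤ 4 * X := by
      have g1 := Real.log_le_sub_one_of_pos (Real.sqrt_pos.mpr hX0)
      rw [Real.log_sqrt hX0.le] at g1
      have g2 := Real.sq_sqrt hX0.le
      have g3 : Real.log X ≤ 2 * Real.sqrt X := by linarith
      nlinarith [Real.sqrt_nonneg (X : ℝ)]
    have h5 : Real.log X ^ (-2 : ℝ) ≤ Real.log X ^ (κ - 1 - 1) := rpow_le99 hX (by linarith)
    have h6 : Real.log X ^ (-2 : ℝ) = (Real.log X ^ 2)⁻¹ := by
      rw [Real.rpow_neg (by linarith)]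
      norm_num
    have h7 : 1 ≤ 4 * X * Real.log X ^ (-2 : ℝ) := by
      rw [h6, ← div_eq_mul_inv, le_div_iff₀ (by positivity), one_mul]
      exact h4
    calc (S.card : ℝ) ≤ 4 * X * Real.log X ^ (-2 : ℝ) := h2.trans h7
      _ ≤ _ := mul_le_mul_of_nonneg_left h5 (by positivity)
  obtain ⟨o₀⟩ := hO
  obtain ⟨h1, h2⟩ := sys_res hS
  obtain ⟨K, hK⟩ := hV
  obtain ⟨η, C, hη, hC, h⟩ := countK99 (res D R) hκ0 hb hb1 h1 h2 ⟨K, fun p => hK p.1⟩
    (Ok := fun m => Ok (up m)) (fun m c hmc hc => hOk _ _ (up_mono hmc) hc) (BT_res o₀ hBT)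
    (fun J => (hTAB J).imp TA_res TB_res) o₀
  refine ⟨η, C, hη, hC, fun X hX S hSc => ?_⟩
  set f : Finset D.P → Finset (res D R).P := fun c => c.subtype (fun p => p ∈ R ∨ p ∈ D.Ex) with hf
  have hup : ∀ c ∈ S, up (f c) = c := by
    intro c hc
    ext p
    rw [mem_up]
    constructor
    · rintro ⟨g1, g2⟩
      exact Finset.mem_subtype.mp g2
    · intro hp
      have g1 : p ∈ R ∨ p ∈ D.Ex := by
        by_cases g : p ∈ D.Ex
        · exact Or.inr g
        · exact Or.inl ((hSc c hc).2.1 p (mem_pf.mpr ⟨hp, g⟩))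
      exact ⟨g1, Finset.mem_subtype.mpr hp⟩
  have hcard : S.card = (S.image f).card := by
    rw [Finset.card_image_of_injOn]
    intro c hc c' hc' e
    rw [← hup c hc, ← hup c' hc']
    exact congrArg up e
  rw [hcard]
  refine h X hX (S.image f) fun c' hc' => ?_
  obtain ⟨c, hc, rfl⟩ := Finset.mem_image.mp hc'
  obtain ⟨g1, g2, g4, g3⟩ := hSc c hc
  rw [← hup c hc] at g1 g3 g4
  rw [Nm_up] at g1
  exact ⟨g1, g4, Bad_res g3⟩

/-- the case `b = 1/2` -/
theorem countK_all (k : ℕ) (G : Type) [CommGroup G] (D : CD k G) (R : Set D.P) (κ : ℝ) (hκ : 0 < κ)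
    (hS : SysR D.P D.nm R κ) (hV : ∃ K : ℕ, ∀ p, (D.V p).card ≤ K) (hBT : Pool.Agent.Helper99.HG.BT D)
    (h : ∀ J : Finset (Fin k), TAR D R J ∨ Pool.Agent.MP.TBR D R κ J) :
    ∃ η C : ℝ, 0 < η ∧ 0 < C ∧ ∀ X : ℕ, 3 ≤ X → ∀ S : Finset (Finset D.P),
      (∀ c ∈ S, Nm D c ≤ X ∧ (∀ p ∈ pf D c, p ∈ R) ∧ Bad D c) →
      (S.card : ℝ) ≤ C * X * Real.log X ^ (κ - 1 - η) := by
  have hBT' : BTb D (1 / 2) (fun _ => True) := by
    intro ε hε
    obtain ⟨C, A, hC, h1⟩ := hBT ε hε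
    exact ⟨C, A, hC, fun j m hm _ τ hτ t x hx hmx S hS =>
      h1 j m hm τ hτ t x hx hmx S fun Q hQ => ⟨(hS Q hQ).1, (hS Q hQ).2.1, (hS Q hQ).2.2.2⟩⟩
  obtain ⟨η, C, h1, h2, h3⟩ := countL k G D (1 / 2) (by norm_num) (by norm_num) (fun _ => True) (fun _ _ _ _ => trivial) R κ hκ hS hV hBT' h
  exact ⟨η, C, h1, h2, fun X hX S hSc => h3 X hX S fun c hc => ⟨(hSc c hc).1, (hSc c hc).2.1, trivial, (hSc c hc).2.2⟩⟩

end Pool.Agent.Helper99.ML
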