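import Pool.Agent.Helper13.MP.Defs

/-!
# Counting relative to a set of primes, with base `b` for the conditions and any density `κ > 0`

`Ok`: the sets of primes which are considered (closed under subsets).
-/

set_option autoImplicit false

namespace Pool.Agent.Helper99.ML

open Pool.Agent.Helper99.HG (CD pf Nm Bad)
open Pool.Agent.MP (SysR TAR)

variable {k : ℕ} {G : Type}

/-- few primes satisfy the conditions; a condition holds with probability `b` -/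
def BTb (D : CD k G) (b : ℝ) (Ok : Finset D.P → Prop) : Prop :=
  ∀ ε : ℝ, 0 < ε → ∃ (C : ℝ) (A : ℕ), 0 < C ∧ ∀ (j : Fin k) (m : Finset D.P), (∀ p ∈ m, p ∉ D.Ex) → Ok m →
    ∀ τ : D.P → D.O, (∀ p ∈ m, τ p ∈ D.V p) → ∀ t : D.P → D.ι → G, ∀ h : ℕ, 2 ≤ h → Nm D m ^ A ≤ h →
    ∀ S : Finset D.P, (∀ Q ∈ S, Q ∉ D.Ex ∧ Q ∉ m ∧ (∃ m' : Finset D.P, Ok m' ∧ Q ∈ m' ∧ m ⊆ m') ∧ D.nm Q ≤ h ∧
      ∃ o ∈ D.V Q, D.cmp o = j ∧ ∀ p ∈ m, ∀ i ∈ D.I p (τ p) j, D.χ p i Q o = t p i) →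
    (S.card : ℝ) ≤ C * (∏ p ∈ m, b ^ (D.I p (τ p) j).card) * (h / Real.log h ^ (1 - ε))

/-- the weight of the prime `p` for the set of components `J` -/
noncomputable def WJb (D : CD k G) (b : ℝ) (J : Finset (Fin k)) (p : D.P) : ℝ :=
  ∑ o ∈ (D.V p).filter (fun o => D.cmp o ∈ J), b ^ (∑ j ∈ J, (D.I p o j).card)

/-- the weights are less than `κ` in the mean -/
def TBRb (D : CD k G) (b : ℝ) (R : Set D.P) (κ : ℝ) (J : Finset (Fin k)) : Prop :=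
  J.Nonempty ∧ ∃ δ C : ℝ, 0 < δ ∧ ∀ y x : ℕ, 2 ≤ y → y ≤ x → ∀ S : Finset D.P,
    (∀ p, p ∈ S ↔ p ∈ R ∧ p ∉ D.Ex ∧ y < D.nm p ∧ D.nm p ≤ x) →
    ∑ p ∈ S, WJb D b J p / D.nm p ≤
      (κ - δ) * (Real.log (Real.log x) - Real.log (Real.log y)) + C

/-- The counting theorem, relative form, base `b`, any `κ > 0`. -/
def StmtCountL : Prop :=
  ∀ (k : ℕ) (G : Type) [CommGroup G] (D : CD k G) (b : ℝ), 0 < b → b ≤ 1 → ∀ Ok : Finset D.P → Prop,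
    (∀ m c, m ⊆ c → Ok c → Ok m) → ∀ (R : Set D.P) (κ : ℝ), 0 < κ →
    SysR D.P D.nm R κ → (∃ K : ℕ, ∀ p, (D.V p).card ≤ K) → BTb D b Ok →
    (∀ J : Finset (Fin k), TAR D R J ∨ TBRb D b R κ J) →
    ∃ η C : ℝ, 0 < η ∧ 0 < C ∧ ∀ X : ℕ, 3 ≤ X → ∀ S : Finset (Finset D.P),
      (∀ c ∈ S, Nm D c ≤ X ∧ (∀ p ∈ pf D c, p ∈ R) ∧ Ok c ∧ Bad D c) →
      (S.card : ℝ) ≤ C * X * Real.log X ^ (κ - 1 - η)

end Pool.Agent.Helper99.ML
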