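import Mathlib

/-!
# Products of two sequences with log-power counting functions
-/

set_option autoImplicit false

namespace Pool.Agent.Helper99.ML

theorem sum_rpow99 (β : ℝ) (hβ : 0 < β) : ∃ C : ℝ, 0 < C ∧ ∀ n : ℕ,
    ∑ b ∈ Finset.range n, ((b : ℝ) + 1) ^ (β - 1) ≤ C * (n : ℝ) ^ β := by
  by_cases h1 : β ≤ 1
  · refine ⟨1 / β, by positivity, fun n => ?_⟩
    induction n with
    | zero => simp [Real.zero_rpow hβ.ne']
    | succ n ih =>
      rw [Finset.sum_range_succ]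
      have hn : (0 : ℝ) < (n : ℝ) + 1 := by positivity
      have hs : (-1 : ℝ) ≤ -(1 / ((n : ℝ) + 1)) := by
        have : 1 / ((n : ℝ) + 1) ≤ 1 := by
          rw [div_le_one hn]; linarith [Nat.cast_nonneg (α := ℝ) n]
        linarith
      have hb := rpow_one_add_le_one_add_mul_self hs hβ.le h1
      have e1 : (1 : ℝ) + -(1 / ((n : ℝ) + 1)) = (n : ℝ) / ((n : ℝ) + 1) := by
        field_simp
        ring
      rw [e1, Real.div_rpow (Nat.cast_nonneg n) hn.le] at hb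
      have hp : (0 : ℝ) < ((n : ℝ) + 1) ^ β := Real.rpow_pos_of_pos hn β
      have hb2 : (n : ℝ) ^ β ≤ (1 + β * -(1 / ((n : ℝ) + 1))) * ((n : ℝ) + 1) ^ β := by
        rwa [div_le_iff₀ hp] at hb
      have e2 : ((n : ℝ) + 1) ^ (β - 1) = ((n : ℝ) + 1) ^ β / ((n : ℝ) + 1) := by
        rw [Real.rpow_sub hn, Real.rpow_one]
      have hc : ((n + 1 : ℕ) : ℝ) = (n : ℝ) + 1 := by push_cast; ring
      rw [hc, e2]
      have e3 : (1 + β * -(1 / ((n : ℝ) + 1))) * ((n : ℝ) + 1) ^ β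
          = ((n : ℝ) + 1) ^ β - β * (((n : ℝ) + 1) ^ β / ((n : ℝ) + 1)) := by
        field_simp
        ring
      rw [e3] at hb2
      have h4 : 1 / β * (n : ℝ) ^ β ≤ 1 / β * (((n : ℝ) + 1) ^ β - β * (((n : ℝ) + 1) ^ β / ((n : ℝ) + 1))) :=
        mul_le_mul_of_nonneg_left hb2 (by positivity)
      have e5 : 1 / β * (((n : ℝ) + 1) ^ β - β * (((n : ℝ) + 1) ^ β / ((n : ℝ) + 1)))
          = 1 / β * ((n : ℝ) + 1) ^ β - ((n : ℝ) + 1) ^ β / ((n : ℝ) + 1) := by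
        field_simp
      linarith
  · push Not at h1
    refine ⟨1, one_pos, fun n => ?_⟩
    rcases Nat.eq_zero_or_pos n with h | hn
    · subst h; simp [Real.zero_rpow hβ.ne']
    have hn' : (0 : ℝ) < (n : ℝ) := by exact_mod_cast hn
    calc ∑ b ∈ Finset.range n, ((b : ℝ) + 1) ^ (β - 1)
        ≤ ∑ _b ∈ Finset.range n, (n : ℝ) ^ (β - 1) := by
          refine Finset.sum_le_sum fun b hb => ?_
          have : (b : ℝ) + 1 ≤ (n : ℝ) := by exact_mod_cast Finset.mem_range.mp hb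
          exact Real.rpow_le_rpow (by positivity) this (by linarith)
      _ = (n : ℝ) * (n : ℝ) ^ (β - 1) := by simp
      _ = 1 * (n : ℝ) ^ β := by
          rw [Real.rpow_sub hn', Real.rpow_one]; field_simp

/-- a real number between `n / 2` and `n` -/
theorem rpow_half99 (s : ℝ) {a n : ℝ} (hn : 0 < n) (h1 : n / 2 ≤ a) (h2 : a ≤ n) :
    a ^ s ≤ (1 + (2 : ℝ) ^ (-s)) * n ^ s := by
  have ha : 0 < a := by linarith
  have hp : 0 < n ^ s := Real.rpow_pos_of_pos hn s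
  have h2p : (0 : ℝ) < (2 : ℝ) ^ (-s) := Real.rpow_pos_of_pos two_pos _
  rcases le_or_gt 0 s with hs | hs
  · calc a ^ s ≤ n ^ s := Real.rpow_le_rpow ha.le h2 hs
      _ ≤ (1 + (2 : ℝ) ^ (-s)) * n ^ s := by nlinarith
  · calc a ^ s ≤ (n / 2) ^ s := Real.rpow_le_rpow_of_nonpos (by positivity) h1 hs.le
      _ = (2 : ℝ) ^ (-s) * n ^ s := by
          rw [Real.div_rpow hn.le (by norm_num), Real.rpow_neg (by norm_num)]
          field_simp
      _ ≤ (1 + (2 : ℝ) ^ (-s)) * n ^ s := by nlinarith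

theorem beta99 (α β : ℝ) (hα : 0 < α) (hβ : 0 < β) : ∃ C : ℝ, 0 < C ∧ ∀ K : ℕ,
    ∑ k ∈ Finset.range (K + 1), ((K : ℝ) + 2 - k) ^ (α - 1) * ((k : ℝ) + 2) ^ (β - 1)
      ≤ C * ((K : ℝ) + 2) ^ (α + β - 1) := by
  obtain ⟨Ca, hCa, ha⟩ := sum_rpow99 α hα
  obtain ⟨Cb, hCb, hb⟩ := sum_rpow99 β hβ
  have hshift : ∀ (γ Cg : ℝ), (∀ n : ℕ, ∑ b ∈ Finset.range n, ((b : ℝ) + 1) ^ (γ - 1) ≤ Cg * (n : ℝ) ^ γ) →
      ∀ K : ℕ, ∑ k ∈ Finset.range (K + 1), ((k : ℝ) + 2) ^ (γ - 1) ≤ Cg * ((K : ℝ) + 2) ^ γ := by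
    intro γ Cg h K
    have h1 := h (K + 2)
    rw [Finset.sum_range_succ'] at h1
    have e : ∀ k : ℕ, ((k + 1 : ℕ) : ℝ) + 1 = (k : ℝ) + 2 := by intro k; push_cast; ring
    simp only [e] at h1
    have e2 : ((K + 2 : ℕ) : ℝ) = (K : ℝ) + 2 := by push_cast; ring
    rw [e2] at h1
    have h0 : (0 : ℝ) ≤ (((0 : ℕ) : ℝ) + 1) ^ (γ - 1) := by positivity
    linarith
  refine ⟨(1 + (2 : ℝ) ^ (-(α - 1))) * Cb + (1 + (2 : ℝ) ^ (-(β - 1))) * Ca, by positivity, fun K => ?_⟩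
  have hn : (0 : ℝ) < (K : ℝ) + 2 := by positivity
  have hterm : ∀ k ∈ Finset.range (K + 1), ((K : ℝ) + 2 - k) ^ (α - 1) * ((k : ℝ) + 2) ^ (β - 1)
      ≤ (1 + (2 : ℝ) ^ (-(α - 1))) * ((K : ℝ) + 2) ^ (α - 1) * ((k : ℝ) + 2) ^ (β - 1)
        + (1 + (2 : ℝ) ^ (-(β - 1))) * ((K : ℝ) + 2) ^ (β - 1) * ((K : ℝ) + 2 - k) ^ (α - 1) := by
    intro k hk
    have hk' : (k : ℝ) ≤ (K : ℝ) := by exact_mod_cast Nat.lt_succ_iff.mp (Finset.mem_range.mp hk)
    have hk0 : (0 : ℝ) ≤ (k : ℝ) := Nat.cast_nonneg k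
    have hA : (0 : ℝ) < ((K : ℝ) + 2 - k) := by linarith
    have hB : (0 : ℝ) < (k : ℝ) + 2 := by linarith
    have pA : (0 : ℝ) < ((K : ℝ) + 2 - k) ^ (α - 1) := Real.rpow_pos_of_pos hA _
    have pB : (0 : ℝ) < ((k : ℝ) + 2) ^ (β - 1) := Real.rpow_pos_of_pos hB _
    rcases le_or_gt (((K : ℝ) + 2) / 2) ((K : ℝ) + 2 - k) with h | h
    · have := rpow_half99 (α - 1) hn h (by linarith)
      have h3 : ((K : ℝ) + 2 - k) ^ (α - 1) * ((k : ℝ) + 2) ^ (β - 1)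
        ≤ (1 + (2 : ℝ) ^ (-(α - 1))) * ((K : ℝ) + 2) ^ (α - 1) * ((k : ℝ) + 2) ^ (β - 1) :=
        mul_le_mul_of_nonneg_right this pB.le
      have h4 : 0 ≤ (1 + (2 : ℝ) ^ (-(β - 1))) * ((K : ℝ) + 2) ^ (β - 1) * ((K : ℝ) + 2 - k) ^ (α - 1) := by
        positivity
      linarith
    · have := rpow_half99 (β - 1) hn (a := (k : ℝ) + 2) (by linarith) (by linarith)
      have h3 : ((k : ℝ) + 2) ^ (β - 1) * ((K : ℝ) + 2 - k) ^ (α - 1)
        ≤ (1 + (2 : ℝ) ^ (-(β - 1))) * ((K : ℝ) + 2) ^ (β - 1) * ((K : ℝ) + 2 - k) ^ (α - 1) :=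
        mul_le_mul_of_nonneg_right this pA.le
      have h4 : 0 ≤ (1 + (2 : ℝ) ^ (-(α - 1))) * ((K : ℝ) + 2) ^ (α - 1) * ((k : ℝ) + 2) ^ (β - 1) := by
        positivity
      rw [mul_comm (((k : ℝ) + 2) ^ (β - 1))] at h3
      linarith
  have hrefl : ∑ k ∈ Finset.range (K + 1), ((K : ℝ) + 2 - k) ^ (α - 1)
      = ∑ k ∈ Finset.range (K + 1), ((k : ℝ) + 2) ^ (α - 1) := by
    rw [← Finset.sum_range_reflect]
    refine Finset.sum_congr rfl fun k hk => ?_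
    have hk' : k ≤ K := Nat.lt_succ_iff.mp (Finset.mem_range.mp hk)
    have : ((K + 1 - 1 - k : ℕ) : ℝ) = (K : ℝ) - k := by
      rw [Nat.add_sub_cancel, Nat.cast_sub hk']
    rw [this]
    congr 1
    ring
  calc _ ≤ ∑ k ∈ Finset.range (K + 1), ((1 + (2 : ℝ) ^ (-(α - 1))) * ((K : ℝ) + 2) ^ (α - 1) * ((k : ℝ) + 2) ^ (β - 1)
        + (1 + (2 : ℝ) ^ (-(β - 1))) * ((K : ℝ) + 2) ^ (β - 1) * ((K : ℝ) + 2 - k) ^ (α - 1)) :=
        Finset.sum_le_sum hterm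
    _ = (1 + (2 : ℝ) ^ (-(α - 1))) * ((K : ℝ) + 2) ^ (α - 1) * ∑ k ∈ Finset.range (K + 1), ((k : ℝ) + 2) ^ (β - 1)
        + (1 + (2 : ℝ) ^ (-(β - 1))) * ((K : ℝ) + 2) ^ (β - 1) * ∑ k ∈ Finset.range (K + 1), ((k : ℝ) + 2) ^ (α - 1) := by
        rw [Finset.sum_add_distrib, ← Finset.mul_sum, ← Finset.mul_sum, hrefl]
    _ ≤ (1 + (2 : ℝ) ^ (-(α - 1))) * ((K : ℝ) + 2) ^ (α - 1) * (Cb * ((K : ℝ) + 2) ^ β)
        + (1 + (2 : ℝ) ^ (-(β - 1))) * ((K : ℝ) + 2) ^ (β - 1) * (Ca * ((K : ℝ) + 2) ^ α) := by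
        have p1 : (0 : ℝ) ≤ (1 + (2 : ℝ) ^ (-(α - 1))) * ((K : ℝ) + 2) ^ (α - 1) := by positivity
        have p2 : (0 : ℝ) ≤ (1 + (2 : ℝ) ^ (-(β - 1))) * ((K : ℝ) + 2) ^ (β - 1) := by positivity
        exact add_le_add (mul_le_mul_of_nonneg_left (hshift β Cb hb K) p1)
          (mul_le_mul_of_nonneg_left (hshift α Ca ha K) p2)
    _ = _ := by
        have e1 : ((K : ℝ) + 2) ^ (α - 1) * ((K : ℝ) + 2) ^ β = ((K : ℝ) + 2) ^ (α + β - 1) := by
          rw [← Real.rpow_add hn]; congr 1; ring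
        have e2 : ((K : ℝ) + 2) ^ (β - 1) * ((K : ℝ) + 2) ^ α = ((K : ℝ) + 2) ^ (α + β - 1) := by
          rw [← Real.rpow_add hn]; congr 1; ring
        calc _ = (1 + (2 : ℝ) ^ (-(α - 1))) * Cb * (((K : ℝ) + 2) ^ (α - 1) * ((K : ℝ) + 2) ^ β)
            + (1 + (2 : ℝ) ^ (-(β - 1))) * Ca * (((K : ℝ) + 2) ^ (β - 1) * ((K : ℝ) + 2) ^ α) := by ring
          _ = _ := by rw [e1, e2]; ring

/-- **Products.**  If the elements of norm at most `X` of one class are `≤ C X (log X)^(α-1)` and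
those of the other are `≤ C' X (log X)^(β-1)`, then the pairs with product of the norms at most `X`
are `≤ C'' X (log X)^(α+β-1)`. -/
theorem free99 (α β : ℝ) (hα : 0 < α) (hβ : 0 < β) (C C' : ℝ) (hC : 0 ≤ C) (hC' : 0 ≤ C') :
    ∃ C'' : ℝ, 0 < C'' ∧ ∀ (I J : Type) (N : I → ℕ) (N' : J → ℕ), (∀ i, 1 ≤ N i) → (∀ j, 1 ≤ N' j) →
      ∀ (OkI : I → Prop) (OkJ : J → Prop),
      (∀ X : ℕ, 3 ≤ X → ∀ S : Finset I, (∀ i ∈ S, N i ≤ X ∧ OkI i) →
        (S.card : ℝ) ≤ C * X * Real.log X ^ (α - 1)) →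
      (∀ X : ℕ, 3 ≤ X → ∀ S : Finset J, (∀ j ∈ S, N' j ≤ X ∧ OkJ j) →
        (S.card : ℝ) ≤ C' * X * Real.log X ^ (β - 1)) →
      ∀ X : ℕ, 3 ≤ X → ∀ S : Finset (I × J), (∀ p ∈ S, N p.1 * N' p.2 ≤ X ∧ OkI p.1 ∧ OkJ p.2) →
        (S.card : ℝ) ≤ C'' * X * Real.log X ^ (α + β - 1) := by
  classical
  obtain ⟨Cβ, hCβ, hbeta⟩ := beta99 α β hα hβ
  have hl2 : 0 < Real.log 2 := Real.log_pos (by norm_num)
  set s : ℝ := α + β - 1 with hs
  set D : ℝ := (3 / Real.log 2) ^ s + (1 / Real.log 2) ^ s with hD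
  have hDpos : 0 < D := by
    have h1 : 0 < (3 / Real.log 2) ^ s := Real.rpow_pos_of_pos (by positivity) _
    have h2 : 0 < (1 / Real.log 2) ^ s := Real.rpow_pos_of_pos (by positivity) _
    rw [hD]; linarith
  refine ⟨C * C' * 16 * (Real.log 2 ^ (α - 1) * Real.log 2 ^ (β - 1)) * Cβ * D + 1, ?_, ?_⟩
  · have : 0 ≤ C * C' * 16 * (Real.log 2 ^ (α - 1) * Real.log 2 ^ (β - 1)) * Cβ * D := by positivity
    linarith
  intro I J N N' hN hN' OkI OkJ hI hJ X hX S hS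
  have hX0 : 0 < X := by omega
  set K : ℕ := Nat.log 2 X with hK
  have hK1 : 1 ≤ K := by
    rw [hK]
    exact Nat.le_log_of_pow_le (by norm_num) (by omega)
  have hKle : 2 ^ K ≤ X := Nat.pow_log_le_self 2 (by omega)
  have hKlt : X < 2 ^ (K + 1) := Nat.lt_pow_succ_log_self (by norm_num) X
  have hcov : S ⊆ (Finset.range (K + 1)).biUnion (fun k =>
      ((S.image Prod.fst).filter (fun i => N i ≤ 2 ^ (K + 2 - k) ∧ OkI i)) ×ˢ
      ((S.image Prod.snd).filter (fun j => N' j ≤ 2 ^ (k + 2) ∧ OkJ j))) := by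
    intro p hp
    obtain ⟨h1, h2, h3⟩ := hS p hp
    rw [Finset.mem_biUnion]
    refine ⟨Nat.log 2 (N' p.2), ?_, ?_⟩
    · rw [Finset.mem_range, Nat.lt_succ_iff, hK]
      refine Nat.log_mono_right ?_
      calc N' p.2 = 1 * N' p.2 := (one_mul _).symm
        _ ≤ N p.1 * N' p.2 := Nat.mul_le_mul_right _ (hN _)
        _ ≤ X := h1
    · have hj0 : N' p.2 ≠ 0 := by have := hN' p.2; omega
      have hlow : 2 ^ (Nat.log 2 (N' p.2)) ≤ N' p.2 := Nat.pow_log_le_self 2 hj0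
      have hup : N' p.2 < 2 ^ (Nat.log 2 (N' p.2) + 1) := Nat.lt_pow_succ_log_self (by norm_num) _
      have hkK : Nat.log 2 (N' p.2) ≤ K := by
        rw [hK]
        refine Nat.log_mono_right ?_
        calc N' p.2 = 1 * N' p.2 := (one_mul _).symm
          _ ≤ N p.1 * N' p.2 := Nat.mul_le_mul_right _ (hN _)
          _ ≤ X := h1
      simp only [Finset.mem_product, Finset.mem_filter, Finset.mem_image]
      refine ⟨⟨⟨p, hp, rfl⟩, ?_, h2⟩, ⟨⟨p, hp, rfl⟩, ?_, h3⟩⟩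
      · have h4 : N p.1 * 2 ^ (Nat.log 2 (N' p.2)) < 2 ^ (K + 1) :=
          lt_of_le_of_lt ((Nat.mul_le_mul_left _ hlow).trans h1) hKlt
        have h5 : 2 ^ (K + 1) ≤ 2 ^ (K + 2 - Nat.log 2 (N' p.2)) * 2 ^ (Nat.log 2 (N' p.2)) := by
          rw [← pow_add]
          exact Nat.pow_le_pow_right (by norm_num) (by omega)
        exact (Nat.lt_of_mul_lt_mul_right (lt_of_lt_of_le h4 h5)).le
      · exact hup.le.trans (Nat.pow_le_pow_right (by norm_num) (by omega))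
  have hcard : (S.card : ℝ) ≤ ∑ k ∈ Finset.range (K + 1),
      (C * (2 : ℝ) ^ (K + 2 - k) * Real.log ((2 : ℝ) ^ (K + 2 - k)) ^ (α - 1)) *
      (C' * (2 : ℝ) ^ (k + 2) * Real.log ((2 : ℝ) ^ (k + 2)) ^ (β - 1)) := by
    calc (S.card : ℝ) ≤ (((Finset.range (K + 1)).biUnion (fun k =>
      ((S.image Prod.fst).filter (fun i => N i ≤ 2 ^ (K + 2 - k) ∧ OkI i)) ×ˢ
      ((S.image Prod.snd).filter (fun j => N' j ≤ 2 ^ (k + 2) ∧ OkJ j)))).card : ℝ) := by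
          exact_mod_cast Finset.card_le_card hcov
      _ ≤ ∑ k ∈ Finset.range (K + 1), ((((S.image Prod.fst).filter (fun i => N i ≤ 2 ^ (K + 2 - k) ∧ OkI i)) ×ˢ
      ((S.image Prod.snd).filter (fun j => N' j ≤ 2 ^ (k + 2) ∧ OkJ j))).card : ℝ) := by
          exact_mod_cast Finset.card_biUnion_le
      _ ≤ _ := by
          refine Finset.sum_le_sum fun k hk => ?_
          have hk' : k ≤ K := Nat.lt_succ_iff.mp (Finset.mem_range.mp hk)
          rw [Finset.card_product]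
          push_cast
          have h1 := hI (2 ^ (K + 2 - k)) (by
            calc 3 ≤ 2 ^ 2 := by norm_num
              _ ≤ 2 ^ (K + 2 - k) := Nat.pow_le_pow_right (by norm_num) (by omega))
            ((S.image Prod.fst).filter (fun i => N i ≤ 2 ^ (K + 2 - k) ∧ OkI i))
            (fun i hi => (Finset.mem_filter.mp hi).2)
          have h2 := hJ (2 ^ (k + 2)) (by
            calc 3 ≤ 2 ^ 2 := by norm_num
              _ ≤ 2 ^ (k + 2) := Nat.pow_le_pow_right (by norm_num) (by omega))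
            ((S.image Prod.snd).filter (fun j => N' j ≤ 2 ^ (k + 2) ∧ OkJ j))
            (fun j hj => (Finset.mem_filter.mp hj).2)
          push_cast at h1 h2
          exact mul_le_mul h1 h2 (Nat.cast_nonneg _) ((Nat.cast_nonneg _).trans h1)
  have hXr : (0 : ℝ) < (X : ℝ) := by exact_mod_cast hX0
  have h2K : (2 : ℝ) ^ K ≤ (X : ℝ) := by exact_mod_cast hKle
  have hlX : 0 < Real.log X := Real.log_pos (by exact_mod_cast (by omega : 1 < X))
  have hKlog : (K : ℝ) * Real.log 2 ≤ Real.log X := by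
    rw [← Real.log_pow]
    exact Real.log_le_log (by positivity) h2K
  have hKlog2 : Real.log X ≤ ((K : ℝ) + 1) * Real.log 2 := by
    have : Real.log X ≤ Real.log ((2 : ℝ) ^ (K + 1)) :=
      Real.log_le_log hXr (by exact_mod_cast hKlt.le)
    rwa [Real.log_pow, Nat.cast_add, Nat.cast_one] at this
  have hK1' : (1 : ℝ) ≤ (K : ℝ) := by exact_mod_cast hK1
  have hKs : ((K : ℝ) + 2) ^ s ≤ D * Real.log X ^ s := by
    have hn : (0 : ℝ) < (K : ℝ) + 2 := by positivity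
    have h3 : (0 : ℝ) < (3 / Real.log 2) ^ s := Real.rpow_pos_of_pos (by positivity) _
    have h1 : (0 : ℝ) < (1 / Real.log 2) ^ s := Real.rpow_pos_of_pos (by positivity) _
    have hlp : (0 : ℝ) < Real.log X ^ s := Real.rpow_pos_of_pos hlX _
    rcases le_or_gt 0 s with h | h
    · calc ((K : ℝ) + 2) ^ s ≤ (3 / Real.log 2 * Real.log X) ^ s := by
            refine Real.rpow_le_rpow hn.le ?_ h
            rw [div_mul_eq_mul_div, le_div_iff₀ hl2]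
            nlinarith
        _ = (3 / Real.log 2) ^ s * Real.log X ^ s := Real.mul_rpow (by positivity) hlX.le
        _ ≤ D * Real.log X ^ s := by rw [hD]; nlinarith
    · calc ((K : ℝ) + 2) ^ s ≤ (1 / Real.log 2 * Real.log X) ^ s := by
            refine Real.rpow_le_rpow_of_nonpos (by positivity) ?_ h.le
            rw [div_mul_eq_mul_div, div_le_iff₀ hl2]
            nlinarith
        _ = (1 / Real.log 2) ^ s * Real.log X ^ s := Real.mul_rpow (by positivity) hlX.le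
        _ ≤ D * Real.log X ^ s := by rw [hD]; nlinarith
  have hsum : ∑ k ∈ Finset.range (K + 1),
      (C * (2 : ℝ) ^ (K + 2 - k) * Real.log ((2 : ℝ) ^ (K + 2 - k)) ^ (α - 1)) *
      (C' * (2 : ℝ) ^ (k + 2) * Real.log ((2 : ℝ) ^ (k + 2)) ^ (β - 1))
      = C * C' * 16 * (Real.log 2 ^ (α - 1) * Real.log 2 ^ (β - 1)) * (2 : ℝ) ^ K *
        ∑ k ∈ Finset.range (K + 1), ((K : ℝ) + 2 - k) ^ (α - 1) * ((k : ℝ) + 2) ^ (β - 1) := by
    rw [Finset.mul_sum]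
    refine Finset.sum_congr rfl fun k hk => ?_
    have hk' : k ≤ K := Nat.lt_succ_iff.mp (Finset.mem_range.mp hk)
    have hkr : (k : ℝ) ≤ (K : ℝ) := by exact_mod_cast hk'
    have hc : ((K + 2 - k : ℕ) : ℝ) = (K : ℝ) + 2 - k := by
      rw [Nat.cast_sub (by omega)]; push_cast; ring
    have hc2 : ((k + 2 : ℕ) : ℝ) = (k : ℝ) + 2 := by push_cast; ring
    have hp : (2 : ℝ) ^ (K + 2 - k) * (2 : ℝ) ^ (k + 2) = 16 * (2 : ℝ) ^ K := by
      rw [← pow_add, show K + 2 - k + (k + 2) = K + 4 by omega, pow_add]; norm_num; ring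
    rw [Real.log_pow, Real.log_pow, hc, hc2, Real.mul_rpow (by linarith) hl2.le,
      Real.mul_rpow (by positivity) hl2.le]
    calc _ = C * C' * ((2 : ℝ) ^ (K + 2 - k) * (2 : ℝ) ^ (k + 2)) *
          ((((K : ℝ) + 2 - k) ^ (α - 1) * Real.log 2 ^ (α - 1)) *
          (((k : ℝ) + 2) ^ (β - 1) * Real.log 2 ^ (β - 1))) := by ring
      _ = _ := by rw [hp]; ring
  rw [hsum] at hcard
  have hE : 0 ≤ C * C' * 16 * (Real.log 2 ^ (α - 1) * Real.log 2 ^ (β - 1)) := by positivity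
  have hlp : (0 : ℝ) ≤ (X : ℝ) * Real.log X ^ s := by positivity
  calc (S.card : ℝ) ≤ _ := hcard
    _ ≤ C * C' * 16 * (Real.log 2 ^ (α - 1) * Real.log 2 ^ (β - 1)) * (X : ℝ) *
        (Cβ * (D * Real.log X ^ s)) := by
        refine mul_le_mul (mul_le_mul_of_nonneg_left h2K hE) ?_ ?_ (by positivity)
        · exact (hbeta K).trans (mul_le_mul_of_nonneg_left hKs hCβ.le)
        · refine Finset.sum_nonneg fun k hk => ?_
          have hk' : k ≤ K := Nat.lt_succ_iff.mp (Finset.mem_range.mp hk)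
          have hkr : (k : ℝ) ≤ (K : ℝ) := by exact_mod_cast hk'
          have : (0 : ℝ) ≤ (K : ℝ) + 2 - k := by linarith
          positivity
    _ = (C * C' * 16 * (Real.log 2 ^ (α - 1) * Real.log 2 ^ (β - 1)) * Cβ * D) * (X * Real.log X ^ s) := by ring
    _ ≤ (C * C' * 16 * (Real.log 2 ^ (α - 1) * Real.log 2 ^ (β - 1)) * Cβ * D + 1) * X * Real.log X ^ s := by
        nlinarith

end Pool.Agent.Helper99.ML
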