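import Pool.Agent.Helper97.MP.Defs

/-!
# Project MP, block L4: the elements of `k*` which are squares in `k_v` have finite index
-/

set_option autoImplicit false

namespace Pool.Agent.MPF

open NumberField IsDedekindDomain
open Pool.Agent.HG (Pr nm IsOdd)
open scoped WithZero

section

variable {k : Type} [Field k] [NumberField k]

theorem sq_of_near99 (hens : StmtHens) (v : Pr k) {X : v.adicCompletion k}
    (h : Valued.v (X - 1) < Valued.v (4 : v.adicCompletion k)) : IsSquare X := by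
  have h4 : (4 : v.adicCompletion k) ≠ 0 := by
    intro h0
    rw [h0, map_zero] at h
    exact not_lt_zero h
  set z : v.adicCompletion k := (X - 1) / 4 with hz
  have hvz : Valued.v z < 1 := by
    rw [hz, map_div₀]
    exact (div_lt_one₀ (zero_lt_iff.2 (by rwa [ne_eq, map_eq_zero]))).2 h
  obtain ⟨y, hy, -⟩ := hens k v (Polynomial.X ^ 2 + Polynomial.X - Polynomial.C z) 0 (by
    intro i
    rw [Polynomial.coeff_sub, Polynomial.coeff_add, Polynomial.coeff_X_pow, Polynomial.coeff_X, Polynomial.coeff_C]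
    rcases i with _ | _ | _ | i
    · simpa using hvz.le
    · simp
    · simp
    · simp) (by simp) (by simpa using hvz) (by simp)
  have hy2 : y ^ 2 + y - z = 0 := by simpa using hy
  have hX : X = 1 + 4 * z := by
    rw [hz]
    field_simp
    ring
  refine ⟨1 + 2 * y, ?_⟩
  have : z = y ^ 2 + y := (sub_eq_zero.1 hy2).symm
  rw [hX, this]
  ring

theorem approx99 (v : Pr k) (N : ℕ) {x : k} (hx : v.valuation k x ≤ 1) :
    ∃ y : 𝓞 k, v.valuation k (x - algebraMap (𝓞 k) k y) ≤ WithZero.exp (-(N : ℤ)) := by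
  classical
  obtain ⟨a, b, hb, rfl⟩ := IsFractionRing.div_surjective (A := 𝓞 k) x
  have hb0 : b ≠ 0 := nonZeroDivisors.ne_zero hb
  have hbk : algebraMap (𝓞 k) k b ≠ 0 := by
    rwa [ne_eq, FaithfulSMul.algebraMap_eq_zero_iff]
  have hle : v.valuation k (algebraMap (𝓞 k) k a) ≤ v.valuation k (algebraMap (𝓞 k) k b) := by
    rw [map_div₀] at hx
    exact (div_le_one₀ (zero_lt_iff.2 (by rwa [ne_eq, map_eq_zero]))).1 hx
  rw [v.valuation_of_algebraMap, v.valuation_of_algebraMap] at hle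
  have hI : Ideal.span {b} ≠ ⊥ := by
    rwa [ne_eq, Ideal.span_singleton_eq_bot]
  have hfm : FiniteMultiplicity v.asIdeal (Ideal.span {b}) :=
    FiniteMultiplicity.of_prime_left (Ideal.prime_of_isPrime v.ne_bot v.isPrime) hI
  obtain ⟨J, hJ, hJ2⟩ := hfm.exists_eq_pow_mul_and_not_dvd
  set n := multiplicity v.asIdeal (Ideal.span {b}) with hn
  have ha : a ∈ v.asIdeal ^ n := by
    rw [← Ideal.span_singleton_le_iff_mem, ← Ideal.dvd_iff_le, ← v.intValuation_le_pow_iff_dvd]
    refine hle.trans ?_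
    rw [v.intValuation_le_pow_iff_dvd]
    exact ⟨J, hJ⟩
  have hJ3 : ¬ J ≤ v.asIdeal := by
    rwa [← Ideal.dvd_iff_le]
  obtain ⟨γ, hγJ, hγ⟩ := SetLike.not_le_iff_exists.1 hJ3
  have h1 : γ * a ∈ Ideal.span {b} := by
    rw [hJ, mul_comm γ a]
    exact Ideal.mul_mem_mul ha hγJ
  obtain ⟨a', ha'⟩ := Ideal.mem_span_singleton.1 h1
  have hcop : IsCoprime (Ideal.span {γ}) (v.asIdeal ^ N) := by
    have hm : v.asIdeal.IsMaximal := v.isMaximal
    obtain ⟨y, i, hi, hyi⟩ := hm.exists_inv hγ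
    refine IsCoprime.pow_right (Ideal.isCoprime_iff_exists.2 ⟨y * γ, ?_, i, hi, hyi⟩)
    exact Ideal.mul_mem_left _ _ (Ideal.mem_span_singleton_self γ)
  obtain ⟨i, hi, j, hj, hij⟩ := Ideal.isCoprime_iff_exists.1 hcop
  obtain ⟨δ, rfl⟩ := Ideal.mem_span_singleton.1 hi
  refine ⟨a' * δ, ?_⟩
  have hγ0 : algebraMap (𝓞 k) k γ ≠ 0 := by
    rw [ne_eq, FaithfulSMul.algebraMap_eq_zero_iff]
    rintro rfl
    exact hγ (Ideal.zero_mem _)
  have e1 : algebraMap (𝓞 k) k a / algebraMap (𝓞 k) k b - algebraMap (𝓞 k) k (a' * δ) =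
      algebraMap (𝓞 k) k a' * algebraMap (𝓞 k) k j / algebraMap (𝓞 k) k γ := by
    have h2 : algebraMap (𝓞 k) k γ * algebraMap (𝓞 k) k a = algebraMap (𝓞 k) k b * algebraMap (𝓞 k) k a' := by
      rw [← map_mul, ha', map_mul]
    have h3 : algebraMap (𝓞 k) k γ * algebraMap (𝓞 k) k δ + algebraMap (𝓞 k) k j = 1 := by
      rw [← map_mul, ← map_add, hij, map_one]
    rw [map_mul]
    field_simp
    linear_combination h2 - algebraMap (𝓞 k) k b * algebraMap (𝓞 k) k a' * h3
  rw [e1, map_div₀, map_mul, v.valuation_of_algebraMap, v.valuation_of_algebraMap, v.valuation_of_algebraMap]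
  have g1 : v.intValuation γ = 1 := by
    refine le_antisymm (v.intValuation_le_one γ) (not_lt.1 fun hlt => hγ ?_)
    exact (v.intValuation_lt_one_iff_mem γ).1 hlt
  have g2 : v.intValuation j ≤ WithZero.exp (-(N : ℤ)) := (v.intValuation_le_pow_iff_mem j N).2 hj
  rw [g1, div_one]
  calc v.intValuation a' * v.intValuation j ≤ 1 * WithZero.exp (-(N : ℤ)) :=
        mul_le_mul' (v.intValuation_le_one a') g2
    _ = _ := one_mul _

/-- block L4 -/
theorem l4 (hens : StmtHens) : StmtL4 := by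
  classical
  intro k _ _ v
  let E := v.adicCompletion k
  let W : Subgroup kˣ :=
    { carrier := {w | IsSquare (algebraMap k (v.adicCompletion k) (w : k))}
      mul_mem' := by
        intro a b ha hb
        have : algebraMap k (v.adicCompletion k) ((a * b : kˣ) : k) =
          algebraMap k (v.adicCompletion k) (a : k) * algebraMap k (v.adicCompletion k) (b : k) := by
          rw [Units.val_mul, map_mul]
        rw [Set.mem_ofPred_eq, this]
        exact IsSquare.mul ha hb
      one_mem' := by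
        rw [Set.mem_ofPred_eq, Units.val_one, map_one]
        exact IsSquare.one
      inv_mem' := by
        intro a ha
        rw [Set.mem_ofPred_eq, Units.val_inv_eq_inv_val, map_inv₀]
        exact IsSquare.inv ha }
  have hval : ∀ x : k, Valued.v (algebraMap k (v.adicCompletion k) x) = v.valuation k x := fun x =>
    v.valuedAdicCompletion_eq_valuation' x
  refine ⟨W, ?_, fun w hw => hw⟩
  -- a bound for the valuation of `4`
  have h40 : v.valuation k (4 : k) ≠ 0 := by
    rw [ne_eq, map_eq_zero]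
    norm_num
  obtain ⟨z4, hz4⟩ := WithZero.ne_zero_iff_exists.1 h40
  obtain ⟨N, hN⟩ : ∃ N : ℕ, WithZero.exp (-(N : ℤ)) < v.valuation k (4 : k) := by
    refine ⟨(Multiplicative.toAdd z4).natAbs + 1, ?_⟩
    rw [← hz4]
    rw [WithZero.exp]
    rw [WithZero.coe_lt_coe]
    change Multiplicative.ofAdd (-(((Multiplicative.toAdd z4).natAbs + 1 : ℕ) : ℤ)) < z4
    rw [← Multiplicative.toAdd_lt, toAdd_ofAdd]
    omega
  obtain ⟨π, hπ⟩ := v.valuation_exists_uniformizer k
  have hπ0 : π ≠ 0 := by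
    rintro rfl
    rw [map_zero] at hπ
    exact WithZero.exp_ne_zero hπ.symm
  have key : ∀ a : kˣ, ∃ (z : ℤ) (y : 𝓞 k), v.valuation k ((a : k) * π ^ z) = 1 ∧
      v.valuation k ((a : k) * π ^ z - algebraMap (𝓞 k) k y) ≤ WithZero.exp (-(N : ℤ)) := by
    intro a
    have ha0 : v.valuation k (a : k) ≠ 0 := by
      rw [ne_eq, map_eq_zero]
      exact a.ne_zero
    obtain ⟨z, hz⟩ := WithZero.ne_zero_iff_exists.1 ha0
    have h1 : v.valuation k ((a : k) * π ^ (Multiplicative.toAdd z)) = 1 := by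
      have g : ((z : Multiplicative ℤ) : ℤᵐ⁰) = WithZero.exp (Multiplicative.toAdd z) := rfl
      rw [map_mul, map_zpow₀, hπ, ← hz, ← WithZero.exp_zsmul, g, ← WithZero.exp_add]
      simp
    obtain ⟨y, hy⟩ := approx99 v N h1.le
    exact ⟨_, y, h1, hy⟩
  choose z y h1 h2 using key
  have hfin : Finite (𝓞 k ⧸ v.asIdeal ^ N) := by
    have hne : v.asIdeal ^ N ≠ ⊥ := pow_ne_zero N v.ne_bot
    exact Ideal.finiteQuotientOfFreeOfNeBot _ hne
  let f : kˣ → ZMod 2 × (𝓞 k ⧸ v.asIdeal ^ N) := fun a => ((z a : ZMod 2), Ideal.Quotient.mk _ (y a))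
  have hf : ∀ a b : kˣ, f a = f b → a⁻¹ * b ∈ W := by
    intro a b hab
    have e1 : ((z a : ℤ) : ZMod 2) = z b := congrArg Prod.fst hab
    have e2 : Ideal.Quotient.mk (v.asIdeal ^ N) (y a) = Ideal.Quotient.mk (v.asIdeal ^ N) (y b) := congrArg Prod.snd hab
    rw [Ideal.Quotient.eq] at e2
    have e3 : v.valuation k (algebraMap (𝓞 k) k (y a) - algebraMap (𝓞 k) k (y b)) ≤ WithZero.exp (-(N : ℤ)) := by
      rw [← map_sub, v.valuation_of_algebraMap]
      exact (v.intValuation_le_pow_iff_mem _ N).2 e2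
    set A : k := (a : k) * π ^ z a with hA
    set B : k := (b : k) * π ^ z b with hB
    have e4 : v.valuation k (B - A) ≤ WithZero.exp (-(N : ℤ)) := by
      have : B - A = (B - algebraMap (𝓞 k) k (y b)) - (A - algebraMap (𝓞 k) k (y a)) - (algebraMap (𝓞 k) k (y a) - algebraMap (𝓞 k) k (y b)) := by ring
      rw [this]
      exact (v.valuation k).map_sub_le ((v.valuation k).map_sub_le (h2 b) (h2 a)) e3
    have hA0 : A ≠ 0 := mul_ne_zero a.ne_zero (zpow_ne_zero _ hπ0)
    have e5 : v.valuation k (B / A - 1) ≤ WithZero.exp (-(N : ℤ)) := by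
      have : B / A - 1 = (B - A) / A := by
        field_simp
      rw [this, map_div₀, h1 a, div_one]
      exact e4
    have e6 : IsSquare (algebraMap k (v.adicCompletion k) (B / A)) := by
      apply sq_of_near99 hens v
      have g1 : algebraMap k (v.adicCompletion k) (B / A) - 1 = algebraMap k (v.adicCompletion k) (B / A - 1) := by
        rw [map_sub, map_one]
      have g2 : (4 : v.adicCompletion k) = algebraMap k (v.adicCompletion k) 4 := by
        rw [map_ofNat]
      rw [g1, g2, hval, hval]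
      exact lt_of_le_of_lt e5 hN
    obtain ⟨m, hm⟩ : ∃ m : ℤ, z a - z b = m + m := by
      have g : ((z a - z b : ℤ) : ZMod 2) = 0 := by
        rw [Int.cast_sub, e1, sub_self]
      rw [ZMod.intCast_zmod_eq_zero_iff_dvd] at g
      obtain ⟨m, hm⟩ := g
      exact ⟨m, by rw [hm]; push_cast; ring⟩
    have e7 : ((a⁻¹ * b : kˣ) : k) = B / A * (π ^ m * π ^ m) := by
      have g1 : π ^ m * π ^ m = π ^ z a * (π ^ z b)⁻¹ := by
        rw [← zpow_add₀ hπ0, ← hm, zpow_sub₀ hπ0, div_eq_mul_inv]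
      rw [g1, hA, hB, Units.val_mul, Units.val_inv_eq_inv_val]
      have g2 : (a : k) ≠ 0 := a.ne_zero
      have g3 : π ^ z a ≠ 0 := zpow_ne_zero _ hπ0
      have g4 : π ^ z b ≠ 0 := zpow_ne_zero _ hπ0
      field_simp
    change IsSquare (algebraMap k (v.adicCompletion k) ((a⁻¹ * b : kˣ) : k))
    rw [e7, map_mul, map_mul]
    exact IsSquare.mul e6 ⟨_, rfl⟩
  have hq : Finite (kˣ ⧸ W) := by
    refine Finite.of_injective (fun q : kˣ ⧸ W => f (Quotient.out q)) ?_
    intro q q' hqq
    have g := hf _ _ hqq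
    have g1 := (QuotientGroup.eq (s := W)).2 g
    rw [← QuotientGroup.out_eq' q, ← QuotientGroup.out_eq' q']
    exact g1
  exact Subgroup.finiteIndex_of_finite_quotient

end

end Pool.Agent.MPF
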