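import Pool.Agent.Helper13.MP.Defs
import Pool.Agent.Helper99.HG.Sum

/-!
# Project MP (MP_e66f84_ag), block CK: the counting theorem relative to a set of primes
-/

set_option autoImplicit false

namespace Pool.Agent.Helper99.MP

open Filter Topology Pool.Agent.Helper99.HG

variable {k : ℕ} {G : Type}

/-- the upper bound of Mertens with density `κ` -/
def MertK (D : CD k G) (κ : ℝ) : Prop :=
  ∃ C : ℝ, ∀ y x : ℕ, 2 ≤ y → y ≤ x → ∀ S : Finset D.P, (∀ p ∈ S, y < D.nm p ∧ D.nm p ≤ x) →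
    ∑ p ∈ S, (1 : ℝ) / D.nm p ≤ κ * (Real.log (Real.log x) - Real.log (Real.log y)) + C

/-- the weights are less than `κ` in the mean -/
def TBK (D : CD k G) (κ : ℝ) (J : Finset (Fin k)) : Prop :=
  J.Nonempty ∧ ∃ δ C : ℝ, 0 < δ ∧ ∀ y x : ℕ, 2 ≤ y → y ≤ x → ∀ S : Finset D.P,
    (∀ p, p ∈ S ↔ p ∉ D.Ex ∧ y < D.nm p ∧ D.nm p ≤ x) →
    ∑ p ∈ S, WJ D J p / D.nm p ≤ (κ - δ) * (Real.log (Real.log x) - Real.log (Real.log y)) + C

/-- the elementary inequality for the sets without elements of `T` -/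
theorem hallK99 {D : CD k G} {κ : ℝ} (hS : Sys D.P D.nm) (hM : MertK D κ) : ∃ C : ℝ, 0 < C ∧ ∀ X : ℕ, 2 ≤ X →
    ∀ T : Finset D.P, (∀ p ∈ T, D.nm p ≤ X) →
    ∀ S : Finset (Finset D.P), (∀ c ∈ S, Nm D c ≤ X ∧ Disjoint c T) →
    (S.card : ℝ) ≤ C * X * Real.log X ^ (κ - 1) * Real.exp (-∑ p ∈ T, (1 : ℝ) / D.nm p) := by
  classical
  obtain ⟨C₁, hC₁⟩ := hS.cheb
  obtain ⟨C₂, hC₂⟩ := hM
  have hC₁0 : 0 ≤ C₁ := by
    have := hC₁ 1 ∅ (by simp)
    simpa using this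
  -- the sum of the reciprocals
  obtain ⟨C₃, hC₃⟩ : ∃ C₃ : ℝ, ∀ X : ℕ, 2 ≤ X → ∑ p ∈ pr D X, (1 : ℝ) / D.nm p ≤ κ * Real.log (Real.log X) + C₃ := by
    refine ⟨(pr D 2).card + (-(κ * Real.log (Real.log (2 : ℕ))) + C₂), fun X hX => ?_⟩
    have h1 := hC₂ 2 X le_rfl hX ((pr D X).filter fun p => 2 < D.nm p) (by
      intro p hp
      exact ⟨(Finset.mem_filter.mp hp).2, (mem_pr hS).mp (Finset.mem_filter.mp hp).1⟩)
    have h2 : ∑ p ∈ (pr D X).filter (fun p => ¬ 2 < D.nm p), (1 : ℝ) / D.nm p ≤ (pr D 2).card := by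
      have h3 : ∑ p ∈ (pr D X).filter (fun p => ¬ 2 < D.nm p), (1 : ℝ) / D.nm p ≤ ∑ p ∈ (pr D X).filter (fun p => ¬ 2 < D.nm p), (1 : ℝ) := by
        refine Finset.sum_le_sum fun p _ => ?_
        have : (2 : ℝ) ≤ D.nm p := by exact_mod_cast hS.two p
        rw [div_le_one (by linarith)]
        linarith
      rw [Finset.sum_const, nsmul_eq_mul, mul_one] at h3
      refine h3.trans ?_
      have h4 : (pr D X).filter (fun p => ¬ 2 < D.nm p) ⊆ pr D 2 := by
        intro p hp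
        rw [mem_pr hS]
        have := (Finset.mem_filter.mp hp).2
        omega
      exact_mod_cast Finset.card_le_card h4
    rw [← Finset.sum_filter_add_sum_filter_not (pr D X) (fun p => 2 < D.nm p)]
    linarith
  refine ⟨(C₁ + 1) * Real.exp C₃, by positivity, ?_⟩
  intro X hX T hT S hSX
  have hXp : (0 : ℝ) < X := by exact_mod_cast (by omega : 0 < X)
  have hlX : 0 < Real.log X := Real.log_pos (by exact_mod_cast (by omega : 1 < X))
  -- all admissible sets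
  set A := (pr D X).powerset.filter (fun c => Nm D c ≤ X ∧ Disjoint c T) with hA
  have hSA : S ⊆ A := by
    intro c hc
    obtain ⟨h1, h2⟩ := hSX c hc
    refine Finset.mem_filter.mpr ⟨Finset.mem_powerset.mpr fun p hp => ?_, h1, h2⟩
    rw [mem_pr hS]
    exact (nm_le_Nm hS hp).trans h1
  have hcard : (S.card : ℝ) ≤ A.card := by exact_mod_cast Finset.card_le_card hSA
  refine hcard.trans ?_
  have hpos : ∀ c : Finset D.P, (0 : ℝ) < Nm D c := fun c => by exact_mod_cast Nm_pos hS c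
  -- the sum of the logarithms of the norms
  have hlog : ∀ c : Finset D.P, Real.log (Nm D c) = ∑ p ∈ c, Real.log (D.nm p) := by
    intro c
    unfold Nm
    rw [Nat.cast_prod, Real.log_prod]
    intro p _
    have := hS.two p
    exact_mod_cast (by omega : D.nm p ≠ 0)
  have hl0 : ∀ p, 0 ≤ Real.log (D.nm p) := fun p => Real.log_nonneg (by
    have := hS.two p
    exact_mod_cast (by omega : 1 ≤ D.nm p))
  have h1 : ∑ c ∈ A, Real.log (Nm D c) ≤ ∑ m ∈ A, ∑ p ∈ pr D (X / Nm D m), Real.log (D.nm p) := by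
    simp only [hlog]
    rw [Finset.sum_sigma', Finset.sum_sigma']
    have hinj : Set.InjOn (fun x : (_ : Finset D.P) × D.P => (⟨x.1.erase x.2, x.2⟩ : (_ : Finset D.P) × D.P))
        (A.sigma fun c => c : Finset ((_ : Finset D.P) × D.P)) := by
      rintro ⟨c, p⟩ h ⟨c', p'⟩ h' e
      have e1 : c.erase p = c'.erase p' := congrArg Sigma.fst e
      have e2 : p = p' := by
        have := congrArg Sigma.snd e
        simpa using this
      subst e2
      have g1 := (Finset.mem_sigma.mp (Finset.mem_coe.mp h)).2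
      have g2 := (Finset.mem_sigma.mp (Finset.mem_coe.mp h')).2
      simp only at g1 g2
      have : c = c' := by rw [← Finset.insert_erase g1, ← Finset.insert_erase g2, e1]
      rw [this]
    calc ∑ x ∈ A.sigma fun c => c, Real.log (D.nm x.2) =
        ∑ y ∈ (A.sigma fun c => c).image (fun x : (_ : Finset D.P) × D.P => (⟨x.1.erase x.2, x.2⟩ : (_ : Finset D.P) × D.P)),
          Real.log (D.nm y.2) := by
          rw [Finset.sum_image hinj]
      _ ≤ _ := by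
        refine Finset.sum_le_sum_of_subset_of_nonneg ?_ fun y _ _ => hl0 _
        intro y hy
        obtain ⟨⟨c, p⟩, hx, rfl⟩ := Finset.mem_image.mp hy
        obtain ⟨g1, g2⟩ := Finset.mem_sigma.mp hx
        simp only at g1 g2
        obtain ⟨g3, g4, g5⟩ := Finset.mem_filter.mp g1
        have e : D.nm p * Nm D (c.erase p) = Nm D c := Finset.mul_prod_erase c D.nm g2
        refine Finset.mem_sigma.mpr ⟨Finset.mem_filter.mpr ⟨?_, ?_, ?_⟩, ?_⟩
        · exact Finset.mem_powerset.mpr ((Finset.erase_subset _ _).trans (Finset.mem_powerset.mp g3))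
        · refine le_trans (Nat.le_of_dvd (Nm_pos hS c) ⟨D.nm p, ?_⟩) g4
          simp only
          rw [← e]
          ring
        · exact Finset.disjoint_of_subset_left (Finset.erase_subset _ _) g5
        · simp only
          rw [mem_pr hS, Nat.le_div_iff_mul_le (Nm_pos hS _), e]
          exact g4
  have h2 : ∑ c ∈ A, Real.log (Nm D c) ≤ C₁ * X * ∑ m ∈ A, (1 : ℝ) / Nm D m := by
    refine h1.trans ?_
    rw [Finset.mul_sum]
    refine Finset.sum_le_sum fun m _ => ?_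
    refine (hC₁ (X / Nm D m) (pr D (X / Nm D m)) fun p hp => (mem_pr hS).mp hp).trans ?_
    have g : ((X / Nm D m : ℕ) : ℝ) ≤ X / Nm D m := Nat.cast_div_le
    calc C₁ * ((X / Nm D m : ℕ) : ℝ) ≤ C₁ * (X / Nm D m) := mul_le_mul_of_nonneg_left g hC₁0
      _ = _ := by ring
  have h3 : ∑ c ∈ A, (Real.log X - Real.log (Nm D c)) ≤ X * ∑ m ∈ A, (1 : ℝ) / Nm D m := by
    rw [Finset.mul_sum]
    refine Finset.sum_le_sum fun c _ => ?_
    rw [← Real.log_div hXp.ne' (hpos c).ne', mul_one_div]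
    have := Real.log_le_sub_one_of_pos (div_pos hXp (hpos c))
    linarith
  have h4 : (A.card : ℝ) * Real.log X ≤ (C₁ + 1) * X * ∑ m ∈ A, (1 : ℝ) / Nm D m := by
    rw [Finset.sum_sub_distrib, Finset.sum_const, nsmul_eq_mul] at h3
    linarith
  -- the Euler product
  have h5 : ∑ m ∈ A, (1 : ℝ) / Nm D m ≤ Real.exp (∑ p ∈ pr D X \ T, (1 : ℝ) / D.nm p) := by
    have e1 : ∀ m : Finset D.P, (1 : ℝ) / Nm D m = ∏ p ∈ m, (1 : ℝ) / D.nm p := by
      intro m
      unfold Nm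
      rw [Finset.prod_div_distrib, Finset.prod_const_one, Nat.cast_prod]
    simp only [e1]
    calc ∑ m ∈ A, ∏ p ∈ m, (1 : ℝ) / D.nm p ≤ ∑ m ∈ (pr D X \ T).powerset, ∏ p ∈ m, (1 : ℝ) / D.nm p := by
          refine Finset.sum_le_sum_of_subset_of_nonneg ?_ fun s _ _ => Finset.prod_nonneg fun p _ => by positivity
          intro m hm
          obtain ⟨g1, g2, g3⟩ := Finset.mem_filter.mp hm
          rw [Finset.mem_powerset] at g1 ⊢
          intro p hp
          exact Finset.mem_sdiff.mpr ⟨g1 hp, fun h => Finset.disjoint_left.mp g3 hp h⟩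
      _ = ∏ p ∈ pr D X \ T, (1 + (1 : ℝ) / D.nm p) := by rw [Finset.prod_one_add]
      _ ≤ ∏ p ∈ pr D X \ T, Real.exp ((1 : ℝ) / D.nm p) := by
          refine Finset.prod_le_prod (fun p _ => by positivity) fun p _ => ?_
          rw [add_comm]
          exact Real.add_one_le_exp _
      _ = _ := by rw [Real.exp_sum]
  have h6 : ∑ p ∈ pr D X \ T, (1 : ℝ) / D.nm p ≤ κ * Real.log (Real.log X) + C₃ - ∑ p ∈ T, (1 : ℝ) / D.nm p := by
    have hTX : T ⊆ pr D X := fun p hp => (mem_pr hS).mpr (hT p hp)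
    have g1 := Finset.sum_sdiff hTX (f := fun p => (1 : ℝ) / D.nm p)
    have g2 := hC₃ X hX
    linarith
  have h7 : Real.exp (∑ p ∈ pr D X \ T, (1 : ℝ) / D.nm p) ≤ Real.log X ^ κ * (Real.exp C₃ * Real.exp (-∑ p ∈ T, (1 : ℝ) / D.nm p)) := by
    calc Real.exp (∑ p ∈ pr D X \ T, (1 : ℝ) / D.nm p) ≤ Real.exp (Real.log (Real.log X) * κ + (C₃ + -∑ p ∈ T, (1 : ℝ) / D.nm p)) :=
          Real.exp_le_exp.mpr (by linarith)
      _ = _ := by rw [Real.exp_add, Real.exp_add, Real.rpow_def_of_pos hlX]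
  have h9 : Real.log X ^ κ = Real.log X ^ (κ - 1) * Real.log X := by
    rw [Real.rpow_sub_one hlX.ne']
    field_simp
  have h8 : (A.card : ℝ) * Real.log X ≤ ((C₁ + 1) * Real.exp C₃ * X * Real.log X ^ (κ - 1) * Real.exp (-∑ p ∈ T, (1 : ℝ) / D.nm p)) * Real.log X := by
    calc (A.card : ℝ) * Real.log X ≤ (C₁ + 1) * X * (Real.log X ^ κ * (Real.exp C₃ * Real.exp (-∑ p ∈ T, (1 : ℝ) / D.nm p))) :=
          h4.trans (mul_le_mul_of_nonneg_left (h5.trans h7) (by positivity))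
      _ = _ := by
        rw [h9]
        ring
  exact le_of_mul_le_mul_right h8 hlX

/-- the number of sets with bounded norm -/
theorem countK_le99 {D : CD k G} {κ : ℝ} (hS : Sys D.P D.nm) (hM : MertK D κ) : ∃ C : ℝ, 0 < C ∧ ∀ X : ℕ, 2 ≤ X →
    ∀ S : Finset (Finset D.P), (∀ c ∈ S, Nm D c ≤ X) → (S.card : ℝ) ≤ C * X * Real.log X ^ (κ - 1) := by
  obtain ⟨C, hC, h⟩ := hallK99 hS hM
  refine ⟨C, hC, fun X hX S hSX => ?_⟩
  have h3 := h X hX ∅ (by simp) S (fun c hc => ⟨hSX c hc, Finset.disjoint_empty_right c⟩)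
  simpa only [Finset.sum_empty, neg_zero, Real.exp_zero, mul_one] using h3

/-- few sets have a large smooth part -/
theorem smoothK99 {D : CD k G} {κ : ℝ} (hκ0 : 0 < κ) (hκ1 : κ ≤ 1) (hS : Sys D.P D.nm) (hM : MertK D κ) :
    ∃ C : ℝ, 0 < C ∧ ∀ z X : ℕ, 2 ≤ z → z ^ 4 ≤ X → ∀ T : ℝ, 0 < T →
    ∀ S : Finset (Finset D.P), (∀ c ∈ S, Nm D c ≤ X ∧ T ≤ ∑ p ∈ c.filter (fun p => D.nm p ≤ z), Real.log (D.nm p)) →
    (S.card : ℝ) ≤ C * X * Real.log X ^ (κ - 1) * (Real.log z / T) := by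
  classical
  obtain ⟨C₁, hC₁, hcount⟩ := countK_le99 hS hM
  obtain ⟨C₂, hC₂, hld⟩ := log_div hS
  refine ⟨C₁ * 2 * C₂, by positivity, fun z X hz hzX T hT S hSX => ?_⟩
  have hX16 : 16 ≤ X := le_trans (by
    calc 16 = 2 ^ 4 := by norm_num
      _ ≤ z ^ 4 := Nat.pow_le_pow_left hz 4) hzX
  have hlX : 0 < Real.log X := Real.log_pos (by exact_mod_cast (by omega : 1 < X))
  have hl0 : ∀ p, 0 ≤ Real.log (D.nm p) := fun p => Real.log_nonneg (by
    have := hS.two p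
    exact_mod_cast (by omega : 1 ≤ D.nm p))
  have h1 : (S.card : ℝ) * T ≤ ∑ c ∈ S, ∑ p ∈ c.filter (fun p => D.nm p ≤ z), Real.log (D.nm p) := by
    rw [← nsmul_eq_mul, ← Finset.sum_const]
    exact Finset.sum_le_sum fun c hc => (hSX c hc).2
  have h2 : ∑ c ∈ S, ∑ p ∈ c.filter (fun p => D.nm p ≤ z), Real.log (D.nm p) =
      ∑ p ∈ pr D z, ∑ c ∈ S.filter (fun c => p ∈ c), Real.log (D.nm p) := by
    refine Finset.sum_comm' ?_
    intro c p
    rw [Finset.mem_filter, Finset.mem_filter, mem_pr hS]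
    tauto
  have h3 : ∀ p ∈ pr D z, ∑ c ∈ S.filter (fun c => p ∈ c), Real.log (D.nm p) ≤
      C₁ * 2 * X * Real.log X ^ (κ - 1) * (Real.log (D.nm p) / D.nm p) := by
    intro p hp
    rw [Finset.sum_const, nsmul_eq_mul]
    have hp2 := hS.two p
    have hpz := (mem_pr hS).mp hp
    have hp4 : D.nm p ^ 4 ≤ X := (Nat.pow_le_pow_left hpz 4).trans hzX
    obtain ⟨Y, hY⟩ : ∃ Y : ℕ, Y = X / D.nm p := ⟨_, rfl⟩
    have hY1 : 1 ≤ Y := by
      rw [hY]
      rw [Nat.le_div_iff_mul_le (by omega), one_mul]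
      calc D.nm p = D.nm p ^ 1 := (pow_one _).symm
        _ ≤ D.nm p ^ 4 := Nat.pow_le_pow_right (by omega) (by norm_num)
        _ ≤ X := hp4
    have hXY : X < (Y + 1) * D.nm p := by
      rw [hY]
      have := Nat.lt_div_mul_add (a := X) (b := D.nm p) (by omega)
      rw [add_mul, one_mul]
      exact this
    have hXY2 : X ≤ Y * D.nm p ^ 2 := by
      have g : (Y + 1) * D.nm p ≤ Y * D.nm p ^ 2 := by
        have g1 : Y + 1 ≤ Y * D.nm p := by nlinarith
        calc (Y + 1) * D.nm p ≤ (Y * D.nm p) * D.nm p := Nat.mul_le_mul_right _ g1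
          _ = _ := by ring
      omega
    have hXY3 : X ≤ Y ^ 2 := by
      have g : X * X ≤ Y ^ 2 * X := by
        calc X * X ≤ (Y * D.nm p ^ 2) * (Y * D.nm p ^ 2) := Nat.mul_le_mul hXY2 hXY2
          _ = Y ^ 2 * D.nm p ^ 4 := by ring
          _ ≤ Y ^ 2 * X := Nat.mul_le_mul_left _ hp4
      exact Nat.le_of_mul_le_mul_right g (by omega)
    have hY2 : 2 ≤ Y := by
      by_contra hlt
      have : Y = 1 := by omega
      rw [this] at hXY3
      omega
    have hlY : Real.log X / 2 ≤ Real.log Y := by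
      have g : (X : ℝ) ≤ (Y : ℝ) ^ 2 := by exact_mod_cast hXY3
      have g1 := Real.log_le_log (by exact_mod_cast (by omega : 0 < X)) g
      rw [Real.log_pow] at g1
      push_cast at g1
      linarith
    have hrY : Real.log Y ^ (κ - 1) ≤ 2 * Real.log X ^ (κ - 1) := by
      have g := Real.rpow_le_rpow_of_nonpos (x := Real.log X / 2) (y := Real.log Y) (z := κ - 1) (by positivity) hlY (by linarith)
      refine g.trans ?_
      rw [Real.div_rpow hlX.le (by norm_num), div_eq_mul_inv, mul_comm, ← Real.rpow_neg (by norm_num)]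
      refine mul_le_mul_of_nonneg_right ?_ (by positivity)
      calc (2 : ℝ) ^ (-(κ - 1)) ≤ (2 : ℝ) ^ (1 : ℝ) := Real.rpow_le_rpow_of_exponent_le (by norm_num) (by linarith)
        _ = 2 := Real.rpow_one 2
    have h4 : ((S.filter (fun c => p ∈ c)).card : ℝ) ≤ C₁ * (Y : ℝ) * Real.log Y ^ (κ - 1) := by
      have h5 : (S.filter (fun c => p ∈ c)).card = ((S.filter (fun c => p ∈ c)).image fun c => c.erase p).card := by
        rw [Finset.card_image_of_injOn]
        intro c hc c' hc' e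
        have g1 := (Finset.mem_filter.mp (Finset.mem_coe.mp hc)).2
        have g2 := (Finset.mem_filter.mp (Finset.mem_coe.mp hc')).2
        have e' : c.erase p = c'.erase p := e
        rw [← Finset.insert_erase g1, ← Finset.insert_erase g2, e']
      rw [h5]
      refine hcount _ hY2 _ ?_
      intro c' hc'
      obtain ⟨c, hc, rfl⟩ := Finset.mem_image.mp hc'
      obtain ⟨g1, g2⟩ := Finset.mem_filter.mp hc
      rw [hY, Nat.le_div_iff_mul_le (by omega)]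
      have e : Nm D (c.erase p) * D.nm p = Nm D c := Finset.prod_erase_mul c D.nm g2
      rw [e]
      exact (hSX c g1).1
    have h5 : (Y : ℝ) ≤ X / D.nm p := by
      rw [hY]
      exact Nat.cast_div_le
    have hn0 : (0 : ℝ) < D.nm p := by exact_mod_cast (by omega : 0 < D.nm p)
    calc ((S.filter (fun c => p ∈ c)).card : ℝ) * Real.log (D.nm p) ≤ (C₁ * (X / D.nm p) * (2 * Real.log X ^ (κ - 1))) * Real.log (D.nm p) := by
          refine mul_le_mul_of_nonneg_right (h4.trans ?_) (hl0 p)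
          exact mul_le_mul (mul_le_mul_of_nonneg_left h5 hC₁.le) hrY (by positivity) (by positivity)
      _ = _ := by ring
  have h4 : (S.card : ℝ) * T ≤ C₁ * 2 * X * Real.log X ^ (κ - 1) * (C₂ * Real.log z) := by
    rw [h2] at h1
    refine h1.trans ((Finset.sum_le_sum h3).trans ?_)
    rw [← Finset.mul_sum]
    exact mul_le_mul_of_nonneg_left (hld z hz) (by positivity)
  calc (S.card : ℝ) = (S.card : ℝ) * T / T := by field_simp
    _ ≤ C₁ * 2 * X * Real.log X ^ (κ - 1) * (C₂ * Real.log z) / T := div_le_div_of_nonneg_right h4 hT.le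
    _ = _ := by ring

private theorem ll_mono {y x : ℕ} (hy : 2 ≤ y) (h : y ≤ x) : Real.log (Real.log y) ≤ Real.log (Real.log x) :=
  Real.log_le_log (Real.log_pos (by exact_mod_cast (by omega : 1 < y)))
    (Real.log_le_log (by exact_mod_cast (by omega : 0 < y)) (by exact_mod_cast h))

/-- uniform constants for the components of the second kind -/
private theorem unif_B (D : CD k G) {κ : ℝ} (hκ0 : 0 < κ) : ∃ δ C : ℝ, 0 < δ ∧ δ ≤ κ ∧ 0 ≤ C ∧ ∀ J, TBK D κ J → ∀ y x : ℕ, 2 ≤ y → y ≤ x →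
    ∀ S : Finset D.P, (∀ p, p ∈ S ↔ p ∉ D.Ex ∧ y < D.nm p ∧ D.nm p ≤ x) →
      ∑ p ∈ S, WJ D J p / D.nm p ≤ (κ - δ) * (Real.log (Real.log x) - Real.log (Real.log y)) + C := by
  classical
  have h : ∀ J : Finset (Fin k), ∃ δ C : ℝ, 0 < δ ∧ δ ≤ 1 ∧ 0 ≤ C ∧ (TBK D κ J → ∀ y x : ℕ, 2 ≤ y → y ≤ x →
      ∀ S : Finset D.P, (∀ p, p ∈ S ↔ p ∉ D.Ex ∧ y < D.nm p ∧ D.nm p ≤ x) →
      ∑ p ∈ S, WJ D J p / D.nm p ≤ (κ - δ) * (Real.log (Real.log x) - Real.log (Real.log y)) + C) := by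
    intro J
    by_cases hJ : TBK D κ J
    · obtain ⟨_, δ, C, h1, h2⟩ := id hJ
      refine ⟨min δ 1, |C|, lt_min h1 one_pos, min_le_right _ _, abs_nonneg C, fun _ y x hy hx S hS => ?_⟩
      have h3 := h2 y x hy hx S hS
      have h4 := ll_mono hy hx
      have h5 : (κ - δ) * (Real.log (Real.log x) - Real.log (Real.log y)) ≤ (κ - min δ 1) * (Real.log (Real.log x) - Real.log (Real.log y)) :=
        mul_le_mul_of_nonneg_right (by linarith [min_le_left δ 1]) (by linarith)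
      linarith [le_abs_self C]
    · exact ⟨1, 0, one_pos, le_rfl, le_rfl, fun h => absurd h hJ⟩
  choose δ C h1 h2 h3 h4 using h
  have hP : 0 < ∏ J, δ J := Finset.prod_pos fun J _ => h1 J
  refine ⟨min (∏ J, δ J) κ, ∑ J, C J, lt_min hP hκ0, min_le_right _ _,
    Finset.sum_nonneg fun J _ => h3 J, fun J hJ y x hy hx S hS => ?_⟩
  have h5 := h4 J hJ y x hy hx S hS
  have h6 : min (∏ J, δ J) κ ≤ δ J := by
    refine (min_le_left _ _).trans ?_
    rw [← Finset.mul_prod_erase Finset.univ δ (Finset.mem_univ J)]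
    have : ∏ J ∈ Finset.univ.erase J, δ J ≤ 1 := Finset.prod_le_one (fun J _ => (h1 J).le) fun J _ => h2 J
    nlinarith [h1 J]
  have h7 : C J ≤ ∑ J, C J := Finset.single_le_sum (fun J _ => h3 J) (Finset.mem_univ J)
  have h8 := ll_mono hy hx
  have h9 : (κ - δ J) * (Real.log (Real.log x) - Real.log (Real.log y)) ≤ (κ - min (∏ J, δ J) κ) * (Real.log (Real.log x) - Real.log (Real.log y)) :=
    mul_le_mul_of_nonneg_right (by linarith) (by linarith)
  linarith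

/-- uniform constants for the components of the first kind -/
private theorem unif_A (D : CD k G) : ∃ δ C : ℝ, 0 < δ ∧ 0 ≤ C ∧ ∀ J, TA D J → ∀ y x : ℕ, 2 ≤ y → y ≤ x →
    ∀ S : Finset D.P, (∀ p, p ∈ S ↔ p ∉ D.Ex ∧ y < D.nm p ∧ D.nm p ≤ x ∧ ∀ o ∈ D.V p, D.cmp o ∉ J) →
      δ * (Real.log (Real.log x) - Real.log (Real.log y)) - C ≤ ∑ p ∈ S, (1 : ℝ) / D.nm p := by
  classical
  have h : ∀ J : Finset (Fin k), ∃ δ C : ℝ, 0 < δ ∧ δ ≤ 1 ∧ 0 ≤ C ∧ (TA D J → ∀ y x : ℕ, 2 ≤ y → y ≤ x →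
      ∀ S : Finset D.P, (∀ p, p ∈ S ↔ p ∉ D.Ex ∧ y < D.nm p ∧ D.nm p ≤ x ∧ ∀ o ∈ D.V p, D.cmp o ∉ J) →
      δ * (Real.log (Real.log x) - Real.log (Real.log y)) - C ≤ ∑ p ∈ S, (1 : ℝ) / D.nm p) := by
    intro J
    by_cases hJ : TA D J
    · obtain ⟨δ, C, h1, h2⟩ := id hJ
      refine ⟨min δ 1, |C|, lt_min h1 one_pos, min_le_right _ _, abs_nonneg C, fun _ y x hy hx S hS => ?_⟩
      have h3 := h2 y x hy hx S hS
      have h4 := ll_mono hy hx
      have h5 : min δ 1 * (Real.log (Real.log x) - Real.log (Real.log y)) ≤ δ * (Real.log (Real.log x) - Real.log (Real.log y)) :=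
        mul_le_mul_of_nonneg_right (min_le_left δ 1) (by linarith)
      linarith [le_abs_self C]
    · exact ⟨1, 0, one_pos, le_rfl, le_rfl, fun h => absurd h hJ⟩
  choose δ C h1 h2 h3 h4 using h
  refine ⟨∏ J, δ J, ∑ J, C J, Finset.prod_pos fun J _ => h1 J,
    Finset.sum_nonneg fun J _ => h3 J, fun J hJ y x hy hx S hS => ?_⟩
  have h5 := h4 J hJ y x hy hx S hS
  have h6 : ∏ J, δ J ≤ δ J := by
    rw [← Finset.mul_prod_erase Finset.univ δ (Finset.mem_univ J)]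
    have : ∏ J ∈ Finset.univ.erase J, δ J ≤ 1 := Finset.prod_le_one (fun J _ => (h1 J).le) fun J _ => h2 J
    nlinarith [h1 J]
  have h7 : C J ≤ ∑ J, C J := Finset.single_le_sum (fun J _ => h3 J) (Finset.mem_univ J)
  have h8 := ll_mono hy hx
  have h9 : (∏ J, δ J) * (Real.log (Real.log x) - Real.log (Real.log y)) ≤ δ J * (Real.log (Real.log x) - Real.log (Real.log y)) :=
    mul_le_mul_of_nonneg_right h6 (by linarith)
  linarith

private theorem exp_ll {X : ℕ} (hX : 3 ≤ X) (a : ℝ) : Real.exp (a * Real.log (Real.log X)) = Real.log X ^ a := by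
  rw [Real.rpow_def_of_pos (by linarith [log_ge_one hX]), mul_comm]

theorem zz_pow4_99 {N X s : ℕ} (hX : 3 ≤ X) (hs : s + 1 ≤ N) (h4 : (4 : ℝ) ^ N ≤ Real.log X) : zz N X s ^ 4 ≤ X := by
  have hlX := log_ge_one hX
  have hN' : (0 : ℝ) < N := by exact_mod_cast (by omega : 0 < N)
  have h1 := log_zz_le (N := N) (κ := s) hX (by omega)
  have h2 : Real.log X ^ ((s : ℝ) / N) ≤ Real.log X / 4 := by
    have g1 : (4 : ℝ) ≤ Real.log X ^ (1 / (N : ℝ)) := by
      calc (4 : ℝ) = ((4 : ℝ) ^ N) ^ (1 / (N : ℝ)) := by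
            rw [← Real.rpow_natCast, ← Real.rpow_mul (by norm_num), mul_one_div, div_self hN'.ne', Real.rpow_one]
        _ ≤ _ := Real.rpow_le_rpow (by positivity) h4 (by positivity)
    have g2 : Real.log X ^ ((s : ℝ) / N) * Real.log X ^ (1 / (N : ℝ)) ≤ Real.log X := by
      rw [← Real.rpow_add (by linarith)]
      calc Real.log X ^ ((s : ℝ) / N + 1 / (N : ℝ)) ≤ Real.log X ^ (1 : ℝ) := by
            refine Real.rpow_le_rpow_of_exponent_le hlX ?_
            rw [← add_div, div_le_one hN']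
            exact_mod_cast hs
        _ = _ := Real.rpow_one _
    have g3 : 0 < Real.log X ^ ((s : ℝ) / N) := by positivity
    rw [le_div_iff₀ (by norm_num)]
    nlinarith
  have h3 : ((zz N X s : ℕ) : ℝ) ^ 4 ≤ X := by
    have hz2 := zz_two (N := N) (κ := s) hX
    have hz0 : (0 : ℝ) < zz N X s := by exact_mod_cast (by omega : 0 < zz N X s)
    have hX0 : (0 : ℝ) < X := by exact_mod_cast (by omega : 0 < X)
    rw [← Real.log_le_log_iff (by positivity) hX0, Real.log_pow]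
    push_cast
    linarith
  exact_mod_cast h3

open Classical in
/-- few sets with a large smooth part -/
private theorem exc_E {D : CD k G} {κ : ℝ} (hκ0 : 0 < κ) (hκ1 : κ ≤ 1) (hS : Sys D.P D.nm) (hM : MertK D κ) :
    ∃ C : ℝ, 0 < C ∧ ∀ (N A X s : ℕ), 3 ≤ X → (4 : ℝ) ^ N ≤ Real.log X → s + 1 ≤ N → 0 < A →
    ∀ S : Finset (Finset D.P), (∀ c ∈ S, Nm D c ≤ X ∧
      ¬ (∏ p ∈ (pf D c).filter (fun p => D.nm p ≤ zz N X s), D.nm p) ^ A ≤ zz N X (s + 1)) →
    (S.card : ℝ) ≤ 4 * A * C * X * Real.log X ^ (κ - 1 - 1 / (N : ℝ)) := by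
  obtain ⟨C, hC, h⟩ := smoothK99 hκ0 hκ1 hS hM
  refine ⟨C, hC, fun N A X s hX h4N hκ hA S hSc => ?_⟩
  have hA' : (0 : ℝ) < A := by exact_mod_cast hA
  have hlX := log_ge_one hX
  have hN' : (0 : ℝ) < N := by exact_mod_cast (by omega : 0 < N)
  have hz2 := zz_two (N := N) (κ := s) hX
  have hz3 := zz_two (N := N) (κ := s + 1) hX
  have hlz : 0 < Real.log (zz N X (s + 1)) := Real.log_pos (by exact_mod_cast (by omega : 1 < zz N X (s + 1)))
  have h1 := h (zz N X s) X hz2 (zz_pow4_99 hX hκ h4N) (Real.log (zz N X (s + 1)) / A) (by positivity) S (by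
    intro c hc
    obtain ⟨g1, g2⟩ := hSc c hc
    refine ⟨g1, ?_⟩
    push Not at g2
    have g3 : (zz N X (s + 1) : ℝ) ≤ ((∏ p ∈ (pf D c).filter (fun p => D.nm p ≤ zz N X s), D.nm p : ℕ) : ℝ) ^ A := by exact_mod_cast g2.le
    have g4 := Real.log_le_log (by exact_mod_cast (by omega : 0 < zz N X (s + 1))) g3
    rw [Real.log_pow, Nat.cast_prod, Real.log_prod] at g4
    · rw [div_le_iff₀ hA', mul_comm]
      refine g4.trans (mul_le_mul_of_nonneg_left ?_ hA'.le)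
      refine Finset.sum_le_sum_of_subset_of_nonneg ?_ fun p _ _ => Real.log_nonneg ?_
      · intro p hp
        obtain ⟨k1, k2⟩ := Finset.mem_filter.mp hp
        exact Finset.mem_filter.mpr ⟨(mem_pf.mp k1).1, k2⟩
      · have := hS.two p
        exact_mod_cast (by omega : 1 ≤ D.nm p)
    · intro p _
      have := hS.two p
      exact_mod_cast (by omega : D.nm p ≠ 0))
  refine h1.trans ?_
  have h2 := log_zz_le (N := N) (κ := s) hX (by omega)
  have h3 := le_log_zz (N := N) (κ := s + 1) hX hκ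
  have hp1 : 0 < Real.log X ^ ((s : ℝ) / N) := by positivity
  have hp2 : 0 < Real.log X ^ (((s + 1 : ℕ) : ℝ) / N) := by positivity
  have h4 : Real.log (zz N X s) / (Real.log (zz N X (s + 1)) / A) ≤ 4 * A * Real.log X ^ (-(1 / (N : ℝ))) := by
    have e : Real.log X ^ (-(1 / (N : ℝ))) = Real.log X ^ ((s : ℝ) / N) / Real.log X ^ (((s + 1 : ℕ) : ℝ) / N) := by
      rw [← Real.rpow_sub (by linarith)]
      congr 1
      push_cast
      field_simp
      ring
    rw [e, div_div_eq_mul_div, div_le_iff₀ hlz]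
    have h5 : 4 * (A : ℝ) * (Real.log X ^ ((s : ℝ) / N) / Real.log X ^ (((s + 1 : ℕ) : ℝ) / N)) * (1 / 4 * Real.log X ^ (((s + 1 : ℕ) : ℝ) / N)) ≤
        4 * (A : ℝ) * (Real.log X ^ ((s : ℝ) / N) / Real.log X ^ (((s + 1 : ℕ) : ℝ) / N)) * Real.log (zz N X (s + 1)) :=
      mul_le_mul_of_nonneg_left h3 (by positivity)
    refine le_trans ?_ h5
    calc Real.log (zz N X s) * A ≤ Real.log X ^ ((s : ℝ) / N) * A := mul_le_mul_of_nonneg_right h2 hA'.le
      _ = _ := by field_simp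
  calc C * X * Real.log X ^ (κ - 1) * (Real.log (zz N X s) / (Real.log (zz N X (s + 1)) / A)) ≤
        C * X * Real.log X ^ (κ - 1) * (4 * A * Real.log X ^ (-(1 / (N : ℝ)))) :=
        mul_le_mul_of_nonneg_left h4 (by positivity)
    _ = 4 * A * C * X * (Real.log X ^ (κ - 1) * Real.log X ^ (-(1 / (N : ℝ)))) := by ring
    _ = _ := by rw [← Real.rpow_add (by linarith), ← sub_eq_add_neg]

open Classical in
/-- few sets without primes which have no option in `J` -/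
private theorem exc_F {D : CD k G} {κ : ℝ} (hS : Sys D.P D.nm) (hM : MertK D κ) {δ CA : ℝ} (hδ : 0 < δ)
    (hTA : ∀ J, TA D J → ∀ y x : ℕ, 2 ≤ y → y ≤ x →
    ∀ S : Finset D.P, (∀ p, p ∈ S ↔ p ∉ D.Ex ∧ y < D.nm p ∧ D.nm p ≤ x ∧ ∀ o ∈ D.V p, D.cmp o ∉ J) →
      δ * (Real.log (Real.log x) - Real.log (Real.log y)) - CA ≤ ∑ p ∈ S, (1 : ℝ) / D.nm p) :
    ∃ C : ℝ, 0 < C ∧ ∀ (N X s : ℕ) (J : Finset (Fin k)), 3 ≤ X → s < N → TA D J →
    ∀ S : Finset (Finset D.P), (∀ c ∈ S, Nm D c ≤ X ∧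
      ¬ ∃ p ∈ pf D c, sc (zz N X) N (D.nm p) = s ∧ ∀ o ∈ D.V p, D.cmp o ∉ J) →
    (S.card : ℝ) ≤ C * X * Real.log X ^ (κ - 1 - δ / (N : ℝ)) := by
  obtain ⟨C, hC, h⟩ := hallK99 hS hM
  refine ⟨C * Real.exp (CA + δ * Real.log 4), by positivity, fun N X s J hX hκ hJ S hSc => ?_⟩
  have hlX := log_ge_one hX
  set T := (pr D X).filter (fun p => p ∉ D.Ex ∧ sc (zz N X) N (D.nm p) = s ∧ ∀ o ∈ D.V p, D.cmp o ∉ J) with hT
  set T' := (pr D (zz N X (s + 1))).filter (fun p => p ∉ D.Ex ∧ zz N X s < D.nm p ∧ ∀ o ∈ D.V p, D.cmp o ∉ J) with hT'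
  have hN : 0 < N := by omega
  have h1 := h X (by omega) T (fun p hp => (mem_pr hS).mp (Finset.mem_filter.mp hp).1) S (by
    intro c hc
    obtain ⟨g1, g2⟩ := hSc c hc
    refine ⟨g1, ?_⟩
    rw [Finset.disjoint_left]
    intro p hp hpT
    obtain ⟨_, k1, k2, k3⟩ := Finset.mem_filter.mp hpT
    exact g2 ⟨p, mem_pf.mpr ⟨hp, k1⟩, k2, k3⟩)
  have hsub : T' ⊆ T := by
    intro p hp
    obtain ⟨k0, k1, k2, k3⟩ := Finset.mem_filter.mp hp
    have k4 := (mem_pr hS).mp k0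
    refine Finset.mem_filter.mpr ⟨(mem_pr hS).mpr ?_, k1, ?_, k3⟩
    · rw [← zz_top hN hX]
      exact k4.trans (zz_mono hX (by omega))
    · have k5 : s ≤ sc (zz N X) N (D.nm p) := Nat.le_findGreatest (by omega) k2
      by_contra hne
      have k6 : s + 1 ≤ sc (zz N X) N (D.nm p) := by omega
      have k7 := sc_pos (z := zz N X) (N := N) (p := D.nm p) (by omega)
      have k8 := zz_mono (N := N) hX k6
      omega
  have h2 := hTA J hJ (zz N X s) (zz N X (s + 1)) (zz_two hX) (zz_mono hX (Nat.le_succ s)) T' (by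
    intro p
    rw [hT', Finset.mem_filter, mem_pr hS]
    tauto)
  have h3 : ∑ p ∈ T', (1 : ℝ) / D.nm p ≤ ∑ p ∈ T, (1 : ℝ) / D.nm p :=
    Finset.sum_le_sum_of_subset_of_nonneg hsub fun p _ _ => by positivity
  have h4 := ll_diff' hN hX hκ
  have h5 : δ * (Real.log (Real.log X) / N - Real.log 4) ≤
      δ * (Real.log (Real.log (zz N X (s + 1))) - Real.log (Real.log (zz N X s))) := mul_le_mul_of_nonneg_left h4 hδ.le
  have h6 : Real.exp (-∑ p ∈ T, (1 : ℝ) / D.nm p) ≤ Real.exp (CA + δ * Real.log 4) * Real.log X ^ (-(δ / (N : ℝ))) := by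
    rw [← exp_ll hX, ← Real.exp_add]
    refine Real.exp_le_exp.mpr ?_
    have e : -(δ / (N : ℝ)) * Real.log (Real.log X) = -(δ * (Real.log (Real.log X) / N)) := by ring
    rw [e]
    linarith
  calc (S.card : ℝ) ≤ C * X * Real.log X ^ (κ - 1) * Real.exp (-∑ p ∈ T, (1 : ℝ) / D.nm p) := h1
    _ ≤ C * X * Real.log X ^ (κ - 1) * (Real.exp (CA + δ * Real.log 4) * Real.log X ^ (-(δ / (N : ℝ)))) := mul_le_mul_of_nonneg_left h6 (by positivity)
    _ = C * Real.exp (CA + δ * Real.log 4) * X * (Real.log X ^ (κ - 1) * Real.log X ^ (-(δ / (N : ℝ)))) := by ring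
    _ = _ := by rw [← Real.rpow_add (by linarith), ← sub_eq_add_neg]

private theorem rpow_le99 {X : ℕ} (hX : 3 ≤ X) {a b : ℝ} (h : a ≤ b) : Real.log X ^ a ≤ Real.log X ^ b :=
  Real.rpow_le_rpow_of_exponent_le (log_ge_one hX) h

open Classical in
/-- the counting theorem for the primes of density `κ` -/
theorem countK99 [CommGroup G] (D : CD k G) {κ : ℝ} (hκ0 : 0 < κ) (hκ1 : κ ≤ 1) (hS : Sys D.P D.nm) (hM : MertK D κ)
    (hV : ∃ K : ℕ, ∀ p, (D.V p).card ≤ K) (hBT : BT D) (hTAB : ∀ J : Finset (Fin k), TA D J ∨ TBK D κ J) (o₀ : D.O) :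
    ∃ η C : ℝ, 0 < η ∧ 0 < C ∧ ∀ X : ℕ, 3 ≤ X → ∀ S : Finset (Finset D.P),
      (∀ c ∈ S, Nm D c ≤ X ∧ Bad D c) → (S.card : ℝ) ≤ C * X * Real.log X ^ (κ - 1 - η) := by
  obtain ⟨K₀, hV⟩ := hV
  obtain ⟨δB, CB, hδB, hδB1, hCB, hTB⟩ := unif_B D hκ0
  obtain ⟨δA, CA, hδA, hCA, hTA⟩ := unif_A D
  obtain ⟨CM', hMe'⟩ := hS.mert
  obtain ⟨CM, hCM, hMe⟩ : ∃ CM : ℝ, 0 ≤ CM ∧ ∀ y x : ℕ, 2 ≤ y → y ≤ x → ∀ S : Finset D.P, (∀ p ∈ S, y < D.nm p ∧ D.nm p ≤ x) →
      ∑ p ∈ S, (1 : ℝ) / D.nm p ≤ Real.log (Real.log x) - Real.log (Real.log y) + CM :=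
    ⟨|CM'|, abs_nonneg _, fun y x hy hx S h => (hMe' y x hy hx S h).trans (by linarith [le_abs_self CM'])⟩
  -- parameters
  obtain ⟨e, he⟩ : ∃ e : ℝ, e = δB / (4 * (k + 1)) := ⟨_, rfl⟩
  have hk1 : (0 : ℝ) < (k : ℝ) + 1 := by positivity
  have he0 : 0 < e := by
    rw [he]
    positivity
  have hek : (k + 1) * e = δB / 4 := by
    rw [he]
    field_simp
  have he1 : e ≤ 1 := by
    have h1 : 1 * e ≤ (k + 1) * e := mul_le_mul_of_nonneg_right (by linarith [(Nat.cast_nonneg k : (0 : ℝ) ≤ k)]) he0.le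
    linarith
  obtain ⟨C, A', hC, hBT'⟩ := hBT e he0
  obtain ⟨A, hA⟩ : ∃ A : ℕ, A = A' + 1 := ⟨_, rfl⟩
  have hBTc : BTc D e C A := by
    intro j m hm τ hτ t h h2 hmA T hT
    refine hBT' j m hm τ hτ t h h2 (le_trans ?_ hmA) T hT
    exact Nat.pow_le_pow_right (Nm_pos hS m) (by omega)
  obtain ⟨N, hN'⟩ := exists_nat_gt (4 * (1 + 2 * k * K₀) / δB)
  have hN1 : 4 * (1 + 2 * (k : ℝ) * K₀) < δB * N := by
    rw [div_lt_iff₀ hδB] at hN'
    linarith
  have hNpos : (0 : ℝ) < N := lt_of_le_of_lt (by positivity) hN'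
  have hN2 : 2 ≤ N := by
    by_contra hlt
    have h1 : (N : ℝ) ≤ 1 := by exact_mod_cast (by omega : N ≤ 1)
    have h2 : 0 ≤ 2 * (k : ℝ) * K₀ := by positivity
    nlinarith
  have hNfrac : (1 + 2 * (k : ℝ) * K₀) / N ≤ δB / 4 := by
    rw [div_le_iff₀ hNpos]
    linarith
  obtain ⟨C₀, hC₀, hcnt⟩ := countK_le99 hS hM
  obtain ⟨C₁, hC₁, hE⟩ := exc_E hκ0 hκ1 hS hM
  obtain ⟨C₂, hC₂, hF⟩ := exc_F hS hM hδA hTA
  obtain ⟨B₀, hB₀⟩ : ∃ B₀ : ℝ, B₀ = D.Ex.card + K₀ * (pr D 2).card + N * ((Real.log 4 + CB) + K₀ * (Real.log 4 + CM)) := ⟨_, rfl⟩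
  obtain ⟨C₃, hC₃⟩ : ∃ C₃ : ℝ, C₃ = (N + 1) ^ k * (C * (1 + 16 / e * C) ^ k * 4 * Real.exp B₀) := ⟨_, rfl⟩
  have hC₃0 : 0 ≤ C₃ := by
    rw [hC₃]
    positivity
  obtain ⟨η, hη⟩ : ∃ η : ℝ, η = min (1 / (N : ℝ)) (min (δA / N) (δB / 2)) := ⟨_, rfl⟩
  have hη0 : 0 < η := by
    rw [hη]
    exact lt_min (by positivity) (lt_min (by positivity) (by positivity))
  have hη1 : η ≤ 1 := by
    rw [hη]
    refine (min_le_left _ _).trans ?_
    rw [div_le_one hNpos]
    exact_mod_cast (by omega : 1 ≤ N)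
  refine ⟨η, C₀ * 4 ^ N + ((N : ℝ) * (4 * A * C₁) + (N : ℝ) * (Fintype.card (Finset (Fin k)) * C₂) + C₃ + 1), hη0, by positivity, fun X hX S hSc => ?_⟩
  have hX0 : (0 : ℝ) < X := by exact_mod_cast (by omega : 0 < X)
  have hlX := log_ge_one hX
  have hLp : 0 < Real.log X := by linarith
  have r0 : 0 < Real.log X ^ (κ - 1 - η) := Real.rpow_pos_of_pos hLp _
  have hR0 : 0 ≤ (N : ℝ) * (4 * A * C₁) + (N : ℝ) * (Fintype.card (Finset (Fin k)) * C₂) + C₃ + 1 := by positivity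
  rcases lt_or_ge (Real.log X) ((4 : ℝ) ^ N) with hsmall | hlarge
  · -- small `X`
    have h1 := hcnt X (by omega) S fun c hc => (hSc c hc).1
    have h2 : Real.log X ^ (κ - 1) ≤ 4 ^ N * Real.log X ^ (κ - 1 - η) := by
      have e1 : Real.log X ^ (κ - 1) = Real.log X ^ η * Real.log X ^ (κ - 1 - η) := by
        rw [← Real.rpow_add hLp]
        congr 1
        ring
      rw [e1]
      refine mul_le_mul_of_nonneg_right ?_ r0.le
      calc Real.log X ^ η ≤ Real.log X ^ (1 : ℝ) := rpow_le99 hX hη1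
        _ = Real.log X := Real.rpow_one _
        _ ≤ _ := hsmall.le
    calc (S.card : ℝ) ≤ C₀ * X * Real.log X ^ (κ - 1) := h1
      _ ≤ C₀ * X * (4 ^ N * Real.log X ^ (κ - 1 - η)) := mul_le_mul_of_nonneg_left h2 (by positivity)
      _ = C₀ * 4 ^ N * X * Real.log X ^ (κ - 1 - η) := by ring
      _ ≤ _ := by
        refine mul_le_mul_of_nonneg_right (mul_le_mul_of_nonneg_right ?_ hX0.le) r0.le
        linarith
  set z := zz N X with hz
  -- the exceptional sets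
  let SE : ℕ → Finset (Finset D.P) := fun s => S.filter fun c =>
    ¬ (∏ p ∈ (pf D c).filter (fun p => D.nm p ≤ z s), D.nm p) ^ A ≤ z (s + 1)
  let SF : ℕ → Finset (Fin k) → Finset (Finset D.P) := fun s J => S.filter fun c =>
    ¬ TBK D κ J ∧ ¬ ∃ p ∈ pf D c, sc z N (D.nm p) = s ∧ ∀ o ∈ D.V p, D.cmp o ∉ J
  set S' := S.filter fun c =>
      (∀ s < N, ∀ J, ¬ TBK D κ J → ∃ p ∈ pf D c, sc z N (D.nm p) = s ∧ ∀ o ∈ D.V p, D.cmp o ∉ J) ∧
      (∀ s, 1 ≤ s → s + 1 ≤ N - 1 → (∏ p ∈ (pf D c).filter (fun p => D.nm p ≤ z s), D.nm p) ^ A ≤ z (s + 1)) with hS'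
  have hcov : S ⊆ ((Finset.range (N - 1)).biUnion SE ∪ (Finset.range N).biUnion fun s => Finset.univ.biUnion fun J => SF s J) ∪ S' := by
    intro c hc
    by_cases g1 : ∀ s < N, ∀ J, ¬ TBK D κ J → ∃ p ∈ pf D c, sc z N (D.nm p) = s ∧ ∀ o ∈ D.V p, D.cmp o ∉ J
    · by_cases g2 : ∀ s, 1 ≤ s → s + 1 ≤ N - 1 → (∏ p ∈ (pf D c).filter (fun p => D.nm p ≤ z s), D.nm p) ^ A ≤ z (s + 1)
      · exact Finset.mem_union_right _ (Finset.mem_filter.mpr ⟨hc, g1, g2⟩)
      · simp only [not_forall] at g2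
        obtain ⟨s, h1, h2, h3⟩ := g2
        refine Finset.mem_union_left _ (Finset.mem_union_left _ (Finset.mem_biUnion.mpr ⟨s, Finset.mem_range.mpr (by omega), ?_⟩))
        exact Finset.mem_filter.mpr ⟨hc, h3⟩
    · simp only [not_forall] at g1
      obtain ⟨s, h1, J, h2, h3⟩ := g1
      refine Finset.mem_union_left _ (Finset.mem_union_right _ (Finset.mem_biUnion.mpr ⟨s, Finset.mem_range.mpr h1,
        Finset.mem_biUnion.mpr ⟨J, Finset.mem_univ _, ?_⟩⟩))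
      exact Finset.mem_filter.mpr ⟨hc, h2, h3⟩
  have hcard : (S.card : ℝ) ≤ (∑ s ∈ Finset.range (N - 1), ((SE s).card : ℝ)) +
      (∑ s ∈ Finset.range N, ∑ J : Finset (Fin k), ((SF s J).card : ℝ)) + S'.card := by
    have g1 := Finset.card_le_card hcov
    have g2 := (Finset.card_union_le ((Finset.range (N - 1)).biUnion SE ∪ (Finset.range N).biUnion fun s => Finset.univ.biUnion fun J => SF s J) S')
    have g3 := (Finset.card_union_le ((Finset.range (N - 1)).biUnion SE) ((Finset.range N).biUnion fun s => Finset.univ.biUnion fun J => SF s J))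
    have g4 := Finset.card_biUnion_le (s := Finset.range (N - 1)) (t := SE)
    have g5 : ((Finset.range N).biUnion fun s => Finset.univ.biUnion fun J => SF s J).card ≤ ∑ s ∈ Finset.range N, ∑ J : Finset (Fin k), (SF s J).card :=
      Finset.card_biUnion_le.trans (Finset.sum_le_sum fun s _ => Finset.card_biUnion_le)
    have g6 : S.card ≤ (∑ s ∈ Finset.range (N - 1), (SE s).card) + (∑ s ∈ Finset.range N, ∑ J : Finset (Fin k), (SF s J).card) + S'.card := by omega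
    exact_mod_cast g6
  have b1 : ∑ s ∈ Finset.range (N - 1), ((SE s).card : ℝ) ≤ X * ((N : ℝ) * (4 * A * C₁) * Real.log X ^ (κ - 1 - 1 / (N : ℝ))) := by
    have g : ∀ s ∈ Finset.range (N - 1), ((SE s).card : ℝ) ≤ 4 * A * C₁ * X * Real.log X ^ (κ - 1 - 1 / (N : ℝ)) := by
      intro s hs
      have hs' := Finset.mem_range.mp hs
      refine hE N A X s hX hlarge (by omega) (by omega) (SE s) fun c hc => ?_
      obtain ⟨g1, g2⟩ := Finset.mem_filter.mp hc
      exact ⟨(hSc c g1).1, g2⟩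
    refine (Finset.sum_le_sum g).trans ?_
    rw [Finset.sum_const, Finset.card_range, nsmul_eq_mul]
    have h1 : ((N - 1 : ℕ) : ℝ) ≤ N := by exact_mod_cast Nat.sub_le N 1
    calc ((N - 1 : ℕ) : ℝ) * (4 * A * C₁ * X * Real.log X ^ (κ - 1 - 1 / (N : ℝ))) ≤ N * (4 * A * C₁ * X * Real.log X ^ (κ - 1 - 1 / (N : ℝ))) :=
          mul_le_mul_of_nonneg_right h1 (by positivity)
      _ = _ := by ring
  have b2 : ∑ s ∈ Finset.range N, ∑ J : Finset (Fin k), ((SF s J).card : ℝ) ≤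
      X * ((N : ℝ) * (Fintype.card (Finset (Fin k)) * C₂) * Real.log X ^ (κ - 1 - δA / (N : ℝ))) := by
    have g : ∀ s ∈ Finset.range N, ∀ J ∈ (Finset.univ : Finset (Finset (Fin k))), ((SF s J).card : ℝ) ≤ C₂ * X * Real.log X ^ (κ - 1 - δA / (N : ℝ)) := by
      intro s hs J _
      by_cases hJ : TBK D κ J
      · have : SF s J = ∅ := by
          rw [Finset.eq_empty_iff_forall_notMem]
          intro c hc
          exact (Finset.mem_filter.mp hc).2.1 hJ
        rw [this]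
        simp only [Finset.card_empty, Nat.cast_zero]
        positivity
      · have hJA : TA D J := (hTAB J).resolve_right hJ
        refine hF N X s J hX (Finset.mem_range.mp hs) hJA (SF s J) fun c hc => ?_
        obtain ⟨g1, g2⟩ := Finset.mem_filter.mp hc
        exact ⟨(hSc c g1).1, g2.2⟩
    refine (Finset.sum_le_sum fun s hs => Finset.sum_le_sum (g s hs)).trans (le_of_eq ?_)
    rw [Finset.sum_const, Finset.sum_const, Finset.card_range, Finset.card_univ, nsmul_eq_mul, nsmul_eq_mul]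
    ring
  have b3 : (S'.card : ℝ) ≤ X * (C₃ * Real.log X ^ (κ - 1 - δB / 2)) := by
    have hTB' : ∀ J, TBK D κ J → ∀ y x : ℕ, 2 ≤ y → y ≤ x → ∀ S : Finset D.P, (∀ p, p ∈ S ↔ p ∉ D.Ex ∧ y < D.nm p ∧ D.nm p ≤ x) →
        ∑ p ∈ S, WJ D J p / D.nm p ≤ (1 - (1 - κ + δB)) * (Real.log (Real.log x) - Real.log (Real.log y)) + CB := by
      intro J hJ y x hy hx S hS
      have g := hTB J hJ y x hy hx S hS
      have e1 : 1 - (1 - κ + δB) = κ - δB := by ring
      rw [e1]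
      exact g
    have g1 := main_count hS hC he0 he1 hBTc (z := z) hN2 (zz_two hX) hX (PB := TBK D κ) (fun J hJ => hJ.1) o₀ S' (by
      intro c hc
      obtain ⟨k1, k2, k3⟩ := Finset.mem_filter.mp hc
      exact ⟨(hSc c k1).1, (hSc c k1).2, k2, k3⟩)
      (B := B₀ + ((1 - (1 - κ + δB)) + 2 * k * K₀ / N) * Real.log (Real.log X)) (by
        intro K _ hK
        have := ap_sum hS hV (δ := 1 - κ + δB) (by linarith) (by linarith) hCB hCM hTB' hMe (by omega : 0 < N) hX K hK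
        rw [hB₀]
        exact this)
    refine g1.trans ?_
    rw [Real.exp_add, exp_ll hX, mul_pow, ← Real.rpow_natCast (Real.log X ^ e) k, ← Real.rpow_mul (by linarith)]
    have g2 : 1 / 4 * Real.log X ^ ((((N - 1 : ℕ) : ℝ) / N) * (1 - e)) ≤ Real.log (z (N - 1)) ^ (1 - e) := by
      have k1 := le_log_zz (N := N) (κ := N - 1) hX (Nat.sub_le N 1)
      have k2 : (1 / 4 * Real.log X ^ (((N - 1 : ℕ) : ℝ) / N)) ^ (1 - e) ≤ Real.log (z (N - 1)) ^ (1 - e) :=
        Real.rpow_le_rpow (by positivity) k1 (by linarith)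
      rw [Real.mul_rpow (by norm_num) (by positivity), ← Real.rpow_mul hLp.le] at k2
      refine le_trans (mul_le_mul_of_nonneg_right ?_ (by positivity)) k2
      calc (1 / 4 : ℝ) = (1 / 4 : ℝ) ^ (1 : ℝ) := (Real.rpow_one _).symm
        _ ≤ (1 / 4 : ℝ) ^ (1 - e) := Real.rpow_le_rpow_of_exponent_ge (by norm_num) (by norm_num) (by linarith)
    have g3 : 0 < Real.log X ^ ((((N - 1 : ℕ) : ℝ) / N) * (1 - e)) := by positivity
    have g4 : C * ((1 + 16 / e * C) ^ k * Real.log X ^ (e * k)) / Real.log (z (N - 1)) ^ (1 - e) ≤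
        C * ((1 + 16 / e * C) ^ k * Real.log X ^ (e * k)) / (1 / 4 * Real.log X ^ ((((N - 1 : ℕ) : ℝ) / N) * (1 - e))) :=
      div_le_div_of_nonneg_left (by positivity) (by positivity) g2
    have g5 : Real.log X ^ (e * k) / Real.log X ^ ((((N - 1 : ℕ) : ℝ) / N) * (1 - e)) * Real.log X ^ ((1 - (1 - κ + δB)) + 2 * k * K₀ / N) ≤
        Real.log X ^ (κ - 1 - δB / 2) := by
      rw [← Real.rpow_sub hLp, ← Real.rpow_add hLp]
      refine Real.rpow_le_rpow_of_exponent_le hlX ?_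
      have k1 : ((N - 1 : ℕ) : ℝ) / N = 1 - 1 / N := by
        rw [Nat.cast_sub (by omega)]
        field_simp
        push_cast
        ring
      rw [k1]
      have k2 : (1 + 2 * (k : ℝ) * K₀) / N = 1 / N + 2 * k * K₀ / N := by ring
      have k3 : 0 ≤ 1 / (N : ℝ) * e := by positivity
      have k4 : (1 - 1 / (N : ℝ)) * (1 - e) = 1 - 1 / N - e + 1 / N * e := by ring
      rw [k4]
      have k5 : e * k + e = δB / 4 := by
        rw [← hek]
        ring
      linarith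
    rw [hC₃]
    calc (N + 1 : ℝ) ^ k * (C * ((1 + 16 / e * C) ^ k * Real.log X ^ (e * k)) / Real.log (z (N - 1)) ^ (1 - e) * X *
          (Real.exp B₀ * Real.log X ^ ((1 - (1 - κ + δB)) + 2 * k * K₀ / N)))
        ≤ (N + 1 : ℝ) ^ k * (C * ((1 + 16 / e * C) ^ k * Real.log X ^ (e * k)) / (1 / 4 * Real.log X ^ ((((N - 1 : ℕ) : ℝ) / N) * (1 - e))) * X *
          (Real.exp B₀ * Real.log X ^ ((1 - (1 - κ + δB)) + 2 * k * K₀ / N))) := by
          refine mul_le_mul_of_nonneg_left ?_ (by positivity)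
          refine mul_le_mul_of_nonneg_right ?_ (by positivity)
          exact mul_le_mul_of_nonneg_right g4 hX0.le
      _ = (N + 1 : ℝ) ^ k * (C * (1 + 16 / e * C) ^ k * 4 * Real.exp B₀) * X *
          (Real.log X ^ (e * k) / Real.log X ^ ((((N - 1 : ℕ) : ℝ) / N) * (1 - e)) * Real.log X ^ ((1 - (1 - κ + δB)) + 2 * k * K₀ / N)) := by
          field_simp
      _ ≤ (N + 1 : ℝ) ^ k * (C * (1 + 16 / e * C) ^ k * 4 * Real.exp B₀) * X * Real.log X ^ (κ - 1 - δB / 2) :=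
          mul_le_mul_of_nonneg_left g5 (by positivity)
      _ = _ := by ring
  have r1 : Real.log X ^ (κ - 1 - 1 / (N : ℝ)) ≤ Real.log X ^ (κ - 1 - η) := rpow_le99 hX (by
    have : η ≤ 1 / (N : ℝ) := by rw [hη]; exact min_le_left _ _
    linarith)
  have r2 : Real.log X ^ (κ - 1 - δA / (N : ℝ)) ≤ Real.log X ^ (κ - 1 - η) := rpow_le99 hX (by
    have : η ≤ δA / (N : ℝ) := by rw [hη]; exact (min_le_right _ _).trans (min_le_left _ _)
    linarith)
  have r3 : Real.log X ^ (κ - 1 - δB / 2) ≤ Real.log X ^ (κ - 1 - η) := rpow_le99 hX (by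
    have : η ≤ δB / 2 := by rw [hη]; exact (min_le_right _ _).trans (min_le_right _ _)
    linarith)
  have s1 : (N : ℝ) * (4 * A * C₁) * Real.log X ^ (κ - 1 - 1 / (N : ℝ)) ≤ (N : ℝ) * (4 * A * C₁) * Real.log X ^ (κ - 1 - η) :=
    mul_le_mul_of_nonneg_left r1 (by positivity)
  have s2 : (N : ℝ) * (Fintype.card (Finset (Fin k)) * C₂) * Real.log X ^ (κ - 1 - δA / (N : ℝ)) ≤
      (N : ℝ) * (Fintype.card (Finset (Fin k)) * C₂) * Real.log X ^ (κ - 1 - η) := mul_le_mul_of_nonneg_left r2 (by positivity)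
  have s3 : C₃ * Real.log X ^ (κ - 1 - δB / 2) ≤ C₃ * Real.log X ^ (κ - 1 - η) := mul_le_mul_of_nonneg_left r3 hC₃0
  have s5 : 0 ≤ C₀ * 4 ^ N * Real.log X ^ (κ - 1 - η) := by positivity
  have s4 : (N : ℝ) * (4 * A * C₁) * Real.log X ^ (κ - 1 - 1 / (N : ℝ)) +
      (N : ℝ) * (Fintype.card (Finset (Fin k)) * C₂) * Real.log X ^ (κ - 1 - δA / (N : ℝ)) + C₃ * Real.log X ^ (κ - 1 - δB / 2) ≤
      (C₀ * 4 ^ N + ((N : ℝ) * (4 * A * C₁) + (N : ℝ) * (Fintype.card (Finset (Fin k)) * C₂) + C₃ + 1)) * Real.log X ^ (κ - 1 - η) := by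
    have e : (C₀ * 4 ^ N + ((N : ℝ) * (4 * A * C₁) + (N : ℝ) * (Fintype.card (Finset (Fin k)) * C₂) + C₃ + 1)) * Real.log X ^ (κ - 1 - η) =
      C₀ * 4 ^ N * Real.log X ^ (κ - 1 - η) + ((N : ℝ) * (4 * A * C₁) * Real.log X ^ (κ - 1 - η) +
        (N : ℝ) * (Fintype.card (Finset (Fin k)) * C₂) * Real.log X ^ (κ - 1 - η) +
        C₃ * Real.log X ^ (κ - 1 - η) + Real.log X ^ (κ - 1 - η)) := by ring
    rw [e]
    linarith
  calc (S.card : ℝ) ≤ X * ((N : ℝ) * (4 * A * C₁) * Real.log X ^ (κ - 1 - 1 / (N : ℝ))) +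
        X * ((N : ℝ) * (Fintype.card (Finset (Fin k)) * C₂) * Real.log X ^ (κ - 1 - δA / (N : ℝ))) + X * (C₃ * Real.log X ^ (κ - 1 - δB / 2)) := by linarith
    _ = X * ((N : ℝ) * (4 * A * C₁) * Real.log X ^ (κ - 1 - 1 / (N : ℝ)) +
        (N : ℝ) * (Fintype.card (Finset (Fin k)) * C₂) * Real.log X ^ (κ - 1 - δA / (N : ℝ)) + C₃ * Real.log X ^ (κ - 1 - δB / 2)) := by ring
    _ ≤ X * ((C₀ * 4 ^ N + ((N : ℝ) * (4 * A * C₁) + (N : ℝ) * (Fintype.card (Finset (Fin k)) * C₂) + C₃ + 1)) * Real.log X ^ (κ - 1 - η)) :=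
        mul_le_mul_of_nonneg_left s4 hX0.le
    _ = _ := by ring

/-! ## The restriction to a set of primes -/

open Classical in
/-- the restriction of the data to the primes of `R` and the excluded primes -/
noncomputable def res (D : CD k G) (R : Set D.P) : CD k G where
  P := {p : D.P // p ∈ R ∨ p ∈ D.Ex}
  nm := fun p => D.nm p.1
  Ex := D.Ex.subtype (fun p => p ∈ R ∨ p ∈ D.Ex)
  O := D.O
  ι := D.ι
  V := fun p => D.V p.1
  cmp := D.cmp
  I := fun p o j => D.I p.1 o j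
  χ := fun p i q o => D.χ p.1 i q.1 o
  g := fun p o i => D.g p.1 o i

section res

variable {D : CD k G} {R : Set D.P}

theorem mem_Ex_res {p : (res D R).P} : p ∈ (res D R).Ex ↔ p.1 ∈ D.Ex := by
  classical
  exact Finset.mem_subtype

/-- the image in the old set of primes -/
noncomputable def up (S : Finset (res D R).P) : Finset D.P :=
  S.map (Function.Embedding.subtype fun p => p ∈ R ∨ p ∈ D.Ex)

theorem mem_up {S : Finset (res D R).P} {p : D.P} : p ∈ up S ↔ ∃ h : p ∈ R ∨ p ∈ D.Ex, (⟨p, h⟩ : (res D R).P) ∈ S := by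
  unfold up
  rw [Finset.mem_map]
  constructor
  · rintro ⟨⟨q, hq⟩, h1, h2⟩
    change q = p at h2
    subst h2
    exact ⟨hq, h1⟩
  · rintro ⟨h, hS⟩
    exact ⟨⟨p, h⟩, hS, rfl⟩

theorem val_mem_up {S : Finset (res D R).P} {p : (res D R).P} : p.1 ∈ up S ↔ p ∈ S := by
  rw [mem_up]
  constructor
  · rintro ⟨h, hS⟩
    exact hS
  · exact fun h => ⟨p.2, h⟩

theorem sum_up {S : Finset (res D R).P} (f : D.P → ℝ) : ∑ p ∈ up S, f p = ∑ p ∈ S, f p.1 := by
  unfold up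
  rw [Finset.sum_map]
  rfl

theorem card_up {S : Finset (res D R).P} : (up S).card = S.card :=
  Finset.card_map _

theorem Nm_up {S : Finset (res D R).P} : Nm D (up S) = Nm (res D R) S := by
  unfold up Nm
  rw [Finset.prod_map]
  rfl

theorem sys_res {κ : ℝ} (hκ1 : κ ≤ 1) (h : Pool.Agent.MP.SysR D.P D.nm R κ) : Sys (res D R).P (res D R).nm ∧ MertK (res D R) κ := by
  classical
  obtain ⟨C, hC⟩ := h.mert
  have hM : ∀ y x : ℕ, 2 ≤ y → y ≤ x → ∀ S : Finset (res D R).P, (∀ p ∈ S, y < (res D R).nm p ∧ (res D R).nm p ≤ x) →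
      ∑ p ∈ S, (1 : ℝ) / (res D R).nm p ≤ κ * (Real.log (Real.log x) - Real.log (Real.log y)) + (C + D.Ex.card) := by
    intro y x hy hx S hS
    have h1 : ∑ p ∈ S, (1 : ℝ) / (res D R).nm p = ∑ p ∈ up S, (1 : ℝ) / D.nm p := (sum_up fun p => (1 : ℝ) / D.nm p).symm
    rw [h1, ← Finset.sum_filter_add_sum_filter_not (up S) (fun p => p ∈ R)]
    have h2 := hC y x hy hx ((up S).filter fun p => p ∈ R) (by
      intro p hp
      obtain ⟨g1, g2⟩ := Finset.mem_filter.mp hp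
      obtain ⟨g3, g4⟩ := mem_up.mp g1
      exact ⟨g2, hS _ g4⟩)
    have h3 : ∑ p ∈ (up S).filter (fun p => ¬ p ∈ R), (1 : ℝ) / D.nm p ≤ D.Ex.card := by
      have h4 : ∑ p ∈ (up S).filter (fun p => ¬ p ∈ R), (1 : ℝ) / D.nm p ≤ ∑ p ∈ (up S).filter (fun p => ¬ p ∈ R), (1 : ℝ) := by
        refine Finset.sum_le_sum fun p _ => ?_
        have : (2 : ℝ) ≤ D.nm p := by exact_mod_cast h.two p
        rw [div_le_one (by linarith)]
        linarith
      rw [Finset.sum_const, nsmul_eq_mul, mul_one] at h4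
      refine h4.trans ?_
      have h5 : (up S).filter (fun p => ¬ p ∈ R) ⊆ D.Ex := by
        intro p hp
        obtain ⟨g1, g2⟩ := Finset.mem_filter.mp hp
        obtain ⟨g3, _⟩ := mem_up.mp g1
        exact g3.resolve_left g2
      exact_mod_cast Finset.card_le_card h5
    linarith
  refine ⟨⟨fun p => h.two p.1, fun x => ?_, ?_, C + D.Ex.card, fun y x hy hx S hS => ?_⟩, C + D.Ex.card, hM⟩
  · exact (h.fin x).preimage (f := fun p : (res D R).P => p.1) (fun a _ b _ e => Subtype.ext e)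
  · obtain ⟨C', hC'⟩ := h.cheb
    refine ⟨C', fun x S hS => ?_⟩
    have h1 : ∑ p ∈ S, Real.log ((res D R).nm p) = ∑ p ∈ up S, Real.log (D.nm p) := (sum_up fun p => Real.log (D.nm p)).symm
    rw [h1]
    refine hC' x (up S) fun p hp => ?_
    obtain ⟨g1, g2⟩ := mem_up.mp hp
    exact hS _ g2
  · have h1 := hM y x hy hx S hS
    have h2 := ll_mono hy hx
    have h3 : κ * (Real.log (Real.log x) - Real.log (Real.log y)) ≤ 1 * (Real.log (Real.log x) - Real.log (Real.log y)) :=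
      mul_le_mul_of_nonneg_right hκ1 (by linarith)
    linarith

theorem TA_res {J : Finset (Fin k)} (h : Pool.Agent.MP.TAR D R J) : TA (res D R) J := by
  classical
  obtain ⟨δ, C, hδ, h⟩ := h
  refine ⟨δ, C, hδ, fun y x hy hx S hS => ?_⟩
  have h1 := h y x hy hx (up S) (by
    intro p
    rw [mem_up]
    constructor
    · rintro ⟨g1, g2⟩
      obtain ⟨k1, k2, k3, k4⟩ := (hS _).mp g2
      have k5 : p ∉ D.Ex := fun g => k1 (mem_Ex_res.mpr g)
      exact ⟨g1.resolve_right k5, k5, k2, k3, k4⟩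
    · rintro ⟨g1, g2, g3, g4, g5⟩
      exact ⟨Or.inl g1, (hS _).mpr ⟨fun g => g2 (mem_Ex_res.mp g), g3, g4, g5⟩⟩)
  rw [sum_up fun p => (1 : ℝ) / D.nm p] at h1
  exact h1

theorem TB_res {κ : ℝ} {J : Finset (Fin k)} (h : Pool.Agent.MP.TBR D R κ J) : TBK (res D R) κ J := by
  classical
  obtain ⟨hJ, δ, C, hδ, h⟩ := h
  refine ⟨hJ, δ, C, hδ, fun y x hy hx S hS => ?_⟩
  have h1 := h y x hy hx (up S) (by
    intro p
    rw [mem_up]
    constructor
    · rintro ⟨g1, g2⟩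
      obtain ⟨k1, k2, k3⟩ := (hS _).mp g2
      have k5 : p ∉ D.Ex := fun g => k1 (mem_Ex_res.mpr g)
      exact ⟨g1.resolve_right k5, k5, k2, k3⟩
    · rintro ⟨g1, g2, g3, g4⟩
      exact ⟨Or.inl g1, (hS _).mpr ⟨fun g => g2 (mem_Ex_res.mp g), g3, g4⟩⟩)
  rw [sum_up fun p => WJ D J p / D.nm p] at h1
  exact h1

theorem BT_res (o₀ : D.O) [CommGroup G] (h : BT D) : BT (res D R) := by
  classical
  intro ε hε
  obtain ⟨C, A, hC, h⟩ := h ε hε
  refine ⟨C, A, hC, fun j m hm τ hτ t x hx hmx S hS => ?_⟩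
  have h1 := h j (up m) (by
    intro p hp g
    obtain ⟨g1, g2⟩ := mem_up.mp hp
    exact hm _ g2 (mem_Ex_res.mpr g))
    (fun p => if h : p ∈ R ∨ p ∈ D.Ex then τ ⟨p, h⟩ else o₀) (by
      intro p hp
      obtain ⟨g1, g2⟩ := mem_up.mp hp
      rw [dif_pos g1]
      exact hτ _ g2)
    (fun p i => if h : p ∈ R ∨ p ∈ D.Ex then t ⟨p, h⟩ i else 1) x hx (by
      rw [Nm_up]
      exact hmx) (up S) (by
      intro Q hQ
      obtain ⟨g1, g2⟩ := mem_up.mp hQ
      obtain ⟨k1, k2, k3, o, k4, k5, k6⟩ := hS _ g2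
      refine ⟨fun g => k1 (mem_Ex_res.mpr g), fun g => ?_, k3, o, k4, k5, ?_⟩
      · exact k2 (by
          obtain ⟨_, g4⟩ := mem_up.mp g
          exact g4)
      · intro p hp i hi
        obtain ⟨g3, g4⟩ := mem_up.mp hp
        rw [dif_pos g3] at hi
        have g5 := k6 _ g4 i hi
        rw [dif_pos g3]
        exact g5)
  rw [card_up] at h1
  refine h1.trans (le_of_eq ?_)
  congr 2
  unfold up
  rw [Finset.prod_map]
  refine Finset.prod_congr rfl fun p _ => ?_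
  have e : (if h : p.1 ∈ R ∨ p.1 ∈ D.Ex then τ ⟨p.1, h⟩ else o₀) = τ p := dif_pos p.2
  exact congrArg (fun o => (1 / 2 : ℝ) ^ (D.I p.1 o j).card) e

theorem pf_up {S : Finset (res D R).P} : pf D (up S) = up (pf (res D R) S) := by
  ext p
  rw [mem_pf, mem_up, mem_up]
  constructor
  · rintro ⟨⟨h, g⟩, g2⟩
    exact ⟨h, mem_pf.mpr ⟨g, fun g3 => g2 (mem_Ex_res.mp g3)⟩⟩
  · rintro ⟨h, g⟩
    obtain ⟨g1, g2⟩ := mem_pf.mp g
    exact ⟨⟨h, g1⟩, fun g3 => g2 (mem_Ex_res.mpr g3)⟩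

theorem Bad_res [CommGroup G] {S : Finset (res D R).P} (h : Bad D (up S)) : Bad (res D R) S := by
  classical
  obtain ⟨τ, h⟩ := h
  refine ⟨fun p => τ p.1, fun p hp => ?_⟩
  have hp' : p.1 ∈ pf D (up S) := by
    rw [pf_up]
    exact val_mem_up.mpr hp
  obtain ⟨h1, h2⟩ := h p.1 hp'
  refine ⟨h1, fun j i hi => ?_⟩
  refine Eq.trans ?_ (h2 j i hi)
  refine Finset.prod_bij (fun q _ => q.1) ?_ ?_ ?_ ?_
  · intro q hq
    obtain ⟨g1, g2, g3⟩ := Finset.mem_filter.mp hq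
    refine Finset.mem_filter.mpr ⟨?_, fun e => g2 (Subtype.ext e), g3⟩
    rw [pf_up]
    exact val_mem_up.mpr g1
  · intro a _ b _ e
    exact Subtype.ext e
  · intro q hq
    obtain ⟨g1, g2, g3⟩ := Finset.mem_filter.mp hq
    rw [pf_up] at g1
    obtain ⟨g4, g5⟩ := mem_up.mp g1
    exact ⟨⟨q, g4⟩, Finset.mem_filter.mpr ⟨g5, fun e => g2 (congrArg Subtype.val e), g3⟩, rfl⟩
  · intro q _
    rfl

end res

open Classical in
/-- block CK -/
theorem countK : Pool.Agent.MP.StmtCountK := by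
  intro k G _ D R κ hκ0 hκ1 hS hV hBT hTAB
  -- the trivial case
  by_cases hO : Nonempty D.O
  swap
  · refine ⟨1, 4, one_pos, by norm_num, fun X hX S hSc => ?_⟩
    have hsub : S ⊆ {∅} := by
      intro c hc
      obtain ⟨τ, _⟩ := (hSc c hc).2.2
      rw [Finset.mem_singleton, Finset.eq_empty_iff_forall_notMem]
      intro p _
      exact hO ⟨τ p⟩
    have h1 : S.card ≤ 1 := by
      have := Finset.card_le_card hsub
      simpa using this
    have h2 : (S.card : ℝ) ≤ 1 := by exact_mod_cast h1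
    have h3 := log_ge_one hX
    have hX0 : (0 : ℝ) < X := by exact_mod_cast (by omega : 0 < X)
    have h4 : Real.log X ^ 2 ≤ 4 * X := by
      have g1 := Real.log_le_sub_one_of_pos (Real.sqrt_pos.mpr hX0)
      rw [Real.log_sqrt hX0.le] at g1
      have g2 := Real.sq_sqrt hX0.le
      have g3 : Real.log X ≤ 2 * Real.sqrt X := by linarith
      nlinarith [Real.sqrt_nonneg (X : ℝ)]
    have h5 : Real.log X ^ (-2 : ℝ) ≤ Real.log X ^ (κ - 1 - 1) := rpow_le99 hX (by linarith)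
    have h6 : Real.log X ^ (-2 : ℝ) = (Real.log X ^ 2)⁻¹ := by
      rw [Real.rpow_neg (by linarith)]
      norm_num
    have h7 : 1 ≤ 4 * X * Real.log X ^ (-2 : ℝ) := by
      rw [h6, ← div_eq_mul_inv, le_div_iff₀ (by positivity), one_mul]
      exact h4
    calc (S.card : ℝ) ≤ 4 * X * Real.log X ^ (-2 : ℝ) := h2.trans h7
      _ ≤ _ := mul_le_mul_of_nonneg_left h5 (by positivity)
  obtain ⟨o₀⟩ := hO
  obtain ⟨h1, h2⟩ := sys_res hκ1 hS
  obtain ⟨K, hK⟩ := hV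
  obtain ⟨η, C, hη, hC, h⟩ := countK99 (res D R) hκ0 hκ1 h1 h2 ⟨K, fun p => hK p.1⟩ (BT_res o₀ hBT)
    (fun J => (hTAB J).imp TA_res TB_res) o₀
  refine ⟨η, C, hη, hC, fun X hX S hSc => ?_⟩
  set f : Finset D.P → Finset (res D R).P := fun c => c.subtype (fun p => p ∈ R ∨ p ∈ D.Ex) with hf
  have hup : ∀ c ∈ S, up (f c) = c := by
    intro c hc
    ext p
    rw [mem_up]
    constructor
    · rintro ⟨g1, g2⟩
      exact Finset.mem_subtype.mp g2
    · intro hp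
      have g1 : p ∈ R ∨ p ∈ D.Ex := by
        by_cases g : p ∈ D.Ex
        · exact Or.inr g
        · exact Or.inl ((hSc c hc).2.1 p (mem_pf.mpr ⟨hp, g⟩))
      exact ⟨g1, Finset.mem_subtype.mpr hp⟩
  have hcard : S.card = (S.image f).card := by
    rw [Finset.card_image_of_injOn]
    intro c hc c' hc' e
    rw [← hup c hc, ← hup c' hc']
    exact congrArg up e
  rw [hcard]
  refine h X hX (S.image f) fun c' hc' => ?_
  obtain ⟨c, hc, rfl⟩ := Finset.mem_image.mp hc'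
  obtain ⟨g1, g2, g3⟩ := hSc c hc
  rw [← hup c hc] at g1 g3
  rw [Nm_up] at g1
  exact ⟨g1, Bad_res g3⟩

end Pool.Agent.Helper99.MP
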